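import Mathlib

-- merged part: Pool.Agent.Work.MP_c026f4_lc.H12Run
section
set_option autoImplicit false

namespace Pool.Agent.Work.MP_c026f4_lc.H12

theorem ind_up {P : ℤ → Prop} {i : ℤ} (h0 : P i) (hs : ∀ k, i ≤ k → P k → P (k + 1)) :
    ∀ j, i ≤ j → P j := by
  intro j hj
  obtain ⟨n, rfl⟩ : ∃ n : ℕ, j = i + n := ⟨(j - i).toNat, by omega⟩
  induction n with
  | zero => simpa using h0
  | succ n ih =>
    have := hs (i + n) (by omega) (ih (by omega))
    have e : i + ((n + 1 : ℕ) : ℤ) = i + n + 1 := by push_cast; ring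
    rw [e]; exact this

theorem ind_down {P : ℤ → Prop} {j : ℤ} (h0 : P j) (hs : ∀ k, k + 1 ≤ j → P (k + 1) → P k) :
    ∀ i, i ≤ j → P i := by
  intro i hi
  obtain ⟨n, rfl⟩ : ∃ n : ℕ, i = j - n := ⟨(j - i).toNat, by omega⟩
  induction n with
  | zero => simpa using h0
  | succ n ih =>
    apply hs _ (by push_cast; omega)
    have e : j - ((n + 1 : ℕ) : ℤ) + 1 = j - n := by push_cast; ring
    rw [e]; exact ih (by omega)

theorem least {P : ℤ → Prop} {i j : ℤ} (hij : i ≤ j) (hj : P j) :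
    ∃ k, i ≤ k ∧ k ≤ j ∧ P k ∧ ∀ k', i ≤ k' → k' < k → ¬ P k' := by
  classical
  obtain ⟨k, hk, hm⟩ := Int.exists_least_of_bdd (P := fun k => i ≤ k ∧ P k)
    ⟨i, fun z hz => hz.1⟩ ⟨j, hij, hj⟩
  refine ⟨k, hk.1, hm j ⟨hij, hj⟩, hk.2, fun k' h1 h2 h3 => ?_⟩
  have := hm k' ⟨h1, h3⟩
  omega

theorem greatest {P : ℤ → Prop} {i j : ℤ} (hij : i ≤ j) (hi : P i) :
    ∃ k, i ≤ k ∧ k ≤ j ∧ P k ∧ ∀ k', k < k' → k' ≤ j → ¬ P k' := by
  classical
  obtain ⟨k, hk, hm⟩ := Int.exists_greatest_of_bdd (P := fun k => k ≤ j ∧ P k)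
    ⟨j, fun z hz => hz.1⟩ ⟨i, hij, hi⟩
  refine ⟨k, hm i ⟨hij, hi⟩, hk.1, hk.2, fun k' h1 h2 h3 => ?_⟩
  have := hm k' ⟨h2, h3⟩
  omega

variable {α : Type}

/-- The factor of the word between the gaps `i` and `j`. -/
def seg (w : ℤ → α) (i j : ℤ) : List α :=
  (List.range (j - i).toNat).map (fun k : ℕ => w (i + k))

theorem seg_nil (w : ℤ → α) {i j : ℤ} (h : j ≤ i) : seg w i j = [] := by
  have : (j - i).toNat = 0 := by omega
  simp [seg, this]

theorem seg_self (w : ℤ → α) (i : ℤ) : seg w i i = [] := seg_nil w le_rfl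

theorem seg_succ (w : ℤ → α) {i j : ℤ} (h : i ≤ j) : seg w i (j + 1) = seg w i j ++ [w j] := by
  have e : (j + 1 - i).toNat = (j - i).toNat + 1 := by omega
  have e2 : i + ((j - i).toNat : ℤ) = j := by omega
  simp only [seg, e, List.range_succ, List.map_append, List.map_cons, List.map_nil, e2]

theorem seg_append (w : ℤ → α) {i j k : ℤ} (h1 : i ≤ j) (h2 : j ≤ k) :
    seg w i k = seg w i j ++ seg w j k := by
  refine ind_up (P := fun k => seg w i k = seg w i j ++ seg w j k) ?_ ?_ k h2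
  · simp [seg_self]
  · intro k hk ih
    rw [seg_succ w (by omega), seg_succ w hk, ih, List.append_assoc]

theorem seg_one (w : ℤ → α) (i : ℤ) : seg w i (i + 1) = [w i] := by
  rw [seg_succ w le_rfl, seg_self]; rfl

theorem seg_cons (w : ℤ → α) {i j : ℤ} (h : i < j) : seg w i j = w i :: seg w (i + 1) j := by
  rw [seg_append w (by omega : i ≤ i + 1) (by omega), seg_one]; rfl

theorem seg_split (w : ℤ → α) {i p j : ℤ} (h1 : i ≤ p) (h2 : p < j) :
    seg w i j = seg w i p ++ w p :: seg w (p + 1) j := by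
  rw [seg_append w h1 (by omega), seg_cons w h2]

theorem mem_seg {w : ℤ → α} {i j : ℤ} {c : α} :
    c ∈ seg w i j ↔ ∃ k, i ≤ k ∧ k < j ∧ w k = c := by
  simp only [seg, List.mem_map, List.mem_range]
  constructor
  · rintro ⟨k, hk, rfl⟩
    exact ⟨i + k, by omega, by omega, rfl⟩
  · rintro ⟨k, h1, h2, rfl⟩
    refine ⟨(k - i).toNat, by omega, ?_⟩
    congr 1; omega

theorem length_seg (w : ℤ → α) (i j : ℤ) : (seg w i j).length = (j - i).toNat := by
  simp [seg]

theorem seg_mirror (w : ℤ → α) (i j : ℤ) :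
    seg (fun k => w (-k - 1)) i j = (seg w (-j) (-i)).reverse := by
  by_cases h : i ≤ j
  · refine ind_up (P := fun j => seg (fun k => w (-k - 1)) i j = (seg w (-j) (-i)).reverse)
      ?_ ?_ j h
    · simp [seg_self]
    · intro k hk ih
      rw [seg_succ _ hk, ih, seg_cons w (by omega : -(k + 1) < -i)]
      have e1 : -(k + 1) + 1 = -k := by ring
      have e2 : -(k + 1) = -k - 1 := by ring
      rw [e1, e2]; simp
  · rw [seg_nil _ (by omega), seg_nil _ (by omega)]; rfl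

theorem seg_congr {w : ℤ → α} {i j : ℤ} (n : ℕ) (h : ∀ k : ℤ, 0 ≤ k → k < n → w (i + k) = w (j + k)) :
    seg w i (i + n) = seg w j (j + n) := by
  have e1 : (i + n - i).toNat = n := by omega
  have e2 : (j + n - j).toNat = n := by omega
  simp only [seg, e1, e2]
  apply List.map_congr_left
  intro k hk
  exact h k (by omega) (by simpa using hk)

theorem seg_eq_imp {w : ℤ → α} {i j : ℤ} {n : ℕ} (h : seg w i (i + n) = seg w j (j + n)) :
    ∀ k : ℤ, 0 ≤ k → k < n → w (i + k) = w (j + k) := by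
  have e1 : (i + n - i).toNat = n := by omega
  have e2 : (j + n - j).toNat = n := by omega
  simp only [seg, e1, e2] at h
  intro k h0 hk
  have := List.map_inj_left.mp h k.toNat (by simp; omega)
  have e : ((k.toNat : ℕ) : ℤ) = k := by omega
  simpa [e] using this

/-- States of a block decomposition along the word: `A i` is the part of a left block word that has
been read at gap `i`, `B i` is the part of a right block word that remains. -/
structure Run (lo hi : ℤ) (w : ℤ → α) (M D : α → Prop) (u v : α → List α)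
    (A B : ℤ → List α) : Prop where
  loA : A lo = []
  loB : B lo = []
  hiA : A hi = []
  hiB : B hi = []
  del : ∀ i, lo ≤ i → i < hi → D (w i) → A (i + 1) = A i ∧ B (i + 1) = B i
  mor : ∀ i, lo ≤ i → i < hi → M (w i) →
    (A i = [] ∧ A (i + 1) = [] ∧ B i = w i :: B (i + 1)) ∨
      (B i = [] ∧ B (i + 1) = [] ∧ A (i + 1) = A i ++ [w i])
  mar : ∀ i, lo ≤ i → i < hi → ¬ M (w i) → ¬ D (w i) →
    A i = u (w i) ∧ B i = [] ∧ A (i + 1) = [] ∧ B (i + 1) = v (w i)

theorem Run.mirror {lo hi : ℤ} {w : ℤ → α} {M D : α → Prop} {u v : α → List α}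
    {A B : ℤ → List α} (h : Run lo hi w M D u v A B) :
    Run (-hi) (-lo) (fun k => w (-k - 1)) M D (fun e => (v e).reverse) (fun e => (u e).reverse)
      (fun i => (B (-i)).reverse) (fun i => (A (-i)).reverse) where
  loA := by simp [h.hiB]
  loB := by simp [h.hiA]
  hiA := by simp [h.loB]
  hiB := by simp [h.loA]
  del := by
    intro i h1 h2 hd
    have := h.del (-i - 1) (by omega) (by omega) hd
    have e1 : -i - 1 + 1 = -i := by ring
    have e2 : -(i + 1) = -i - 1 := by ring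
    rw [e1] at this
    simp only [e2, this.1, this.2, and_self]
  mor := by
    intro i h1 h2 hd
    have := h.mor (-i - 1) (by omega) (by omega) hd
    have e1 : -i - 1 + 1 = -i := by ring
    have e2 : -(i + 1) = -i - 1 := by ring
    rw [e1] at this
    simp only [e2]
    rcases this with ⟨a, b, c⟩ | ⟨a, b, c⟩
    · right; simp [a, b, c]
    · left; simp [a, b, c]
  mar := by
    intro i h1 h2 hm hd
    have := h.mar (-i - 1) (by omega) (by omega) hm hd
    have e1 : -i - 1 + 1 = -i := by ring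
    have e2 : -(i + 1) = -i - 1 := by ring
    rw [e1] at this
    simp only [e2]
    obtain ⟨a, b, c, d⟩ := this
    simp [a, b, c, d]

variable [DecidableEq α]

/-- Deleting the letter `z`. -/
def dl (z : α) (l : List α) : List α := l.filter (fun c => decide (c ≠ z))

@[simp] theorem dl_nil (z : α) : dl z [] = [] := rfl

theorem dl_append (z : α) (l l' : List α) : dl z (l ++ l') = dl z l ++ dl z l' := by
  simp [dl]

theorem dl_cons_self (z : α) (l : List α) : dl z (z :: l) = dl z l := by simp [dl]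

theorem dl_cons_ne {z c : α} (h : c ≠ z) (l : List α) : dl z (c :: l) = c :: dl z l := by
  simp [dl, h]

theorem mem_dl {z c : α} {l : List α} : c ∈ dl z l ↔ c ∈ l ∧ c ≠ z := by simp [dl]

theorem dl_eq_self {z : α} {l : List α} (h : z ∉ l) : dl z l = l := by
  simp only [dl, List.filter_eq_self]
  intro a ha
  simp only [ne_eq, decide_not, Bool.not_eq_eq_eq_not, Bool.not_true, decide_eq_false_iff_not]
  rintro rfl; exact h ha

theorem dl_reverse (z : α) (l : List α) : dl z l.reverse = (dl z l).reverse := by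
  simp [dl]

theorem dl_comm (z x : α) (l : List α) : dl z (dl x l) = dl x (dl z l) := by
  simp only [dl, List.filter_filter]
  congr 1; funext c; exact Bool.and_comm _ _

theorem length_dl_le (z : α) (l : List α) : (dl z l).length ≤ l.length := List.length_filter_le _ _

section run

variable {lo hi : ℤ} {w : ℤ → α} {M : α → Prop} {z : α} {u v : α → List α} {A B : ℤ → List α}

theorem Run.cases (h : Run lo hi w M (fun c => c = z) u v A B) {i : ℤ} (h1 : lo ≤ i)
    (h2 : i < hi) :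
    (w i = z ∧ A (i + 1) = A i ∧ B (i + 1) = B i) ∨
    (M (w i) ∧ A i = [] ∧ A (i + 1) = [] ∧ B i = w i :: B (i + 1)) ∨
    (M (w i) ∧ B i = [] ∧ B (i + 1) = [] ∧ A (i + 1) = A i ++ [w i]) ∨
    (¬ M (w i) ∧ w i ≠ z ∧ A i = u (w i) ∧ B i = [] ∧ A (i + 1) = [] ∧ B (i + 1) = v (w i)) := by
  by_cases hm : M (w i)
  · rcases h.mor i h1 h2 hm with a | a
    · exact Or.inr (Or.inl ⟨hm, a⟩)
    · exact Or.inr (Or.inr (Or.inl ⟨hm, a⟩))
  · by_cases hd : w i = z
    · exact Or.inl ⟨hd, h.del i h1 h2 hd⟩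
    · exact Or.inr (Or.inr (Or.inr ⟨hm, hd, h.mar i h1 h2 hm hd⟩))

theorem Run.AB (h : Run lo hi w M (fun c => c = z) u v A B) {i : ℤ} (h1 : lo ≤ i)
    (h2 : i ≤ hi) : A i = [] ∨ B i = [] := by
  revert h2
  refine ind_up (P := fun i => i ≤ hi → A i = [] ∨ B i = []) ?_ ?_ i h1
  · intro _; exact Or.inl h.loA
  · intro k hk ih h2
    rcases h.cases hk (by omega) with ⟨_, a, b⟩ | ⟨_, _, a, _⟩ | ⟨_, _, a, _⟩ | ⟨_, _, _, _, a, _⟩
    · rw [a, b]; exact ih (by omega)
    · exact Or.inl a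
    · exact Or.inr a
    · exact Or.inl a

theorem Run.memA (h : Run lo hi w M (fun c => c = z) u v A B) {i : ℤ} (h1 : lo ≤ i)
    (h2 : i ≤ hi) : ∀ m ∈ A i, M m := by
  revert h2
  refine ind_up (P := fun i => i ≤ hi → ∀ m ∈ A i, M m) ?_ ?_ i h1
  · intro _; simp [h.loA]
  · intro k hk ih h2
    rcases h.cases hk (by omega) with ⟨_, a, b⟩ | ⟨_, _, a, _⟩ | ⟨hm, _, _, a⟩ | ⟨_, _, _, _, a, _⟩
    · rw [a]; exact ih (by omega)
    · simp [a]
    · rw [a]; intro m hm'
      rcases List.mem_append.mp hm' with b | b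
      · exact ih (by omega) m b
      · rw [List.mem_singleton.mp b]; exact hm
    · simp [a]

theorem Run.memB (h : Run lo hi w M (fun c => c = z) u v A B) {i : ℤ} (h1 : lo ≤ i)
    (h2 : i ≤ hi) : ∀ m ∈ B i, M m := by
  revert h1
  refine ind_down (P := fun i => lo ≤ i → ∀ m ∈ B i, M m) ?_ ?_ i h2
  · intro _; simp [h.hiB]
  · intro k hk ih h1
    rcases h.cases h1 (by omega) with ⟨_, a, b⟩ | ⟨hm, _, _, a⟩ | ⟨_, a, _⟩ | ⟨_, _, _, a, _⟩
    · rw [← b]; exact ih (by omega)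
    · rw [a]; intro m hm'
      rcases List.mem_cons.mp hm' with b | b
      · rw [b]; exact hm
      · exact ih (by omega) m b
    · simp [a]
    · simp [a]

theorem Run.fwd (h : Run lo hi w M (fun c => c = z) u v A B) (hz : ¬ M z) {i j : ℤ} (h1 : lo ≤ i)
    (hij : i ≤ j) (h2 : j ≤ hi) (hB : B i = []) (hm : ∀ k, i ≤ k → k < j → M (w k) ∨ w k = z) :
    A j = A i ++ dl z (seg w i j) ∧ B j = [] := by
  revert h2 hm
  refine ind_up (P := fun j => j ≤ hi → (∀ k, i ≤ k → k < j → M (w k) ∨ w k = z) →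
    A j = A i ++ dl z (seg w i j) ∧ B j = []) ?_ ?_ j hij
  · intro _ _; simp [seg_self, hB]
  · intro k hk ih h2 hm
    obtain ⟨ia, ib⟩ := ih (by omega) (fun k' a b => hm k' a (by omega))
    rw [seg_succ w hk, dl_append]
    rcases h.cases (i := k) (by omega) (by omega) with
      ⟨e, a, b⟩ | ⟨_, _, _, a⟩ | ⟨hm', _, b, a⟩ | ⟨a, b, _⟩
    · rw [a, b, e, dl_cons_self, ia]; simp [ib]
    · rw [ib] at a; cases a
    · have : w k ≠ z := by rintro e; rw [e] at hm'; exact hz hm'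
      rw [a, dl_cons_ne this, ia]; simp [b]
    · rcases hm k hk (by omega) with c | c
      · exact absurd c a
      · exact absurd c b

theorem Run.bwd (h : Run lo hi w M (fun c => c = z) u v A B) (hz : ¬ M z) {i j : ℤ} (h1 : lo ≤ i)
    (hij : i ≤ j) (h2 : j ≤ hi) (hA : A j = []) (hm : ∀ k, i ≤ k → k < j → M (w k) ∨ w k = z) :
    B i = dl z (seg w i j) ++ B j ∧ A i = [] := by
  revert h1 hm
  refine ind_down (P := fun i => lo ≤ i → (∀ k, i ≤ k → k < j → M (w k) ∨ w k = z) →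
    B i = dl z (seg w i j) ++ B j ∧ A i = []) ?_ ?_ i hij
  · intro _ _; simp [seg_self, hA]
  · intro k hk ih h1 hm
    obtain ⟨ia, ib⟩ := ih (by omega) (fun k' a b => hm k' (by omega) b)
    rw [seg_cons w (by omega : k < j)]
    rcases h.cases (i := k) (by omega) (by omega) with
      ⟨e, a, b⟩ | ⟨hm', b, _, a⟩ | ⟨hm', _, b, a⟩ | ⟨a, b, _⟩
    · rw [← a, ← b, e, dl_cons_self, ia]; simp [ib]
    · have : w k ≠ z := by rintro e; rw [e] at hm'; exact hz hm'
      rw [a, dl_cons_ne this, ia]; simp [b]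
    · rw [ib] at a; simp at a
    · rcases hm k le_rfl (by omega) with c | c
      · exact absurd c a
      · exact absurd c b

theorem Run.next (h : Run lo hi w M (fun c => c = z) u v A B) {i : ℤ} (h1 : lo ≤ i)
    (h2 : i ≤ hi) (hB : B i ≠ []) :
    i < hi ∧ (w i = z ∨ (M (w i) ∧ B i = w i :: B (i + 1))) := by
  have hlt : i < hi := by
    rcases lt_or_eq_of_le h2 with a | a
    · exact a
    · rw [a] at hB; exact absurd h.hiB hB
  refine ⟨hlt, ?_⟩
  rcases h.cases h1 hlt with ⟨e, _⟩ | ⟨a, _, _, b⟩ | ⟨_, a, _⟩ | ⟨_, _, _, a, _⟩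
  · exact Or.inl e
  · exact Or.inr ⟨a, b⟩
  · exact absurd a hB
  · exact absurd a hB

theorem Run.span (h : Run lo hi w M (fun c => c = z) u v A B) (hz : ¬ M z) {i : ℤ} (h1 : lo ≤ i)
    (h2 : i ≤ hi) (hB : B i ≠ []) :
    ∃ k, i < k ∧ k ≤ hi ∧ B i = dl z (seg w i k) ∧
      ∀ j, i ≤ j → j < k → (M (w j) ∨ w j = z) ∧ B j ≠ [] := by
  obtain ⟨k, k1, k2, k3, k4⟩ := least (P := fun k => B k = []) h2 h.hiB
  have hik : i < k := by
    rcases lt_or_eq_of_le k1 with a | a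
    · exact a
    · rw [← a] at k3; exact absurd k3 hB
  have hall : ∀ j, i ≤ j → j < k → (M (w j) ∨ w j = z) ∧ B j ≠ [] := by
    intro j a b
    refine ⟨?_, k4 j a b⟩
    rcases (h.next (by omega) (by omega) (k4 j a b)).2 with c | c
    · exact Or.inr c
    · exact Or.inl c.1
  have hA : A k = [] := by
    have hb := k4 (k - 1) (by omega) (by omega)
    have e : k - 1 + 1 = k := by ring
    rcases h.cases (i := k - 1) (by omega) (by omega) with
      ⟨_, _, b⟩ | ⟨_, _, a, _⟩ | ⟨_, a, _⟩ | ⟨_, _, _, a, _⟩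
    · rw [e, k3] at b; exact absurd b.symm hb
    · rwa [e] at a
    · exact absurd a hb
    · exact absurd a hb
  refine ⟨k, hik, k2, ?_, hall⟩
  have := (h.bwd hz h1 k1 k2 hA (fun j a b => (hall j a b).1)).1
  rwa [k3, List.append_nil] at this

theorem Run.det (h : Run lo hi w M (fun c => c = z) u v A B) (hz : ¬ M z) {i j : ℤ}
    (h1 : lo ≤ i) (h2 : i < hi) (h3 : lo ≤ j) (h4 : j < hi) (hw : w i = w j) (hA : A i = A j)
    (hB : B i = B j) : A (i + 1) = A (j + 1) ∧ B (i + 1) = B (j + 1) := by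
  rcases h.cases h1 h2 with ⟨e, a, b⟩ | ⟨m, a, b, c⟩ | ⟨m, a, b, c⟩ | ⟨m, n, a, b, c, d⟩ <;>
  rcases h.cases h3 h4 with ⟨e', a', b'⟩ | ⟨m', a', b', c'⟩ | ⟨m', a', b', c'⟩ |
    ⟨m', n', a', b', c', d'⟩
  all_goals first
    | (rw [a, b, a', b', hA, hB]; exact ⟨rfl, rfl⟩)
    | (exfalso; rw [← hw, e] at m'; exact hz m')
    | (exfalso; rw [hw, e'] at m; exact hz m)
    | (exfalso; rw [← hw] at n'; exact n' e)
    | (exfalso; rw [hw] at n; exact n e')
    | (exfalso; rw [hw] at m; exact m' m)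
    | (exfalso; rw [hw] at m; exact m m')
    | (rw [hB, c', hw] at c; rw [b, b']; exact ⟨rfl, (List.cons.inj c).2.symm⟩)
    | (exfalso; rw [hB, a'] at c; cases c)
    | (exfalso; rw [← hB, a] at c'; cases c')
    | (rw [c, c', b, b', hA, hw]; exact ⟨rfl, rfl⟩)
    | (rw [c, c', d, d', hw]; exact ⟨rfl, rfl⟩)

theorem Run.det_seg (h : Run lo hi w M (fun c => c = z) u v A B) (hz : ¬ M z) {i j : ℤ}
    (h1 : lo ≤ i) (h3 : lo ≤ j) (hA : A i = A j) (hB : B i = B j) (n : ℤ) (hn : 0 ≤ n)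
    (h2 : i + n ≤ hi) (h4 : j + n ≤ hi) (hw : ∀ k, 0 ≤ k → k < n → w (i + k) = w (j + k)) :
    A (i + n) = A (j + n) ∧ B (i + n) = B (j + n) := by
  revert h2 h4 hw
  refine ind_up (P := fun n => i + n ≤ hi → j + n ≤ hi →
    (∀ k, 0 ≤ k → k < n → w (i + k) = w (j + k)) →
      A (i + n) = A (j + n) ∧ B (i + n) = B (j + n)) ?_ ?_ n hn
  · intro _ _ _; simpa using ⟨hA, hB⟩
  · intro k hk ih h2 h4 hw
    obtain ⟨a, b⟩ := ih (by omega) (by omega) (fun k' c d => hw k' c (by omega))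
    have := h.det hz (i := i + k) (j := j + k) (by omega) (by omega) (by omega) (by omega)
      (hw k hk (by omega)) a b
    rwa [add_assoc, add_assoc] at this

theorem Run.attach [LinearOrder α] (h : Run lo hi w M (fun c => c = z) u v A B)
    (hu : ∀ e m, m ∈ u e → e < m) (hv : ∀ e m, m ∈ v e → e < m) {i p j : ℤ} (h1 : lo ≤ i)
    (hip : i ≤ p) (hpj : p < j) (h2 : j ≤ hi) (hm : M (w p))
    (hmin : ∀ k, i ≤ k → k < j → ¬ M (w k) → w k ≠ z → ¬ w k < w p) :
    (A (p + 1) = [] ∧ w p ∈ B i ∧ ∀ k, i ≤ k → k ≤ p → M (w k) ∨ w k = z) ∨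
      (B p = [] ∧ w p ∈ A j ∧ ∀ k, p ≤ k → k < j → M (w k) ∨ w k = z) := by
  rcases h.mor p (by omega) (by omega) hm with ⟨_, a0, a⟩ | ⟨a0, _, a⟩
  · left
    refine ⟨a0, ?_⟩
    have : ∀ i', i' ≤ p → i ≤ i' →
        w p ∈ B i' ∧ ∀ k, i' ≤ k → k ≤ p → M (w k) ∨ w k = z := by
      refine ind_down ?_ ?_
      · intro _
        refine ⟨by simp [a], fun k b c => ?_⟩
        have : k = p := by omega
        rw [this]; exact Or.inl hm
      · intro k hk ih hik
        obtain ⟨ia, ib⟩ := ih (by omega)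
        have key : w p ∈ B k ∧ (M (w k) ∨ w k = z) := by
          rcases h.cases (i := k) (by omega) (by omega) with
            ⟨e, _, b⟩ | ⟨m, _, _, b⟩ | ⟨_, _, b, _⟩ | ⟨m, n, _, _, _, b⟩
          · exact ⟨b ▸ ia, Or.inr e⟩
          · exact ⟨by rw [b]; exact List.mem_cons_of_mem _ ia, Or.inl m⟩
          · rw [b] at ia; cases ia
          · rw [b] at ia
            exact absurd (hv _ _ ia) (hmin k hik (by omega) m n)
        refine ⟨key.1, fun k' b c => ?_⟩
        rcases lt_or_eq_of_le b with d | d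
        · exact ib k' (by omega) c
        · rw [← d]; exact key.2
    exact this i hip le_rfl
  · right
    refine ⟨a0, ?_⟩
    have : ∀ j', p + 1 ≤ j' → j' ≤ j →
        w p ∈ A j' ∧ ∀ k, p ≤ k → k < j' → M (w k) ∨ w k = z := by
      refine ind_up ?_ ?_
      · intro _
        refine ⟨by simp [a], fun k b c => ?_⟩
        have : k = p := by omega
        rw [this]; exact Or.inl hm
      · intro k hk ih hik
        obtain ⟨ia, ib⟩ := ih (by omega)
        have key : w p ∈ A (k + 1) ∧ (M (w k) ∨ w k = z) := by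
          rcases h.cases (i := k) (by omega) (by omega) with
            ⟨e, b, _⟩ | ⟨m, b, _⟩ | ⟨m, _, _, b⟩ | ⟨m, n, b, _⟩
          · exact ⟨b ▸ ia, Or.inr e⟩
          · rw [b] at ia; cases ia
          · exact ⟨by rw [b]; exact List.mem_append_left _ ia, Or.inl m⟩
          · rw [b] at ia
            exact absurd (hu _ _ ia) (hmin k (by omega) (by omega) m n)
        refine ⟨key.1, fun k' b c => ?_⟩
        rcases lt_or_eq_of_le (by omega : k' ≤ k) with d | d
        · exact ib k' b d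
        · rw [d]; exact key.2
    exact this j (by omega) le_rfl

end run

/-- The potential of a weight function at a gap. -/
def pot (lo : ℤ) (w : ℤ → α) (h : α → ℚ) (i : ℤ) : ℚ := ((seg w lo i).map h).sum

omit [DecidableEq α] in
theorem pot_lo (lo : ℤ) (w : ℤ → α) (h : α → ℚ) : pot lo w h lo = 0 := by simp [pot, seg_self]

omit [DecidableEq α] in
theorem pot_succ {lo : ℤ} (w : ℤ → α) (h : α → ℚ) {i : ℤ} (hi : lo ≤ i) :
    pot lo w h (i + 1) = pot lo w h i + h (w i) := by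
  simp [pot, seg_succ w hi]

omit [DecidableEq α] in
theorem pot_sub {lo : ℤ} (w : ℤ → α) (h : α → ℚ) {i j : ℤ} (hi : lo ≤ i) (hij : i ≤ j) :
    pot lo w h j - pot lo w h i = ((seg w i j).map h).sum := by
  simp [pot, seg_append w hi hij]

open Classical in
/-- The weight function counting the letter `m` in the states of a block decomposition. -/
noncomputable def hv (M : α → Prop) (z : α) (u v : α → List α) (m : α) : α → ℚ := fun c =>
  if c = z then 0 else if M c then (if c = m then 1 else 0)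
  else -(((u c).count m : ℚ) + ((v c).count m : ℚ))

theorem Run.pot_hv {lo hi : ℤ} {w : ℤ → α} {M : α → Prop} {z : α} {u v : α → List α}
    {A B : ℤ → List α} (h : Run lo hi w M (fun c => c = z) u v A B) (hz : ¬ M z) (m : α) {i : ℤ}
    (h1 : lo ≤ i) (h2 : i ≤ hi) :
    pot lo w (hv M z u v m) i = ((A i).count m : ℚ) - ((B i).count m : ℚ) := by
  revert h2
  refine ind_up (P := fun i => i ≤ hi →
    pot lo w (hv M z u v m) i = ((A i).count m : ℚ) - ((B i).count m : ℚ)) ?_ ?_ i h1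
  · intro _; simp [pot_lo, h.loA, h.loB]
  · intro k hk ih h2
    rw [pot_succ w _ hk, ih (by omega)]
    rcases h.cases hk (by omega) with ⟨e, a, b⟩ | ⟨n, a, b, c⟩ | ⟨n, a, b, c⟩ | ⟨n, n', a, b, c, d⟩
    · rw [a, b]; simp [hv, e]
    · have : w k ≠ z := by rintro e; rw [e] at n; exact hz n
      rw [a, b, c]
      by_cases e : w k = m
      · subst e; simp [hv, this, n]
      · simp [hv, this, n, e]
    · have : w k ≠ z := by rintro e; rw [e] at n; exact hz n
      rw [a, b, c]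
      by_cases e : w k = m
      · subst e; simp [hv, this, n]
      · simp [hv, this, n, e]
    · rw [a, b, c, d]; simp [hv, n, n']

end Pool.Agent.Work.MP_c026f4_lc.H12
end

-- merged part: Pool.Agent.Work.MP_c026f4_lc.H12Sys
section
set_option autoImplicit false

namespace Pool.Agent.Work.MP_c026f4_lc.H12

theorem Run.spanA {α : Type} [DecidableEq α] {lo hi : ℤ} {w : ℤ → α} {M : α → Prop} {z : α}
    {u v : α → List α} {A B : ℤ → List α}
    (h : Run lo hi w M (fun c => c = z) u v A B) (hz : ¬ M z) {i : ℤ} (h1 : lo ≤ i)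
    (h2 : i ≤ hi) (hA : A i ≠ []) :
    ∃ k, k < i ∧ lo ≤ k ∧ A i = dl z (seg w k i) ∧
      ∀ j, k ≤ j → j < i → (M (w j) ∨ w j = z) := by
  obtain ⟨k, k1, k2, k3, k4⟩ := greatest (P := fun k => A k = []) h1 h.loA
  have hik : k < i := by
    rcases lt_or_eq_of_le k2 with a | a
    · exact a
    · rw [a] at k3; exact absurd k3 hA
  have hall : ∀ j, k ≤ j → j < i → (M (w j) ∨ w j = z) := by
    intro j a b
    have hb := k4 (j + 1) (by omega) (by omega)
    rcases h.cases (i := j) (by omega) (by omega) with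
      ⟨e, _, _⟩ | ⟨m, _⟩ | ⟨m, _⟩ | ⟨_, _, _, _, c, _⟩
    · exact Or.inr e
    · exact Or.inl m
    · exact Or.inl m
    · exact absurd c hb
  have hB : B k = [] := by
    have hb := k4 (k + 1) (by omega) (by omega)
    rcases h.cases (i := k) (by omega) (by omega) with
      ⟨_, c, _⟩ | ⟨_, _, c, _⟩ | ⟨_, c, _⟩ | ⟨_, _, _, _, c, _⟩
    · rw [k3] at c; exact absurd c hb
    · exact absurd c hb
    · exact c
    · exact absurd c hb
  refine ⟨k, hik, k1, ?_, hall⟩
  have := (h.fwd hz k1 k2 h2 hB hall).1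
  rwa [k3, List.nil_append] at this

theorem sum_map_count {α : Type} [Fintype α] [DecidableEq α] (l : List α) (h : α → ℚ) :
    (l.map h).sum = ∑ c, (l.count c : ℚ) * h c := by
  induction l with
  | nil => simp
  | cons a l ih =>
    simp only [List.map_cons, List.sum_cons, ih, List.count_cons, Nat.cast_add, add_mul,
      Finset.sum_add_distrib]
    rw [add_comm]
    congr 1
    rw [Finset.sum_eq_single a]
    · simp
    · intro b _ hb; simp [Ne.symm hb]
    · simp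

/-- A primitive word all of whose heirs carry a canonical block decomposition. -/
structure Pre (α : Type) [LinearOrder α] where
  lo : ℤ
  hi : ℤ
  w : ℤ → α
  M : α → α → Prop
  u : α → α → List α
  v : α → α → List α
  A : α → ℤ → List α
  B : α → ℤ → List α
  le : lo ≤ hi
  occ : ∀ c, ∃ i, lo ≤ i ∧ i < hi ∧ w i = c
  irr : ∀ z, ¬ M z z
  ne : ∀ z, ∃ m, M z m
  canU : ∀ z e m, m ∈ u z e → e < m
  canV : ∀ z e m, m ∈ v z e → e < m
  run : ∀ z, Run lo hi w (M z) (fun c => c = z) (u z) (v z) (A z) (B z)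
  prim : ∀ (M' : α → Prop) (u' v' : α → List α) (A' B' : ℤ → List α),
    Run lo hi w M' (fun _ => False) u' v' A' B' → ∀ m, ¬ M' m

variable {α : Type} [LinearOrder α]

namespace Pre

variable (S : Pre α)

def Rng (i : ℤ) : Prop := S.lo ≤ i ∧ i ≤ S.hi

def Same (z : α) (i j : ℤ) : Prop := S.A z i = S.A z j ∧ S.B z i = S.B z j

def f (h : α → ℚ) (i : ℤ) : ℚ := pot S.lo S.w h i

def InV (Y : Finset α) (h : α → ℚ) : Prop :=
  ∀ i j, S.Rng i → S.Rng j → (∀ z ∈ Y, S.Same z i j) → S.f h i = S.f h j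

noncomputable def dv (z m : α) : α → ℚ := hv (S.M z) z (S.u z) (S.v z) m

variable {S}

theorem Same.symm {z : α} {i j : ℤ} (h : S.Same z i j) : S.Same z j i := ⟨h.1.symm, h.2.symm⟩

theorem Same.trans {z : α} {i j k : ℤ} (h : S.Same z i j) (h' : S.Same z j k) : S.Same z i k :=
  ⟨h.1.trans h'.1, h.2.trans h'.2⟩

theorem Same.refl (z : α) (i : ℤ) : S.Same z i i := ⟨rfl, rfl⟩

theorem rlo : S.Rng S.lo := ⟨le_rfl, S.le⟩
theorem rhi : S.Rng S.hi := ⟨S.le, le_rfl⟩

theorem f_lo (h : α → ℚ) : S.f h S.lo = 0 := pot_lo _ _ _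

theorem f_succ (h : α → ℚ) {i : ℤ} (hi : S.lo ≤ i) : S.f h (i + 1) = S.f h i + h (S.w i) :=
  pot_succ _ _ hi

theorem f_sub [Fintype α] (h : α → ℚ) {i j : ℤ} (hi : S.lo ≤ i) (hij : i ≤ j) :
    S.f h j - S.f h i = ∑ c, ((seg S.w i j).count c : ℚ) * h c := by
  rw [← sum_map_count]; exact pot_sub _ _ hi hij

theorem dv_f (z m : α) {i : ℤ} (hi : S.Rng i) :
    S.f (S.dv z m) i = ((S.A z i).count m : ℚ) - ((S.B z i).count m : ℚ) :=
  (S.run z).pot_hv (S.irr z) m hi.1 hi.2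

theorem dv_InV {Y : Finset α} {z : α} (hz : z ∈ Y) (m : α) : S.InV Y (S.dv z m) := by
  intro i j hi hj h
  rw [dv_f z m hi, dv_f z m hj, (h z hz).1, (h z hz).2]

theorem dv_self (z m : α) : S.dv z m z = 0 := by simp [dv, hv]

theorem dv_one {z m : α} (h : S.M z m) : S.dv z m m = 1 := by
  have : m ≠ z := by rintro rfl; exact S.irr _ h
  simp [dv, hv, this, h]

theorem dv_mortal {z m c : α} (h : S.M z c) (hc : c ≠ m) : S.dv z m c = 0 := by
  have : c ≠ z := by rintro rfl; exact S.irr _ h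
  simp [dv, hv, this, h, hc]

theorem dv_marker {z m c : α} (h : ¬ S.M z c) (hc : c ≠ z) :
    S.dv z m c = -((((S.u z c).count m : ℕ) : ℚ) + (((S.v z c).count m : ℕ) : ℚ)) := by
  simp [dv, hv, h, hc]

theorem dv_nonpos {z m c : α} (hc : c ≠ m) : S.dv z m c ≤ 0 := by
  by_cases h1 : c = z
  · rw [h1, dv_self]
  · by_cases h2 : S.M z c
    · rw [dv_mortal h2 hc]
    · rw [dv_marker h2 h1]
      have a : (0 : ℚ) ≤ ((S.u z c).count m : ℕ) := Nat.cast_nonneg _
      have b : (0 : ℚ) ≤ ((S.v z c).count m : ℕ) := Nat.cast_nonneg _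
      linarith

theorem dv_lt {z m c : α} (hc : m < c) : S.dv z m c = 0 := by
  by_cases h1 : c = z
  · rw [h1, dv_self]
  · by_cases h2 : S.M z c
    · rw [dv_mortal h2 hc.ne']
    · rw [dv_marker h2 h1]
      have a : (S.u z c).count m = 0 :=
        List.count_eq_zero.mpr (fun h => absurd (S.canU _ _ _ h) (not_lt.mpr hc.le))
      have b : (S.v z c).count m = 0 :=
        List.count_eq_zero.mpr (fun h => absurd (S.canV _ _ _ h) (not_lt.mpr hc.le))
      simp [a, b]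

theorem comb_min [Fintype α] (a : α → ℚ) {z m : α} (hm : ∀ c, c < m → a c = 0) (h : S.M z m) :
    ∑ c, a c * S.dv z m c = a m := by
  rw [Finset.sum_eq_single m]
  · rw [dv_one h, mul_one]
  · intro c _ hc
    rcases lt_or_gt_of_ne hc with h1 | h1
    · rw [hm c h1, zero_mul]
    · rw [dv_lt h1, mul_zero]
  · simp

theorem InV.hi {Y : Finset α} {h : α → ℚ} (hh : S.InV Y h) : S.f h S.hi = 0 := by
  rw [← f_lo (S := S) h]
  refine hh _ _ rhi rlo (fun z _ => ?_)
  exact ⟨by rw [(S.run z).hiA, (S.run z).loA], by rw [(S.run z).hiB, (S.run z).loB]⟩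

theorem AB (z : α) {i : ℤ} (hi : S.Rng i) : S.A z i = [] ∨ S.B z i = [] :=
  (S.run z).AB hi.1 hi.2

theorem A_nil {z : α} {i : ℤ} (hi : S.Rng i) (h : S.B z i ≠ []) : S.A z i = [] :=
  (AB z hi).resolve_right h

theorem B_nil {z : α} {i : ℤ} (hi : S.Rng i) (h : S.A z i ≠ []) : S.B z i = [] :=
  (AB z hi).resolve_left h

theorem memA {z m : α} {i : ℤ} (hi : S.Rng i) (h : m ∈ S.A z i) : S.M z m :=
  (S.run z).memA hi.1 hi.2 m h

theorem memB {z m : α} {i : ℤ} (hi : S.Rng i) (h : m ∈ S.B z i) : S.M z m :=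
  (S.run z).memB hi.1 hi.2 m h

theorem own {p : ℤ} (h1 : S.lo ≤ p) (h2 : p < S.hi) {z : α} (h : S.w p = z) :
    S.A z (p + 1) = S.A z p ∧ S.B z (p + 1) = S.B z p := (S.run z).del p h1 h2 h

theorem mark {p : ℤ} (h1 : S.lo ≤ p) (h2 : p < S.hi) {z c : α} (h : S.w p = c) (hm : ¬ S.M z c)
    (hc : c ≠ z) :
    S.A z p = S.u z c ∧ S.B z p = [] ∧ S.A z (p + 1) = [] ∧ S.B z (p + 1) = S.v z c := by
  subst h; exact (S.run z).mar p h1 h2 hm hc

theorem dv_neg {z m : α} {i : ℤ} (hi : S.Rng i) (h : m ∈ S.B z i) : S.f (S.dv z m) i < 0 := by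
  rw [dv_f z m hi, A_nil hi (List.ne_nil_of_mem h)]
  have : 0 < (S.B z i).count m := List.count_pos_iff.mpr h
  have : (0 : ℚ) < ((S.B z i).count m : ℕ) := by exact_mod_cast this
  simp only [List.count_nil, Nat.cast_zero]; linarith

theorem dv_pos {z m : α} {i : ℤ} (hi : S.Rng i) (h : m ∈ S.A z i) : 0 < S.f (S.dv z m) i := by
  rw [dv_f z m hi, B_nil hi (List.ne_nil_of_mem h)]
  have : 0 < (S.A z i).count m := List.count_pos_iff.mpr h
  have : (0 : ℚ) < ((S.A z i).count m : ℕ) := by exact_mod_cast this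
  simp only [List.count_nil, Nat.cast_zero]; linarith

theorem dv_nonneg_of {z m : α} {i : ℤ} (hi : S.Rng i) (h : m ∉ S.B z i) :
    0 ≤ S.f (S.dv z m) i := by
  rw [dv_f z m hi, List.count_eq_zero.mpr h]
  simp

theorem dv_nonpos_of {z m : α} {i : ℤ} (hi : S.Rng i) (h : m ∉ S.A z i) :
    S.f (S.dv z m) i ≤ 0 := by
  rw [dv_f z m hi, List.count_eq_zero.mpr h]
  simp

theorem memB_of_neg {z m : α} {i : ℤ} (hi : S.Rng i) (h : S.f (S.dv z m) i < 0) :
    m ∈ S.B z i := by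
  by_contra hh
  exact absurd (dv_nonneg_of hi hh) (not_le.mpr h)

theorem memA_of_pos {z m : α} {i : ℤ} (hi : S.Rng i) (h : 0 < S.f (S.dv z m) i) :
    m ∈ S.A z i := by
  by_contra hh
  exact absurd (dv_nonpos_of hi hh) (not_le.mpr h)

end Pre

theorem exists_min [Fintype α] {a : α → ℚ} (ha : a ≠ 0) : ∃ m, a m ≠ 0 ∧ ∀ c, c < m → a c = 0 := by
  classical
  have hne : (Finset.univ.filter (fun c => a c ≠ 0)).Nonempty := by
    by_contra hh
    apply ha
    funext c
    by_contra hc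
    exact hh ⟨c, by simpa using hc⟩
  refine ⟨(Finset.univ.filter (fun c => a c ≠ 0)).min' hne, ?_, ?_⟩
  · simpa using Finset.min'_mem _ hne
  · intro c hc
    by_contra h
    exact absurd (Finset.min'_le _ c (by simpa using h)) (not_le.mpr hc)

/-- A minimal failure of the dimension bound. -/
structure Sys (α : Type) [LinearOrder α] extends Pre α where
  X : Finset α
  Xne : X.Nonempty
  G : ∀ (ι : Type) [Fintype ι] [Nonempty ι] (p q : ι → ℤ) (Q : Finset α),
    Q.card ≤ Fintype.card ι →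
    (∀ r, toPre.Rng (p r) ∧ toPre.Rng (q r) ∧ ∀ z ∈ X, z ∉ Q → toPre.Same z (p r) (q r)) →
    ∃ a : ι → ℚ, a ≠ 0 ∧ ∀ h, toPre.InV X h → ∑ r, a r * (toPre.f h (p r) - toPre.f h (q r)) = 0

namespace Sys

variable (S : Sys α)

def V (h : α → ℚ) : Prop := S.InV S.X h

def Eqv (i j : ℤ) : Prop := S.Rng i ∧ S.Rng j ∧ ∀ h, S.V h → S.f h i = S.f h j

def Ms (c : α) : Prop := ∃ z ∈ S.X, S.M z c

def Top (b : α) : Prop := b ∈ S.X ∧ ¬ S.Ms b

def T (c z : α) : Prop := z ∈ S.X ∧ z ≠ c ∧ (S.M z c ∨ S.u z c ≠ [] ∨ S.v z c ≠ [])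

def Z (i : ℤ) (z : α) : Prop := z ∈ S.X ∧ (S.A z i ≠ [] ∨ S.B z i ≠ [])

def inS (t m : α) : Prop :=
  ∃ p, S.lo ≤ p ∧ p < S.hi ∧ S.w p = t ∧ (m ∈ S.A t p ∨ m ∈ S.B t p)

def F4 (t : α) : Prop := ∀ z, S.T t z → ∀ m, S.inS t m → S.M z m ∨ m = z

def NU (b : α) : Prop :=
  ∃ p q, S.lo ≤ p ∧ p < S.hi ∧ S.lo ≤ q ∧ q < S.hi ∧ S.w p = b ∧ S.w q = b ∧ ¬ S.Same b p q

variable {S}

theorem dvV {z : α} (hz : z ∈ S.X) (m : α) : S.V (S.dv z m) := Pre.dv_InV hz m

theorem Eqv.symm {i j : ℤ} (h : S.Eqv i j) : S.Eqv j i :=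
  ⟨h.2.1, h.1, fun g hg => (h.2.2 g hg).symm⟩

theorem Eqv.trans {i j k : ℤ} (h : S.Eqv i j) (h' : S.Eqv j k) : S.Eqv i k :=
  ⟨h.1, h'.2.1, fun g hg => (h.2.2 g hg).trans (h'.2.2 g hg)⟩

theorem Eqv.refl {i : ℤ} (h : S.Rng i) : S.Eqv i i := ⟨h, h, fun _ _ => rfl⟩

theorem F1 {i j : ℤ} (hi : S.Rng i) (hj : S.Rng j) (t : α)
    (h : ∀ z ∈ S.X, z ≠ t → S.Same z i j) : S.Eqv i j := by
  refine ⟨hi, hj, fun g hg => ?_⟩
  obtain ⟨a, ha, hs⟩ := S.G Unit (fun _ => i) (fun _ => j) {t} (by simp)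
    (fun _ => ⟨hi, hj, fun z hz hq => h z hz (by simpa using hq)⟩)
  have h1 := hs g hg
  simp only [Finset.univ_unique, Finset.sum_singleton] at h1
  have h2 : a default ≠ 0 := by
    intro h0; apply ha; funext r; exact h0
  rcases mul_eq_zero.mp h1 with h3 | h3
  · exact absurd h3 h2
  · linarith

theorem Eqv.perm {i j : ℤ} (h : S.Eqv i j) {z : α} (hz : z ∈ S.X) :
    (S.A z i).Perm (S.A z j) ∧ (S.B z i).Perm (S.B z j) := by
  have key : ∀ m, ((S.A z i).count m : ℚ) - ((S.B z i).count m : ℚ) =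
      ((S.A z j).count m : ℚ) - ((S.B z j).count m : ℚ) := by
    intro m
    rw [← Pre.dv_f z m h.1, ← Pre.dv_f z m h.2.1]
    exact h.2.2 _ (dvV hz m)
  have key2 : ∀ m, (S.A z i).count m + (S.B z j).count m =
      (S.A z j).count m + (S.B z i).count m := by
    intro m
    have := key m
    have h2 : (((S.A z i).count m + (S.B z j).count m : ℕ) : ℚ) =
        (((S.A z j).count m + (S.B z i).count m : ℕ) : ℚ) := by push_cast; linarith
    exact_mod_cast h2
  constructor <;> rw [List.perm_iff_count] <;> intro m <;> have := key2 m <;>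
  rcases Pre.AB z h.1 with a | a <;> rcases Pre.AB z h.2.1 with b | b <;>
  simp only [a, b, List.count_nil] at this ⊢ <;> omega

theorem Eqv.memA {i j : ℤ} (h : S.Eqv i j) {z m : α} (hz : z ∈ S.X) (hm : m ∈ S.A z i) :
    m ∈ S.A z j := (h.perm hz).1.subset hm

theorem Eqv.memB {i j : ℤ} (h : S.Eqv i j) {z m : α} (hz : z ∈ S.X) (hm : m ∈ S.B z i) :
    m ∈ S.B z j := (h.perm hz).2.subset hm

theorem Eqv.nilA {i j : ℤ} (h : S.Eqv i j) {z : α} (hz : z ∈ S.X) (hm : S.A z i = []) :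
    S.A z j = [] := by
  have := (h.perm hz).1; rw [hm] at this; exact this.symm.eq_nil

theorem Eqv.nilB {i j : ℤ} (h : S.Eqv i j) {z : α} (hz : z ∈ S.X) (hm : S.B z i = []) :
    S.B z j = [] := by
  have := (h.perm hz).2; rw [hm] at this; exact this.symm.eq_nil

theorem Eqv.Z {i j : ℤ} (h : S.Eqv i j) {z : α} (hz : S.Z i z) : S.Z j z := by
  refine ⟨hz.1, ?_⟩
  rcases hz.2 with a | a
  · exact Or.inl (fun b => a (h.symm.nilA hz.1 b))
  · exact Or.inr (fun b => a (h.symm.nilB hz.1 b))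

theorem same_lo {i : ℤ} {z : α} (hz : z ∈ S.X) (h : ¬ S.Z i z) : S.Same z i S.lo := by
  constructor
  · rw [(S.run z).loA]; by_contra a; exact h ⟨hz, Or.inl a⟩
  · rw [(S.run z).loB]; by_contra a; exact h ⟨hz, Or.inr a⟩

theorem factA {i : ℤ} (hi : S.Rng i) {z : α} (hz : S.Z i z) : ∃ z', z' ≠ z ∧ S.Z i z' := by
  by_contra hh
  have h1 : S.Eqv i S.lo := F1 hi Pre.rlo z (fun z' hz' hne =>
    same_lo hz' (fun a => hh ⟨z', hne, a⟩))
  rcases (h1.Z hz).2 with a | a
  · exact a (S.run z).loA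
  · exact a (S.run z).loB

theorem notT {p : ℤ} (h1 : S.lo ≤ p) (h2 : p < S.hi) {c z : α} (hw : S.w p = c) (hz : z ∈ S.X)
    (hc : z ≠ c) (h : ¬ S.T c z) :
    S.A z p = [] ∧ S.B z p = [] ∧ S.A z (p + 1) = [] ∧ S.B z (p + 1) = [] := by
  have hm : ¬ S.M z c := fun a => h ⟨hz, hc, Or.inl a⟩
  have hu : S.u z c = [] := by by_contra a; exact h ⟨hz, hc, Or.inr (Or.inl a)⟩
  have hv' : S.v z c = [] := by by_contra a; exact h ⟨hz, hc, Or.inr (Or.inr a)⟩
  have := Pre.mark h1 h2 hw hm hc.symm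
  rwa [hu, hv'] at this

theorem notT_same {p : ℤ} (h1 : S.lo ≤ p) (h2 : p < S.hi) {c z : α} (hw : S.w p = c)
    (hz : z ∈ S.X) (h : ¬ S.T c z) : S.Same z (p + 1) p := by
  by_cases hc : z = c
  · subst hc; exact Pre.own h1 h2 hw
  · obtain ⟨a, b, c, d⟩ := notT h1 h2 hw hz hc h
    exact ⟨by rw [a, c], by rw [b, d]⟩

theorem Z_tail {p : ℤ} (h1 : S.lo ≤ p) (h2 : p < S.hi) {c z : α} (hw : S.w p = c)
    (h : S.Z p z) : S.T c z ∨ z = c := by
  by_contra hh
  push Not at hh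
  obtain ⟨a, b, _⟩ := notT h1 h2 hw h.1 hh.2 hh.1
  rcases h.2 with d | d
  · exact d a
  · exact d b

theorem Z_head {p : ℤ} (h1 : S.lo ≤ p) (h2 : p < S.hi) {c z : α} (hw : S.w p = c)
    (h : S.Z (p + 1) z) : S.T c z ∨ z = c := by
  by_contra hh
  push Not at hh
  obtain ⟨_, _, a, b⟩ := notT h1 h2 hw h.1 hh.2 hh.1
  rcases h.2 with d | d
  · exact d a
  · exact d b

theorem T.dv_ne {c z : α} (h : S.T c z) : ∃ m, S.dv z m c ≠ 0 := by
  obtain ⟨_, hc, h⟩ := h
  by_cases hm : S.M z c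
  · exact ⟨c, by rw [Pre.dv_one hm]; exact one_ne_zero⟩
  · have h' := h.resolve_left hm
    obtain ⟨m, hm'⟩ : ∃ m, m ∈ S.u z c ∨ m ∈ S.v z c := by
      rcases h' with a | a
      · obtain ⟨m, b⟩ := List.exists_mem_of_ne_nil _ a; exact ⟨m, Or.inl b⟩
      · obtain ⟨m, b⟩ := List.exists_mem_of_ne_nil _ a; exact ⟨m, Or.inr b⟩
    refine ⟨m, ?_⟩
    rw [Pre.dv_marker hm hc.symm]
    have : 0 < (S.u z c).count m + (S.v z c).count m := by
      rcases hm' with a | a
      · have := List.count_pos_iff.mpr a; omega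
      · have := List.count_pos_iff.mpr a; omega
    have : (0 : ℚ) < (((S.u z c).count m : ℕ) : ℚ) + (((S.v z c).count m : ℕ) : ℚ) := by
      exact_mod_cast this
    linarith

theorem T_of_dv {c z m : α} (hz : z ∈ S.X) (h : S.dv z m c ≠ 0) : S.T c z := by
  by_contra hh
  apply h
  by_cases hc : z = c
  · subst hc; exact Pre.dv_self _ _
  have hm : ¬ S.M z c := fun a => hh ⟨hz, hc, Or.inl a⟩
  have hu : S.u z c = [] := by by_contra a; exact hh ⟨hz, hc, Or.inr (Or.inl a)⟩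
  have hv' : S.v z c = [] := by by_contra a; exact hh ⟨hz, hc, Or.inr (Or.inr a)⟩
  rw [Pre.dv_marker hm (Ne.symm hc), hu, hv']; simp

theorem T_of_M {c z : α} (hz : z ∈ S.X) (h : S.M z c) : S.T c z :=
  ⟨hz, fun e => S.irr z (by rw [e] at h ⊢; exact h), Or.inl h⟩

theorem F2 {c z : α} (h : S.T c z) : ∃ z', z' ≠ z ∧ S.T c z' := by
  by_contra hh
  obtain ⟨p, h1, h2, hw⟩ := S.occ c
  have e : S.Eqv (p + 1) p := F1 ⟨by omega, by omega⟩ ⟨h1, h2.le⟩ z (fun z' hz' hne =>
    notT_same h1 h2 hw hz' (fun a => hh ⟨z', hne, a⟩))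
  obtain ⟨m, hm⟩ := h.dv_ne
  have := e.2.2 _ (dvV h.1 m)
  rw [Pre.f_succ _ h1, hw] at this
  apply hm; linarith

theorem indep [Fintype α] {a : α → ℚ} (hs : ∀ c, a c ≠ 0 → S.Ms c)
    (h0 : ∀ h, S.V h → ∑ c, a c * h c = 0) : a = 0 := by
  by_contra ha
  obtain ⟨m, h1, h2⟩ := exists_min ha
  obtain ⟨z, hz, hm⟩ := hs m h1
  have := h0 _ (dvV hz m)
  rw [Pre.comb_min a h2 hm] at this
  exact h1 this

theorem tails {c : α} (hc : ¬ S.Ms c) {p q : ℤ} (h1 : S.lo ≤ p) (h2 : p < S.hi) (h3 : S.lo ≤ q)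
    (h4 : q < S.hi) (hp : S.w p = c) (hq : S.w q = c) {z : α} (hz : z ∈ S.X) (hne : z ≠ c) :
    S.Same z p q ∧ S.Same z (p + 1) (q + 1) := by
  have hm : ¬ S.M z c := fun a => hc ⟨z, hz, a⟩
  obtain ⟨a1, a2, a3, a4⟩ := Pre.mark h1 h2 hp hm hne.symm
  obtain ⟨b1, b2, b3, b4⟩ := Pre.mark h3 h4 hq hm hne.symm
  exact ⟨⟨by rw [a1, b1], by rw [a2, b2]⟩, ⟨by rw [a3, b3], by rw [a4, b4]⟩⟩

theorem tails_eqv {c : α} (hc : ¬ S.Ms c) {p q : ℤ} (h1 : S.lo ≤ p) (h2 : p < S.hi)
    (h3 : S.lo ≤ q) (h4 : q < S.hi) (hp : S.w p = c) (hq : S.w q = c) : S.Eqv p q :=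
  F1 ⟨h1, h2.le⟩ ⟨h3, h4.le⟩ c (fun _ hz hne => (tails hc h1 h2 h3 h4 hp hq hz hne).1)

theorem heads_eqv {c : α} (hc : ¬ S.Ms c) {p q : ℤ} (h1 : S.lo ≤ p) (h2 : p < S.hi)
    (h3 : S.lo ≤ q) (h4 : q < S.hi) (hp : S.w p = c) (hq : S.w q = c) :
    S.Eqv (p + 1) (q + 1) :=
  F1 ⟨by omega, by omega⟩ ⟨by omega, by omega⟩ c
    (fun _ hz hne => (tails hc h1 h2 h3 h4 hp hq hz hne).2)

theorem Top.Z {b : α} (hb : S.Top b) {p : ℤ} (h1 : S.lo ≤ p) (h2 : p < S.hi) (hp : S.w p = b) :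
    S.Z p b := by
  classical
  by_contra hh
  have hall : ∀ q, S.lo ≤ q → q < S.hi → S.w q = b → S.A b q = [] ∧ S.B b q = [] := by
    intro q h3 h4 hq
    have e := tails_eqv hb.2 h3 h4 h1 h2 hq hp
    constructor
    · by_contra a; exact hh (e.Z ⟨hb.1, Or.inl a⟩)
    · by_contra a; exact hh (e.Z ⟨hb.1, Or.inr a⟩)
  have hr : Run S.lo S.hi S.w (S.M b) (fun _ => False)
      (fun e => if e = b then [] else S.u b e) (fun e => if e = b then [] else S.v b e)
      (S.A b) (S.B b) := by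
    refine ⟨(S.run b).loA, (S.run b).loB, (S.run b).hiA, (S.run b).hiB,
      fun _ _ _ h => h.elim, (S.run b).mor, fun i h3 h4 hm _ => ?_⟩
    by_cases e : S.w i = b
    · obtain ⟨a1, a2⟩ := hall i h3 h4 e
      obtain ⟨a3, a4⟩ := Pre.own h3 h4 e
      simp [e, a1, a2, a3, a4]
    · simpa [e] using (S.run b).mar i h3 h4 hm e
  obtain ⟨m, hm⟩ := S.ne b
  exact S.prim _ _ _ _ _ hr m hm

theorem Top.parU {b : α} (hb : S.Top b) : ∃ z ∈ S.X, z ≠ b ∧ S.u z b ≠ [] := by
  obtain ⟨p, h1, h2, hp⟩ := S.occ b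
  obtain ⟨z, hne, hz⟩ := factA ⟨h1, h2.le⟩ (hb.Z h1 h2 hp)
  obtain ⟨a1, a2, _⟩ := Pre.mark h1 h2 hp (fun a => hb.2 ⟨z, hz.1, a⟩) hne.symm
  refine ⟨z, hz.1, hne, ?_⟩
  rcases hz.2 with a | a
  · rwa [a1] at a
  · exact absurd a2 a

theorem Top.exT {b : α} (hb : S.Top b) : ∃ z, S.T b z := by
  obtain ⟨z, h1, h2, h3⟩ := hb.parU
  exact ⟨z, h1, h2, Or.inr (Or.inl h3)⟩

theorem Top.no_two {b : α} (hb : S.Top b) {p q : ℤ} (h1 : S.lo ≤ p) (hpq : p < q) (h4 : q < S.hi)
    (hp : S.w p = b) (hq : S.w q = b) (hm : ∀ k, p < k → k < q → S.M b (S.w k)) : False := by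
  have e := tails_eqv hb.2 h1 (by omega) (by omega) h4 hp hq
  obtain ⟨o1, o2⟩ := Pre.own h1 (by omega) hp
  have hnot : b ∉ seg S.w (p + 1) q := by
    intro a
    obtain ⟨k, k1, k2, k3⟩ := mem_seg.mp a
    have := hm k (by omega) k2
    rw [k3] at this; exact S.irr _ this
  have hlen : (seg S.w (p + 1) q).length = 0 := by
    rcases (hb.Z h1 (by omega) hp).2 with a | a
    · have b1 : S.B b (p + 1) = [] := by rw [o2]; exact Pre.B_nil e.1 a
      have := ((S.run b).fwd (S.irr b) (by omega) (by omega : p + 1 ≤ q) h4.le b1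
        (fun k k1 k2 => Or.inl (hm k (by omega) k2))).1
      rw [dl_eq_self hnot, o1] at this
      have l := (e.perm hb.1).1.length_eq
      rw [this, List.length_append] at l
      omega
    · have b1 : S.A b q = [] := e.nilA hb.1 (Pre.A_nil e.1 a)
      have := ((S.run b).bwd (S.irr b) (by omega) (by omega : p + 1 ≤ q) h4.le b1
        (fun k k1 k2 => Or.inl (hm k (by omega) k2))).1
      rw [dl_eq_self hnot, o2] at this
      have l := (e.perm hb.1).2.length_eq
      rw [this, List.length_append] at l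
      omega
  rw [length_seg] at hlen
  have hq' : q = p + 1 := by omega
  obtain ⟨z, hz, hne, hu⟩ := hb.parU
  have hm' : ¬ S.M z b := fun a => hb.2 ⟨z, hz, a⟩
  have a1 := (Pre.mark h1 (by omega) hp hm' hne.symm).2.2.1
  have a2 := (Pre.mark (by omega) h4 hq hm' hne.symm).1
  rw [hq', a1] at a2
  exact hu a2.symm

theorem Top.inS_tail {b m : α} (hb : S.Top b) {p : ℤ} (h1 : S.lo ≤ p) (h2 : p < S.hi)
    (hp : S.w p = b) (hm : S.inS b m) : m ∈ S.A b p ∨ m ∈ S.B b p := by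
  obtain ⟨q, h3, h4, hq, hm⟩ := hm
  have e := tails_eqv hb.2 h3 h4 h1 h2 hq hp
  rcases hm with a | a
  · exact Or.inl (e.memA hb.1 a)
  · exact Or.inr (e.memB hb.1 a)

theorem inS.M {t m : α} (h : S.inS t m) : S.M t m := by
  obtain ⟨q, h3, h4, _, hm⟩ := h
  rcases hm with a | a
  · exact Pre.memA ⟨h3, h4.le⟩ a
  · exact Pre.memB ⟨h3, h4.le⟩ a

end Sys

end Pool.Agent.Work.MP_c026f4_lc.H12
end

-- merged part: Pool.Agent.Work.MP_c026f4_lc.H12Mir
section
set_option autoImplicit false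

namespace Pool.Agent.Work.MP_c026f4_lc.H12

theorem uniq_last {β : Type} {P : β → Prop} {u1 u2 s1 s2 : List β} {c1 c2 : β}
    (h : u1 ++ c1 :: s1 = u2 ++ c2 :: s2) (h1 : ¬ P c1) (h2 : ¬ P c2) (h3 : ∀ x ∈ s1, P x)
    (h4 : ∀ x ∈ s2, P x) : c1 = c2 ∧ s1 = s2 := by
  rcases List.append_eq_append_iff.mp h with ⟨a, _, e⟩ | ⟨a, _, e⟩
  · cases a with
    | nil => simpa using e
    | cons x a =>
      simp only [List.cons_append, List.cons.injEq] at e
      exact absurd (h3 c2 (by rw [e.2]; simp)) h2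
  · cases a with
    | nil =>
      simp only [List.nil_append, List.cons.injEq] at e
      exact ⟨e.1.symm, e.2.symm⟩
    | cons x a =>
      simp only [List.cons_append, List.cons.injEq] at e
      exact absurd (h4 c1 (by rw [e.2]; simp)) h1

theorem uniq_first {β : Type} {P : β → Prop} {u1 u2 s1 s2 : List β} {c1 c2 : β}
    (h : u1 ++ c1 :: s1 = u2 ++ c2 :: s2) (h1 : ¬ P c1) (h2 : ¬ P c2) (h3 : ∀ x ∈ u1, P x)
    (h4 : ∀ x ∈ u2, P x) : c1 = c2 ∧ u1 = u2 := by
  rcases List.append_eq_append_iff.mp h with ⟨a, e1, e⟩ | ⟨a, e1, e⟩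
  · cases a with
    | nil =>
      simp only [List.nil_append, List.cons.injEq, List.append_nil] at e e1
      exact ⟨e.1, e1.symm⟩
    | cons x a =>
      simp only [List.cons_append, List.cons.injEq] at e
      exact absurd (h4 c1 (by rw [e1, e.1]; simp)) h1
  · cases a with
    | nil =>
      simp only [List.nil_append, List.cons.injEq, List.append_nil] at e e1
      exact ⟨e.1.symm, e1⟩
    | cons x a =>
      simp only [List.cons_append, List.cons.injEq] at e
      exact absurd (h3 c2 (by rw [e1, e.1]; simp)) h2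

variable {α : Type} [LinearOrder α]

namespace Sys

variable {S : Sys α}

theorem lastMarker {b : α} {e p : ℤ} (h1 : S.lo ≤ e) (hep : e < p) (h2 : p ≤ S.hi)
    (hB : S.B b p ≠ []) (hm : ¬ S.M b (S.w e)) (hne : S.w e ≠ b)
    (hall : ∀ k, e < k → k < p → S.M b (S.w k)) :
    S.v b (S.w e) = seg S.w (e + 1) p ++ S.B b p := by
  have a := (Pre.mark (S := S.toPre) h1 (by omega) rfl hm hne).2.2.2
  have hA := Pre.A_nil (S := S.toPre) ⟨by omega, h2⟩ hB
  have := ((S.run b).bwd (S.irr b) (by omega) (by omega : e + 1 ≤ p) h2 hA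
    (fun k k1 k2 => Or.inl (hall k (by omega) k2))).1
  rw [dl_eq_self] at this
  · rw [← a, this]
  · intro c
    obtain ⟨k, k1, k2, k3⟩ := mem_seg.mp c
    have := hall k (by omega) k2
    rw [k3] at this; exact S.irr _ this

theorem decomp {b z c : α} (hb : S.Top b) (hz : z ∈ S.X) (hzb : z ≠ b) {p : ℤ} (h1 : S.lo ≤ p)
    (h2 : p < S.hi) (hp : S.w p = b) (hc : c ∈ S.u z b) (hcm : ¬ S.M b c) :
    ∃ k, S.lo ≤ k ∧ k < p ∧ S.w k ≠ z ∧ ¬ S.M b (S.w k) ∧ S.w k ≠ b ∧
      (∀ j, k < j → j < p → (S.M b (S.w j) ∨ S.w j = z) ∧ S.w j ≠ b) ∧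
      ∃ u1, S.u z b = u1 ++ S.w k :: dl z (seg S.w (k + 1) p) := by
  have hm : ¬ S.M z b := fun a => hb.2 ⟨z, hz, a⟩
  have a := (Pre.mark (S := S.toPre) h1 h2 hp hm hzb.symm).1
  obtain ⟨k0, k1, k2, k3, k4⟩ := (S.run z).spanA (S.irr z) h1 h2.le
    (by rw [a]; exact List.ne_nil_of_mem hc)
  rw [a] at k3
  have hc' := hc
  rw [k3, mem_dl] at hc'
  obtain ⟨j0, j1, j2, j3⟩ := mem_seg.mp hc'.1
  obtain ⟨k, m1, m2, m3, m4⟩ := greatest (P := fun k => S.w k ≠ z ∧ ¬ S.M b (S.w k))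
    (by omega : j0 ≤ p - 1) (by rw [j3]; exact ⟨hc'.2, hcm⟩)
  have hnb : ∀ j, k0 ≤ j → j < p → S.w j ≠ b := by
    intro j b1 b2 e
    rcases k4 j b1 b2 with d | d
    · rw [e] at d; exact hm d
    · rw [e] at d; exact hzb d.symm
  refine ⟨k, by omega, by omega, m3.1, m3.2, hnb k (by omega) (by omega), fun j b1 b2 => ⟨?_,
    hnb j (by omega) b2⟩, dl z (seg S.w k0 k), ?_⟩
  · have := m4 j b1 (by omega)
    by_cases d : S.w j = z
    · exact Or.inr d
    · left; by_contra d2; exact this ⟨d, d2⟩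
  · rw [k3, seg_split S.w (by omega : k0 ≤ k) (by omega : k < p), dl_append, dl_cons_ne m3.1]

theorem N1aux {b z c : α} (hb : S.Top b) (hz : z ∈ S.X) (hzb : z ≠ b) {p q : ℤ} (h1 : S.lo ≤ p)
    (h2 : p < S.hi) (h3 : S.lo ≤ q) (h4 : q < S.hi) (hp : S.w p = b) (hq : S.w q = b)
    (hB : S.B b p ≠ []) (hc : c ∈ S.u z b) (hcm : ¬ S.M b c) : S.B b p = S.B b q := by
  have e := tails_eqv hb.2 h1 h2 h3 h4 hp hq
  have hlen := (e.perm hb.1).2.length_eq
  have hB' : S.B b q ≠ [] := fun a => hB (e.symm.nilB hb.1 a)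
  have fin : ∀ (l1 l2 : List α), l1 ++ S.B b p = l2 ++ S.B b q → S.B b p = S.B b q :=
    fun l1 l2 h => List.append_inj_right' h hlen
  obtain ⟨k, k1, k2, k3, k4, k5, k6, u1, k7⟩ := decomp hb hz hzb h1 h2 hp hc hcm
  obtain ⟨n, n1, n2, n3, n4, n5, n6, u2, n7⟩ := decomp hb hz hzb h3 h4 hq hc hcm
  have hin : ∀ {k p : ℤ}, (∀ j, k < j → j < p → (S.M b (S.w j) ∨ S.w j = z) ∧ S.w j ≠ b) →
      ∀ x ∈ dl z (seg S.w (k + 1) p), S.M b x := by
    intro k p h x hx
    rw [mem_dl] at hx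
    obtain ⟨j, j1, j2, j3⟩ := mem_seg.mp hx.1
    rcases (h j (by omega) j2).1 with d | d
    · rwa [j3] at d
    · rw [j3] at d; exact absurd d hx.2
  obtain ⟨ec, es⟩ := uniq_last (P := S.M b) (k7.symm.trans n7) k4 n4 (hin k6) (hin n6)
  by_cases hzm : S.M b z
  · have a1 := lastMarker k1 k2 h2.le hB k4 k5 (fun j j1 j2 => by
      rcases (k6 j j1 j2).1 with d | d
      · exact d
      · rw [d]; exact hzm)
    have a2 := lastMarker n1 n2 h4.le hB' n4 n5 (fun j j1 j2 => by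
      rcases (n6 j j1 j2).1 with d | d
      · exact d
      · rw [d]; exact hzm)
    rw [ec, a2] at a1
    exact fin _ _ a1.symm
  have withz : ∀ {k p : ℤ}, S.lo ≤ k → p < S.hi → S.B b p ≠ [] →
      (∀ j, k < j → j < p → (S.M b (S.w j) ∨ S.w j = z) ∧ S.w j ≠ b) →
      (∃ j, k < j ∧ j < p ∧ S.w j = z) → ∃ l, S.v b z = l ++ S.B b p := by
    intro k p b1 b2 b3 b4 ⟨j, j1, j2, j3⟩
    obtain ⟨g, g1, g2, g3, g4⟩ := greatest (P := fun j => S.w j = z) (by omega : j ≤ p - 1) j3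
    have := lastMarker (by omega : S.lo ≤ g) (by omega : g < p) b2.le b3 (by rw [g3]; exact hzm)
      (by rw [g3]; exact hzb) (fun j' c1 c2 =>
        (b4 j' (by omega) c2).1.resolve_right (g4 j' c1 (by omega)))
    rw [g3] at this
    exact ⟨_, this⟩
  have noz : ∀ {k p : ℤ}, S.lo ≤ k → k < p → p < S.hi → S.B b p ≠ [] → ¬ S.M b (S.w k) →
      S.w k ≠ b → (∀ j, k < j → j < p → (S.M b (S.w j) ∨ S.w j = z) ∧ S.w j ≠ b) →
      (¬ ∃ j, k < j ∧ j < p ∧ S.w j = z) →
      S.v b (S.w k) = dl z (seg S.w (k + 1) p) ++ S.B b p := by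
    intro k p b1 b1' b2 b3 c1 c2 b4 hn
    rw [dl_eq_self]
    · exact lastMarker b1 b1' b2.le b3 c1 c2 (fun j j1 j2 =>
        (b4 j j1 j2).1.resolve_right (fun d => hn ⟨j, j1, j2, d⟩))
    · intro d
      obtain ⟨j, j1, j2, j3⟩ := mem_seg.mp d
      exact hn ⟨j, by omega, j2, j3⟩
  have short : ∀ {k p : ℤ}, S.lo ≤ k → p < S.hi → ¬ S.M b (S.w k) →
      S.w k ≠ b → (∃ j, k < j ∧ j < p ∧ S.w j = z) →
      (S.v b (S.w k)).length ≤ (dl z (seg S.w (k + 1) p)).length := by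
    intro k p b1 b2 c1 c2 ⟨j, j1, j2, j3⟩
    have a := (Pre.mark (S := S.toPre) b1 (by omega) rfl c1 c2).2.2.2
    by_cases hv0 : S.v b (S.w k) = []
    · simp [hv0]
    obtain ⟨k', d1, d2, d3, d4⟩ := (S.run b).span (S.irr b) (by omega : S.lo ≤ k + 1) (by omega)
      (by rw [a]; exact hv0)
    have hnz : ∀ j', k + 1 ≤ j' → j' < k' → S.w j' ≠ z := by
      intro j' e1 e2 e3
      rcases (d4 j' e1 e2).1 with d | d
      · rw [e3] at d; exact hzm d
      · rw [e3] at d; exact hzb d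
    have hk' : k' ≤ j := by
      by_contra d; exact hnz j (by omega) (by omega) j3
    rw [← a, d3, seg_append S.w (by omega : k + 1 ≤ k') (by omega : k' ≤ p), dl_append,
      dl_eq_self (z := z), List.length_append]
    · have := length_dl_le b (seg S.w (k + 1) k'); omega
    · intro d
      obtain ⟨j', e1, e2, e3⟩ := mem_seg.mp d
      exact hnz j' e1 e2 e3
  by_cases c1 : ∃ j, k < j ∧ j < p ∧ S.w j = z <;> by_cases c2 : ∃ j, n < j ∧ j < q ∧ S.w j = z
  · obtain ⟨l1, a1⟩ := withz k1 h2 hB k6 c1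
    obtain ⟨l2, a2⟩ := withz n1 h4 hB' n6 c2
    exact fin _ _ (a1.symm.trans a2)
  · exfalso
    have a1 := short k1 h2 k4 k5 c1
    have a2 := noz n1 n2 h4 hB' n4 n5 n6 c2
    rw [ec, es, a2, List.length_append] at a1
    have := List.length_pos_iff.mpr hB'
    omega
  · exfalso
    have a1 := short n1 h4 n4 n5 c2
    have a2 := noz k1 k2 h2 hB k4 k5 k6 c1
    rw [← ec, ← es, a2, List.length_append] at a1
    have := List.length_pos_iff.mpr hB
    omega
  · have a1 := noz k1 k2 h2 hB k4 k5 k6 c1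
    have a2 := noz n1 n2 h4 hB' n4 n5 n6 c2
    rw [ec, a2] at a1
    exact fin _ _ a1.symm

theorem N1 {b z c : α} (hb : S.Top b) (hN : S.NU b) (hz : z ∈ S.X) (hzb : z ≠ b) {p : ℤ}
    (h1 : S.lo ≤ p) (h2 : p < S.hi) (hp : S.w p = b) (hB : S.B b p ≠ []) (hc : c ∈ S.u z b) :
    S.M b c := by
  by_contra hcm
  obtain ⟨q, q', a1, a2, a3, a4, a5, a6, a7⟩ := hN
  have b1 := N1aux hb hz hzb h1 h2 a1 a2 hp a5 hB hc hcm
  have b2 := N1aux hb hz hzb h1 h2 a3 a4 hp a6 hB hc hcm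
  apply a7
  refine ⟨?_, b1.symm.trans b2⟩
  rw [Pre.A_nil (S := S.toPre) ⟨a1, a2.le⟩ (b1 ▸ hB), Pre.A_nil (S := S.toPre) ⟨a3, a4.le⟩ (b2 ▸ hB)]

end Sys

/-- The second system is the mirror image of the first one. -/
structure IsMir (S S' : Sys α) : Prop where
  lo : S'.lo = -S.hi
  hi : S'.hi = -S.lo
  w : ∀ i, S'.w i = S.w (-i - 1)
  X : S'.X = S.X
  M : S'.M = S.M
  u : ∀ z e, S'.u z e = (S.v z e).reverse
  v : ∀ z e, S'.v z e = (S.u z e).reverse
  A : ∀ z i, S'.A z i = (S.B z (-i)).reverse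
  B : ∀ z i, S'.B z i = (S.A z (-i)).reverse

omit [LinearOrder α] in
theorem pot_mirror (lo hi : ℤ) (w : ℤ → α) (h : α → ℚ) {i : ℤ} (h1 : -hi ≤ i) (h2 : i ≤ -lo) :
    pot (-hi) (fun k => w (-k - 1)) h i = pot lo w h hi - pot lo w h (-i) := by
  rw [pot_sub w h (by omega) (by omega), pot, seg_mirror, neg_neg, List.map_reverse,
    List.sum_reverse]

/-- The mirror image of the basic data. -/
def Pre.mir (S : Pre α) : Pre α where
  lo := -S.hi
  hi := -S.lo
  w := fun k => S.w (-k - 1)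
  M := S.M
  u := fun z e => (S.v z e).reverse
  v := fun z e => (S.u z e).reverse
  A := fun z i => (S.B z (-i)).reverse
  B := fun z i => (S.A z (-i)).reverse
  le := by have := S.le; omega
  occ := by
    intro c
    obtain ⟨i, a, b, e⟩ := S.occ c
    refine ⟨-i - 1, by omega, by omega, ?_⟩
    rw [← e]; congr 1; ring
  irr := S.irr
  ne := S.ne
  canU := fun z e m h => S.canV z e m (List.mem_reverse.mp h)
  canV := fun z e m h => S.canU z e m (List.mem_reverse.mp h)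
  run := fun z => (S.run z).mirror
  prim := by
    intro M' u' v' A' B' h
    have := h.mirror
    have e : (fun k : ℤ => S.w (-(-k - 1) - 1)) = S.w := by
      funext k; congr 1; ring
    simp only [neg_neg, e] at this
    exact S.prim _ _ _ _ _ this

theorem Pre.mir_InV (S : Pre α) (Y : Finset α) {h : α → ℚ} (hh : S.mir.InV Y h) : S.InV Y h := by
  intro i j hi hj hs
  have hi' : S.mir.Rng (-i) := ⟨by have := hi.2; show -S.hi ≤ -i; omega,
    by have := hi.1; show -i ≤ -S.lo; omega⟩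
  have hj' : S.mir.Rng (-j) := ⟨by have := hj.2; show -S.hi ≤ -j; omega,
    by have := hj.1; show -j ≤ -S.lo; omega⟩
  have := hh (-i) (-j) hi' hj' (fun z hz => by
    obtain ⟨a, b⟩ := hs z hz
    constructor
    · show (S.B z (- -i)).reverse = (S.B z (- -j)).reverse
      rw [neg_neg, neg_neg, b]
    · show (S.A z (- -i)).reverse = (S.A z (- -j)).reverse
      rw [neg_neg, neg_neg, a])
  have e1 := pot_mirror S.lo S.hi S.w h hi'.1 hi'.2
  have e2 := pot_mirror S.lo S.hi S.w h hj'.1 hj'.2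
  change pot (-S.hi) (fun k => S.w (-k - 1)) h (-i) = pot (-S.hi) (fun k => S.w (-k - 1)) h (-j)
    at this
  rw [e1, e2, neg_neg, neg_neg] at this
  show pot S.lo S.w h i = pot S.lo S.w h j
  linarith

/-- The mirror image of a system. -/
def Sys.mir (S : Sys α) : Sys α where
  toPre := S.toPre.mir
  X := S.X
  Xne := S.Xne
  G := by
    intro ι _ _ p q Q hQ hr
    have hrng : ∀ {i : ℤ}, S.toPre.mir.Rng i → S.Rng (-i) := by
      intro i hi
      have a : -S.hi ≤ i := hi.1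
      have b : i ≤ -S.lo := hi.2
      exact ⟨by omega, by omega⟩
    obtain ⟨a, ha, hs⟩ := S.G ι (fun r => -q r) (fun r => -p r) Q hQ (fun r => by
      obtain ⟨a, b, c⟩ := hr r
      refine ⟨hrng b, hrng a, fun z hz hq => ?_⟩
      obtain ⟨d, e⟩ := c z hz hq
      exact ⟨(List.reverse_injective e).symm, (List.reverse_injective d).symm⟩)
    refine ⟨a, ha, fun h hh => ?_⟩
    rw [← hs h (Pre.mir_InV _ _ hh)]
    apply Finset.sum_congr rfl
    intro r _
    obtain ⟨b, c, _⟩ := hr r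
    have e1 := pot_mirror S.lo S.hi S.w h b.1 b.2
    have e2 := pot_mirror S.lo S.hi S.w h c.1 c.2
    congr 1
    show pot (-S.hi) (fun k => S.w (-k - 1)) h (p r) - pot (-S.hi) (fun k => S.w (-k - 1)) h (q r)
      = pot S.lo S.w h (-q r) - pot S.lo S.w h (-p r)
    rw [e1, e2]; ring

theorem Sys.isMir (S : Sys α) : IsMir S S.mir :=
  ⟨rfl, rfl, fun _ => rfl, rfl, rfl, fun _ _ => rfl, fun _ _ => rfl, fun _ _ => rfl,
    fun _ _ => rfl⟩

namespace IsMir

variable {S S' : Sys α} (h : IsMir S S')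
include h

theorem symm : IsMir S' S where
  lo := by rw [h.hi, neg_neg]
  hi := by rw [h.lo, neg_neg]
  w := fun i => by rw [h.w]; congr 1; ring
  X := h.X.symm
  M := h.M.symm
  u := fun z e => by rw [h.v, List.reverse_reverse]
  v := fun z e => by rw [h.u, List.reverse_reverse]
  A := fun z i => by rw [h.B, List.reverse_reverse, neg_neg]
  B := fun z i => by rw [h.A, List.reverse_reverse, neg_neg]

theorem rng {i : ℤ} (hi : S.Rng i) : S'.Rng (-i) := by
  obtain ⟨a, b⟩ := hi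
  exact ⟨by rw [h.lo]; omega, by rw [h.hi]; omega⟩

theorem w' (i : ℤ) : S'.w (-i - 1) = S.w i := by rw [h.w]; congr 1; ring

theorem memA {z m : α} {i : ℤ} : m ∈ S'.A z (-i) ↔ m ∈ S.B z i := by
  rw [h.A, neg_neg, List.mem_reverse]

theorem memB {z m : α} {i : ℤ} : m ∈ S'.B z (-i) ↔ m ∈ S.A z i := by
  rw [h.B, neg_neg, List.mem_reverse]

theorem nilA {z : α} {i : ℤ} : S'.A z (-i) = [] ↔ S.B z i = [] := by
  rw [h.A, neg_neg, List.reverse_eq_nil_iff]

theorem nilB {z : α} {i : ℤ} : S'.B z (-i) = [] ↔ S.A z i = [] := by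
  rw [h.B, neg_neg, List.reverse_eq_nil_iff]

theorem same {z : α} {i j : ℤ} (hs : S.Same z i j) : S'.Same z (-i) (-j) := by
  obtain ⟨a, b⟩ := hs
  exact ⟨by rw [h.A, h.A, neg_neg, neg_neg, b], by rw [h.B, h.B, neg_neg, neg_neg, a]⟩

theorem same' {z : α} {i j : ℤ} (hs : S'.Same z (-i) (-j)) : S.Same z i j := by
  have := h.symm.same hs
  rwa [neg_neg, neg_neg] at this

theorem f0 (g : α → ℚ) {i : ℤ} (hi : S.Rng i) : S'.f g (-i) = S.f g S.hi - S.f g i := by
  have e : S'.w = fun k => S.w (-k - 1) := funext h.w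
  have := pot_mirror S.lo S.hi S.w g (i := -i) (by have := hi.2; omega) (by have := hi.1; omega)
  rw [neg_neg] at this
  show pot S'.lo S'.w g (-i) = _
  rw [h.lo, e, this]; rfl

theorem V {g : α → ℚ} (hg : S.V g) : S'.V g := by
  intro i j hi hj hs
  have hi' := h.symm.rng hi
  have hj' := h.symm.rng hj
  have e1 := h.f0 g hi'
  have e2 := h.f0 g hj'
  rw [neg_neg] at e1 e2
  rw [e1, e2, hg _ _ hi' hj' (fun z hz => h.symm.same (hs z (by rw [h.X]; exact hz)))]

theorem f {g : α → ℚ} (hg : S.V g) {i : ℤ} (hi : S.Rng i) : S'.f g (-i) = -S.f g i := by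
  rw [h.f0 g hi, Pre.InV.hi hg, zero_sub]

theorem eqv {i j : ℤ} (e : S.Eqv i j) : S'.Eqv (-i) (-j) := by
  refine ⟨h.rng e.1, h.rng e.2.1, fun g hg => ?_⟩
  have hg' := h.symm.V hg
  rw [h.f hg' e.1, h.f hg' e.2.1, e.2.2 g hg']

theorem Ms {c : α} : S'.Ms c ↔ S.Ms c := by
  unfold Sys.Ms; rw [h.X, h.M]

theorem Top {c : α} : S'.Top c ↔ S.Top c := by
  unfold Sys.Top; rw [h.X, h.Ms]

theorem T {c z : α} : S'.T c z ↔ S.T c z := by
  unfold Sys.T; rw [h.X, h.M, h.u, h.v]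
  simp only [ne_eq, List.reverse_eq_nil_iff]
  tauto

theorem Z {i : ℤ} {z : α} : S'.Z (-i) z ↔ S.Z i z := by
  unfold Sys.Z; rw [h.X, ne_eq, ne_eq, h.nilA, h.nilB]
  tauto

theorem inS1 {t m : α} (hs : S.inS t m) : S'.inS t m := by
  obtain ⟨p, a, b, c, d⟩ := hs
  obtain ⟨o1, o2⟩ := Pre.own (S := S'.toPre) (p := -p - 1) (by rw [h.lo]; omega)
    (by rw [h.hi]; omega) (z := t) (by rw [h.w', c])
  have e : -p - 1 + 1 = -p := by ring
  rw [e] at o1 o2
  refine ⟨-p - 1, by rw [h.lo]; omega, by rw [h.hi]; omega, by rw [h.w', c], ?_⟩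
  rw [← o1, ← o2, h.memA, h.memB]
  exact d.symm

theorem inS {t m : α} : S'.inS t m ↔ S.inS t m := ⟨h.symm.inS1, h.inS1⟩

theorem F4 {t : α} : S'.F4 t ↔ S.F4 t := by
  unfold Sys.F4
  simp only [h.T, h.inS, h.M]

theorem NU1 {t : α} (hs : S.NU t) : S'.NU t := by
  obtain ⟨p, q, a1, a2, a3, a4, a5, a6, a7⟩ := hs
  refine ⟨-p - 1, -q - 1, by rw [h.lo]; omega, by rw [h.hi]; omega, by rw [h.lo]; omega,
    by rw [h.hi]; omega, by rw [h.w', a5], by rw [h.w', a6], fun d => a7 ?_⟩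
  have e1 : -p - 1 = -(p + 1) := by ring
  have e2 : -q - 1 = -(q + 1) := by ring
  rw [e1, e2] at d
  have d' := h.same' d
  have o1 : S.Same t (p + 1) p := Pre.own a1 a2 a5
  have o2 : S.Same t (q + 1) q := Pre.own a3 a4 a6
  exact (o1.symm.trans d').trans o2

theorem NU {t : α} : S'.NU t ↔ S.NU t := ⟨h.symm.NU1, h.NU1⟩

end IsMir

end Pool.Agent.Work.MP_c026f4_lc.H12
end

-- merged part: Pool.Agent.Work.MP_c026f4_lc.H12Fork
section
set_option autoImplicit false

namespace Pool.Agent.Work.MP_c026f4_lc.H12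

theorem Run.len {α : Type} [DecidableEq α] {lo hi : ℤ} {w : ℤ → α} {M : α → Prop} {z : α}
    {u v : α → List α} {A B : ℤ → List α}
    (h : Run lo hi w M (fun c => c = z) u v A B) (hz : ¬ M z) {i j : ℤ} (h1 : lo ≤ i)
    (hij : i ≤ j) (h2 : j ≤ hi) (hm : ∀ k, i ≤ k → k < j → M (w k) ∨ w k = z) :
    (A j).length + (B i).length = (A i).length + (B j).length + (dl z (seg w i j)).length := by
  revert h2 hm
  refine ind_up (P := fun j => j ≤ hi → (∀ k, i ≤ k → k < j → M (w k) ∨ w k = z) →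
    (A j).length + (B i).length = (A i).length + (B j).length + (dl z (seg w i j)).length)
    ?_ ?_ j hij
  · intro _ _; simp [seg_self]
  · intro k hk ih h2 hm
    have ih' := ih (by omega) (fun k' a b => hm k' a (by omega))
    rw [seg_succ w hk, dl_append, List.length_append]
    rcases h.cases (i := k) (by omega) (by omega) with
      ⟨e, a, b⟩ | ⟨hm', a, b, c⟩ | ⟨hm', a, b, c⟩ | ⟨a, b, _⟩
    · rw [a, b, e, dl_cons_self]; simpa using ih'
    · have : w k ≠ z := by rintro e; rw [e] at hm'; exact hz hm'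
      rw [a, c] at ih'
      rw [b, dl_cons_ne this]
      simp only [List.length_nil, List.length_cons, dl_nil] at ih' ⊢
      omega
    · have : w k ≠ z := by rintro e; rw [e] at hm'; exact hz hm'
      rw [a] at ih'
      rw [b, c, dl_cons_ne this]
      simp only [List.length_nil, List.length_cons, dl_nil, List.length_append] at ih' ⊢
      omega
    · rcases hm k hk (by omega) with c | c
      · exact absurd c a
      · exact absurd c b

theorem dl_seg_nil {α : Type} [DecidableEq α] {w : ℤ → α} {z : α} {a b : ℤ}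
    (h : dl z (seg w a b) = []) : ∀ j, a ≤ j → j < b → w j = z := by
  intro j h1 h2
  by_contra hh
  have : w j ∈ dl z (seg w a b) := mem_dl.mpr ⟨mem_seg.mpr ⟨j, h1, h2, rfl⟩, hh⟩
  rw [h] at this; cases this

theorem dl_seg_cons {α : Type} [DecidableEq α] {w : ℤ → α} {z x : α} {a b : ℤ} {l : List α}
    (h : dl z (seg w a b) = x :: l) :
    ∃ k, a ≤ k ∧ k < b ∧ w k = x ∧ ∀ j, a ≤ j → j < k → w j = z := by
  have hx : x ∈ dl z (seg w a b) := by rw [h]; simp
  rw [mem_dl] at hx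
  obtain ⟨j, j1, j2, j3⟩ := mem_seg.mp hx.1
  obtain ⟨k, k1, k2, k3, k4⟩ := least (P := fun k => w k ≠ z) j1 (by rw [j3]; exact hx.2)
  have hall : ∀ j, a ≤ j → j < k → w j = z := fun j b1 b2 => by
    by_contra c; exact k4 j b1 b2 c
  have e : dl z (seg w a k) = [] := by
    apply List.eq_nil_iff_forall_not_mem.mpr
    intro c hc
    rw [mem_dl] at hc
    obtain ⟨j', b1, b2, b3⟩ := mem_seg.mp hc.1
    exact hc.2 (b3 ▸ hall j' b1 b2)
  rw [seg_split w k1 (by omega : k < b), dl_append, e, dl_cons_ne k3] at h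
  exact ⟨k, k1, by omega, (List.cons.inj h).1, hall⟩

variable {α : Type} [LinearOrder α]

namespace Sys

def Reach (S : Sys α) (t : α) (i : ℤ) : Prop :=
  S.B t i ≠ [] ∧ ∃ p, S.lo ≤ p ∧ p < i ∧ S.w p = t ∧ ∀ k, p < k → k < i → S.M t (S.w k)

/-- Two gaps with different next symbols and almost equal states. -/
structure Fork (S : Sys α) (i i' : ℤ) (t : α) (ac : Prop) : Prop where
  ri : S.Rng i
  ri' : S.Rng i'
  ne : i = S.hi ∨ i' = S.hi ∨ S.w i ≠ S.w i'
  same : ∀ z ∈ S.X, z ≠ t → S.Same z i i'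
  na : ¬ ac → S.Same t i i' ∨ (S.B t i = [] ∧ S.B t i' = [])
  acd : ac → S.Top t ∧ S.F4 t ∧ S.Reach t i ∧ S.Reach t i'

def Swap (S : Sys α) (i' : ℤ) (x : α) : Prop :=
  ∃ k, i' < k ∧ k < S.hi ∧ S.w k = x ∧ ∀ j, i' ≤ j → j < k → S.w j = S.w i'

variable {S : Sys α}

theorem Reach.head {t : α} {i : ℤ} (h : S.Reach t i) (ht : S.Top t) (hi : S.Rng i) :
    i < S.hi ∧ S.w i ∈ S.B t i := by
  obtain ⟨hB, p, p1, p2, p3, p4⟩ := h
  obtain ⟨a, b⟩ := (S.run t).next hi.1 hi.2 hB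
  refine ⟨a, ?_⟩
  rcases b with b | b
  · exact (ht.no_two p1 p2 a p3 b p4).elim
  · rw [b.2]; simp

theorem Reach.data {t : α} {i : ℤ} (h : S.Reach t i) (hi : S.Rng i) :
    ∃ p, S.lo ≤ p ∧ p < i ∧ S.w p = t ∧ S.A t p = [] ∧ (∀ m ∈ S.B t i, S.inS t m) ∧
      ∀ k, p < k → k < i → S.inS t (S.w k) := by
  obtain ⟨hB, p, p1, p2, p3, p4⟩ := h
  have := hi.2
  obtain ⟨a, b⟩ := (S.run t).bwd (S.irr t) (by omega) (by omega : p + 1 ≤ i) hi.2
    (Pre.A_nil hi hB) (fun k k1 k2 => Or.inl (p4 k (by omega) k2))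
  obtain ⟨o1, o2⟩ := Pre.own (S := S.toPre) p1 (by omega) p3
  rw [o1] at b
  rw [o2] at a
  refine ⟨p, p1, p2, p3, b, fun m hm => ⟨p, p1, by omega, p3, Or.inr ?_⟩,
    fun k k1 k2 => ⟨p, p1, by omega, p3, Or.inr ?_⟩⟩
  · rw [a]; exact List.mem_append_right _ hm
  · rw [a]
    refine List.mem_append_left _ (mem_dl.mpr ⟨mem_seg.mpr ⟨k, by omega, k2, rfl⟩, ?_⟩)
    intro e
    have := p4 k k1 k2
    rw [e] at this; exact S.irr _ this

namespace Fork

variable {i i' : ℤ} {t : α} {ac : Prop} (h : S.Fork i i' t ac)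
include h

theorem symm : S.Fork i' i t ac where
  ri := h.ri'
  ri' := h.ri
  ne := by
    rcases h.ne with a | a | a
    · exact Or.inr (Or.inl a)
    · exact Or.inl a
    · exact Or.inr (Or.inr a.symm)
  same := fun z a b => (h.same z a b).symm
  na := fun a => by
    rcases h.na a with b | b
    · exact Or.inl b.symm
    · exact Or.inr b.symm
  acd := fun a => ⟨(h.acd a).1, (h.acd a).2.1, (h.acd a).2.2.2, (h.acd a).2.2.1⟩

theorem eqv : S.Eqv i i' := F1 h.ri h.ri' t h.same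

theorem acx (a : ac) : S.w i ∈ S.B t i := ((h.acd a).2.2.1.head (h.acd a).1 h.ri).2

theorem acy (a : ac) : S.w i' ∈ S.B t i := h.eqv.symm.memB (h.acd a).1.1 (h.symm.acx a)

theorem acS (a : ac) {m : α} (hm : m ∈ S.B t i) : S.inS t m := by
  obtain ⟨_, _, _, _, _, b, _⟩ := (h.acd a).2.2.1.data h.ri
  exact b m hm

theorem quiet {z : α} (hz : z ∈ S.X) (hn : ¬ (ac ∧ z = t)) (hB : S.B z i ≠ []) :
    S.Same z i i' ∧ i < S.hi ∧ i' < S.hi ∧ S.w i ≠ S.w i' ∧ (S.w i = z ∨ S.w i' = z) := by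
  have hs : S.Same z i i' := by
    by_cases e : z = t
    · subst e
      rcases h.na (fun a => hn ⟨a, rfl⟩) with b | b
      · exact b
      · exact absurd b.1 hB
    · exact h.same z hz e
  obtain ⟨a1, a2⟩ := (S.run z).next h.ri.1 h.ri.2 hB
  obtain ⟨b1, b2⟩ := (S.run z).next h.ri'.1 h.ri'.2 (hs.2 ▸ hB)
  have hne : S.w i ≠ S.w i' := by
    rcases h.ne with a | a | a
    · omega
    · omega
    · exact a
  refine ⟨hs, a1, b1, hne, ?_⟩
  rcases a2 with a | a
  · exact Or.inl a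
  rcases b2 with b | b
  · exact Or.inr b
  exfalso
  have := hs.2
  rw [a.2, b.2] at this
  exact hne (List.cons.inj this).1

section LI

variable {x : α} (hx : x ∈ S.X) (hw : S.w i = x) (hB : S.B x i ≠ [])
include hx hw hB

theorem xq : S.Same x i i' ∧ i < S.hi ∧ i' < S.hi ∧ S.w i' ≠ x ∧ S.w i' ∈ S.B x i := by
  have hn : ¬ (ac ∧ x = t) := by
    rintro ⟨a, e⟩
    have := Pre.memB h.ri (h.acx a)
    rw [hw, e] at this; exact S.irr _ this
  obtain ⟨a, b, c, d, _⟩ := h.quiet hx hn hB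
  rw [hw] at d
  refine ⟨a, b, c, d.symm, ?_⟩
  rcases ((S.run x).next h.ri'.1 h.ri'.2 (a.2 ▸ hB)).2 with e | e
  · exact absurd e d.symm
  · rw [a.2, e.2]; simp

theorem core {z : α} (hT : S.T x z) (hz : S.B z i = []) :
    (∀ m ∈ S.B x i, S.M z m ∨ m = z) ∨
      ∃ k, i' ≤ k ∧ k < S.hi ∧ S.w k = x ∧ ∀ j, i' ≤ j → j < k → S.w j = z := by
  obtain ⟨hs, hi1, hi2, hy, _⟩ := h.xq hx hw hB
  have hz' : S.B z i' = [] := h.eqv.nilB hT.1 hz
  have hlen : (S.A z i).length = (S.A z i').length := (h.eqv.perm hT.1).1.length_eq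
  by_contra hh
  rw [not_or] at hh
  obtain ⟨h1, hFX⟩ := hh
  obtain ⟨m, hm, hm'⟩ : ∃ m ∈ S.B x i, ¬ (S.M z m ∨ m = z) := by
    by_contra c; apply h1; intro m hm; by_contra d; exact c ⟨m, hm, d⟩
  have first : ∀ {a : ℤ}, S.Rng a → m ∈ S.B x a → ∃ k, a ≤ k ∧ k < S.hi ∧ S.w k ≠ x ∧
      ¬ (S.M z (S.w k) ∨ S.w k = z) ∧
      (∀ j, a ≤ j → j < k → S.w j = x ∨ S.M z (S.w j) ∨ S.w j = z) ∧
      ∃ r, S.B x a = dl x (seg S.w a k) ++ S.w k :: r := by
    intro a ha hma
    obtain ⟨k0, k1, k2, k3, _⟩ := (S.run x).span (S.irr x) ha.1 ha.2 (List.ne_nil_of_mem hma)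
    rw [k3, mem_dl] at hma
    obtain ⟨j, j1, j2, j3⟩ := mem_seg.mp hma.1
    obtain ⟨k, b1, b2, b3, b4⟩ := least
      (P := fun k => S.w k ≠ x ∧ ¬ (S.M z (S.w k) ∨ S.w k = z)) j1 (by rw [j3]; exact ⟨hma.2, hm'⟩)
    refine ⟨k, b1, by omega, b3.1, b3.2, fun j' c1 c2 => ?_, dl x (seg S.w (k + 1) k0), ?_⟩
    · have := b4 j' c1 c2
      by_cases d : S.w j' = x
      · exact Or.inl d
      · right; by_contra d2; exact this ⟨d, d2⟩
    · rw [k3, seg_split S.w b1 (by omega : k < k0), dl_append, dl_cons_ne b3.1]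
  obtain ⟨k, k1, k2, k3, k4, k5, r1, k6⟩ := first h.ri hm
  obtain ⟨n, n1, n2, n3, n4, n5, r2, n6⟩ := first h.ri' (hs.2 ▸ hm)
  have hin : ∀ {a k : ℤ}, (∀ j, a ≤ j → j < k → S.w j = x ∨ S.M z (S.w j) ∨ S.w j = z) →
      ∀ c ∈ dl x (seg S.w a k), S.M z c ∨ c = z := by
    intro a k g c hc
    rw [mem_dl] at hc
    obtain ⟨j, j1, j2, j3⟩ := mem_seg.mp hc.1
    have := g j j1 j2
    rw [j3] at this
    exact this.resolve_left hc.2
  obtain ⟨ec, es⟩ := uniq_first (P := fun c => S.M z c ∨ c = z)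
    (k6.symm.trans (hs.2.trans n6)) k4 n4 (hin k5) (hin n5)
  have hik : i < k := by
    rcases lt_or_eq_of_le k1 with a | a
    · exact a
    · rw [← a] at k3; exact absurd hw k3
  have lo1 := h.ri.1
  have lo2 := h.ri'.1
  rw [not_or] at k4 n4
  obtain ⟨mk, mk2, _⟩ := Pre.mark (S := S.toPre) (by omega) k2 rfl k4.1 k4.2
  obtain ⟨mn, _⟩ := Pre.mark (S := S.toPre) (by omega) n2 rfl n4.1 n4.2
  by_cases hzx : S.M z x
  · have a1 := ((S.run z).fwd (S.irr z) lo1 k1 k2.le hz (fun j j1 j2 => by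
      rcases k5 j j1 j2 with d | d
      · rw [d]; exact Or.inl hzx
      · exact d)).1
    have a2 := ((S.run z).fwd (S.irr z) lo2 n1 n2.le hz' (fun j j1 j2 => by
      rcases n5 j j1 j2 with d | d
      · rw [d]; exact Or.inl hzx
      · exact d)).1
    rw [mk, ec, ← mn, a2] at a1
    have a3 := (List.append_inj a1 hlen.symm).2
    rw [seg_cons S.w hik, hw, dl_cons_ne hT.2.1.symm] at a3
    obtain ⟨q, q1, q2, q3, q4⟩ := dl_seg_cons a3
    exact hFX ⟨q, q1, by omega, q3, q4⟩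
  · have mx := (Pre.mark (S := S.toPre) lo1 hi1 hw hzx hT.2.1.symm).1
    by_cases hocc : ∃ j, i' ≤ j ∧ j < n ∧ S.w j = x
    · obtain ⟨j, j1, j2, j3⟩ := hocc
      obtain ⟨q, q1, q2, q3, q4⟩ := least (P := fun q => S.w q = x) j1 j3
      have a2 := ((S.run z).fwd (S.irr z) lo2 q1 (by omega) hz' (fun j' c1 c2 =>
        (n5 j' c1 (by omega)).resolve_left (q4 j' c1 c2))).1
      rw [(Pre.mark (S := S.toPre) (by omega) (by omega) q3 hzx hT.2.1.symm).1, ← mx] at a2
      have a3 := congrArg List.length a2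
      rw [List.length_append] at a3
      have a4 : dl z (seg S.w i' q) = [] := List.length_eq_zero_iff.mp (by omega)
      exact hFX ⟨q, q1, by omega, q3, dl_seg_nil a4⟩
    · have hnx : x ∉ seg S.w i' n := by
        intro d
        obtain ⟨j, j1, j2, j3⟩ := mem_seg.mp d
        exact hocc ⟨j, j1, j2, j3⟩
      rw [dl_eq_self hnx] at es
      have a2 := ((S.run z).fwd (S.irr z) lo2 n1 n2.le hz' (fun j' c1 c2 =>
        (n5 j' c1 c2).resolve_left (fun d => hocc ⟨j', c1, c2, d⟩))).1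
      obtain ⟨q, q1, q2, q3, q4⟩ := greatest (P := fun q => S.w q = x) (by omega : i ≤ k - 1) hw
      have a5 := (S.run z).len (S.irr z) (by omega) (by omega : q + 1 ≤ k) k2.le
        (fun j' c1 c2 => (k5 j' (by omega) c2).resolve_left (q4 j' (by omega) (by omega)))
      obtain ⟨_, _, m3, m4⟩ := Pre.mark (S := S.toPre) (by omega) (by omega) q3 hzx hT.2.1.symm
      rw [m3, m4, mk, mk2, ec, ← mn, a2, ← es,
        seg_append S.w (by omega : i ≤ q + 1) (by omega : q + 1 ≤ k), dl_append, dl_append,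
        dl_eq_self (z := x) (l := seg S.w (q + 1) k)] at a5
      · simp only [List.length_append, List.length_nil] at a5
        rw [mx] at hlen
        rcases hT.2.2 with d | d | d
        · exact hzx d
        · have := List.length_pos_iff.mpr d; omega
        · have := List.length_pos_iff.mpr d; omega
      · intro d
        obtain ⟨j, j1, j2, j3⟩ := mem_seg.mp d
        exact q4 j (by omega) (by omega) j3

theorem b1 (hy : S.w i' ∈ S.X) (hyB : S.B (S.w i') i ≠ []) : S.Swap i' x := by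
  obtain ⟨_, hi1, hi2, hyx, _⟩ := h.xq hx hw hB
  have hn : ¬ (ac ∧ S.w i' = t) := by
    rintro ⟨a, e⟩
    have := Pre.memB h.ri (h.acy a)
    rw [e] at this; exact S.irr _ this
  obtain ⟨hs, _⟩ := h.quiet hy hn hyB
  rcases ((S.run (S.w i')).next h.ri.1 h.ri.2 hyB).2 with e | e
  · exact absurd (e.symm.trans hw) hyx
  obtain ⟨k0, k1, k2, k3, _⟩ := (S.run (S.w i')).span (S.irr _) h.ri'.1 h.ri'.2 (hs.2 ▸ hyB)
  rw [← hs.2, e.2, hw] at k3
  obtain ⟨q, q1, q2, q3, q4⟩ := dl_seg_cons k3.symm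
  refine ⟨q, ?_, by omega, q3, q4⟩
  rcases lt_or_eq_of_le q1 with a | a
  · exact a
  · rw [← a] at q3; exact absurd q3 hyx

theorem zm {z : α} (hz : z ∈ S.X) (hzB : S.B z i ≠ []) :
    z = x ∨ (S.Swap i' x ∧ z = S.w i') ∨ (ac ∧ z = t) := by
  by_cases hn : ac ∧ z = t
  · exact Or.inr (Or.inr hn)
  rcases (h.quiet hz hn hzB).2.2.2.2 with e | e
  · exact Or.inl (e.symm.trans hw)
  · subst e
    exact Or.inr (Or.inl ⟨h.b1 hx hw hB hz hzB, rfl⟩)

theorem ab {z : α} (hT : S.T x z) (h1 : ¬ (S.Swap i' x ∧ z = S.w i')) (h2 : ¬ (ac ∧ z = t)) :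
    S.B z i = [] ∧ ∀ m ∈ S.B x i, S.M z m ∨ m = z := by
  have hz : S.B z i = [] := by
    by_contra a
    rcases h.zm hx hw hB hT.1 a with b | b | b
    · exact hT.2.1 b
    · exact h1 b
    · exact h2 b
  refine ⟨hz, ?_⟩
  rcases h.core hx hw hB hT hz with a | ⟨k, k1, k2, k3, k4⟩
  · exact a
  · exfalso
    obtain ⟨_, _, _, hyx, _⟩ := h.xq hx hw hB
    have hlt : i' < k := by
      rcases lt_or_eq_of_le k1 with a | a
      · exact a
      · rw [← a] at k3; exact absurd k3 hyx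
    have e := k4 i' le_rfl hlt
    exact h1 ⟨⟨k, hlt, k2, k3, fun j j1 j2 => (k4 j j1 j2).trans e.symm⟩, e.symm⟩

theorem a' {z : α} (hs : S.Swap i' x) (hT : S.T x z) (h1 : z ≠ S.w i') (h2 : ¬ (ac ∧ z = t)) :
    S.M z x := by
  by_contra hzx
  obtain ⟨hz, hβ⟩ := h.ab hx hw hB hT (fun a => h1 a.2) h2
  obtain ⟨_, hi1, hi2, hyx, hy⟩ := h.xq hx hw hB
  have hmy : S.M z (S.w i') := (hβ _ hy).resolve_right h1.symm
  obtain ⟨k, k1, k2, k3, k4⟩ := hs
  have hz' : S.B z i' = [] := h.eqv.nilB hT.1 hz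
  have hlen : (S.A z i).length = (S.A z i').length := (h.eqv.perm hT.1).1.length_eq
  have lo2 := h.ri'.1
  have a2 := ((S.run z).fwd (S.irr z) lo2 k1.le k2.le hz' (fun j c1 c2 => by
    rw [k4 j c1 c2]; exact Or.inl hmy)).1
  rw [(Pre.mark (S := S.toPre) (by omega) k2 k3 hzx hT.2.1.symm).1,
    ← (Pre.mark (S := S.toPre) h.ri.1 hi1 hw hzx hT.2.1.symm).1] at a2
  have a3 := congrArg List.length a2
  rw [List.length_append] at a3
  have a4 : dl z (seg S.w i' k) = [] := List.length_eq_zero_iff.mp (by omega)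
  exact h1 (dl_seg_nil a4 i' le_rfl k1).symm

theorem c {z : α} (hs : S.Swap i' x) (hT : S.T (S.w i') z) : S.T x z ∨ z = x := by
  by_contra hh
  rw [not_or] at hh
  obtain ⟨_, hi1, hi2, hyx, hy⟩ := h.xq hx hw hB
  obtain ⟨k, k1, k2, k3, k4⟩ := hs
  have lo2 := h.ri'.1
  obtain ⟨a1, a2, _⟩ := notT h.ri.1 hi1 hw hT.1 hh.2 hh.1
  obtain ⟨b1, b2, _⟩ := notT (by omega) k2 k3 hT.1 hh.2 hh.1
  have a1' := h.eqv.nilA hT.1 a1
  have a2' := h.eqv.nilB hT.1 a2
  by_cases hm : S.M z (S.w i')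
  · have a3 := ((S.run z).fwd (S.irr z) lo2 k1.le k2.le a2' (fun j c1 c2 => by
      rw [k4 j c1 c2]; exact Or.inl hm)).1
    rw [b1, a1', List.nil_append] at a3
    exact hT.2.1 (dl_seg_nil a3.symm i' le_rfl k1).symm
  · have c1 := (Pre.mark (S := S.toPre) lo2 hi2 rfl hm hT.2.1.symm).1
    have c2 := (Pre.mark (S := S.toPre) (p := k - 1) (by omega) (by omega)
      (k4 (k - 1) (by omega) (by omega)) hm hT.2.1.symm).2.2.2
    rw [sub_add_cancel, b2] at c2
    rw [a1'] at c1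
    rcases hT.2.2 with d | d | d
    · exact hm d
    · exact d c1.symm
    · exact d c2.symm

theorem ftop (ht : S.Top x) : ¬ S.Swap i' x ∧ ¬ ac ∧ S.F4 x := by
  obtain ⟨hs, hi1, hi2, hyx, hy⟩ := h.xq hx hw hB
  have h1 : ¬ ac := by
    intro a
    have := Pre.memB h.ri (h.acx a)
    rw [hw] at this
    exact ht.2 ⟨t, (h.acd a).1.1, this⟩
  have h2 : ¬ S.Swap i' x := by
    rintro ⟨k, k1, k2, k3, k4⟩
    have lo2 := h.ri'.1
    have e := tails_eqv ht.2 h.ri.1 hi1 (by omega) k2 hw k3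
    have hA : S.A x k = [] := e.nilA hx (Pre.A_nil h.ri hB)
    have a2 := ((S.run x).bwd (S.irr x) lo2 k1.le k2.le hA (fun j c1 c2 => by
      rw [k4 j c1 c2]; exact Or.inl (Pre.memB h.ri hy))).1
    have l := (e.perm hx).2.length_eq
    rw [hs.2, a2, List.length_append] at l
    have a4 : dl x (seg S.w i' k) = [] := List.length_eq_zero_iff.mp (by omega)
    exact hyx (dl_seg_nil a4 i' le_rfl k1)
  refine ⟨h2, h1, fun z hT m hm => ?_⟩
  refine (h.ab hx hw hB hT (fun a => h2 a.1) (fun a => h1 a.1)).2 m ?_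
  rcases ht.inS_tail h.ri.1 hi1 hw hm with a | a
  · rw [Pre.A_nil h.ri hB] at a; cases a
  · exact a

end LI

end Fork

end Sys

end Pool.Agent.Work.MP_c026f4_lc.H12
end

-- merged part: Pool.Agent.Work.MP_c026f4_lc.H12LL
section
set_option autoImplicit false

namespace Pool.Agent.Work.MP_c026f4_lc.H12

variable {α : Type} [LinearOrder α] [Fintype α]

namespace Sys

variable {S : Sys α}

theorem GU (U Q : Finset α) (n : ℕ) (p : Fin n → ℤ) (hn : 0 < U.card + n)
    (hQ : Q.card ≤ U.card + n) (hT : ∀ c ∈ U, ∀ z, S.T c z → z ∈ Q)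
    (hp : ∀ r, S.Rng (p r) ∧ ∀ z, S.Z (p r) z → z ∈ Q) :
    ∃ (a : α → ℚ) (b : Fin n → ℚ), (∀ c, c ∉ U → a c = 0) ∧ ¬ (a = 0 ∧ b = 0) ∧
      ∀ h, S.V h → ∑ c, a c * h c + ∑ r, b r * S.f h (p r) = 0 := by
  choose o o1 o2 o3 using S.occ
  have hcard : Fintype.card ({c // c ∈ U} ⊕ Fin n) = U.card + n := by simp
  have : Nonempty ({c // c ∈ U} ⊕ Fin n) := Fintype.card_pos_iff.mp (by rw [hcard]; exact hn)
  obtain ⟨a, ha, hs⟩ := S.G ({c // c ∈ U} ⊕ Fin n)
    (Sum.elim (fun c => o c.1 + 1) p) (Sum.elim (fun c => o c.1) (fun _ => S.lo)) Q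
    (by rw [hcard]; exact hQ) (by
      rintro (c | r)
      · have := o1 c.1
        have := o2 c.1
        refine ⟨⟨by simp only [Sum.elim_inl]; omega, by simp only [Sum.elim_inl]; omega⟩,
          ⟨o1 _, (o2 _).le⟩, fun z hz hq => ?_⟩
        exact notT_same (o1 _) (o2 _) (o3 _) hz (fun d => hq (hT c.1 c.2 z d))
      · exact ⟨(hp r).1, Pre.rlo, fun z hz hq => same_lo hz (fun d => hq ((hp r).2 z d))⟩)
  refine ⟨fun c => if hc : c ∈ U then a (Sum.inl ⟨c, hc⟩) else 0, fun r => a (Sum.inr r),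
    fun c hc => by simp [hc], ?_, fun h hh => ?_⟩
  · rintro ⟨h1, h2⟩
    apply ha
    funext r
    rcases r with c | r
    · have := congrFun h1 c.1
      simpa [c.2] using this
    · exact congrFun h2 r
  · refine Eq.trans ?_ (hs h hh)
    rw [Fintype.sum_sum_type]
    congr 1
    · rw [← Finset.sum_subset (Finset.subset_univ U) (fun c _ hc => by simp [hc]),
        ← Finset.sum_coe_sort]
      apply Finset.sum_congr rfl
      intro c _
      simp only [c.2, dif_pos, Sum.elim_inl]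
      rw [Pre.f_succ _ (o1 _), o3]
      ring
    · apply Finset.sum_congr rfl
      intro r _
      simp [Pre.f_lo]

omit [LinearOrder α] in
theorem sum_supp {U : Finset α} {a : α → ℚ} (ha : ∀ c, c ∉ U → a c = 0) (h : α → ℚ) :
    ∑ c, a c * h c = ∑ c ∈ U, a c * h c :=
  (Finset.sum_subset (Finset.subset_univ U) (fun c _ hc => by simp [ha c hc])).symm

omit [Fintype α] in
theorem zero_of_T {c z : α} (hT : S.T c z) {a : ℚ} (h : ∀ g, S.V g → a * g c = 0) : a = 0 := by
  obtain ⟨m, hm⟩ := hT.dv_ne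
  exact (mul_eq_zero.mp (h _ (dvV hT.1 m))).resolve_right hm

theorem Fork.LLx {i i' : ℤ} {t : α} {ac : Prop} (h : S.Fork i i' t ac) {x c : α} (hx : x ∈ S.X)
    (hw : S.w i = x) (hc : c ∈ S.B x i) (hall : ∀ z ∈ S.X, S.M z c → c ∈ S.B z i) : False := by
  have hB : S.B x i ≠ [] := List.ne_nil_of_mem hc
  obtain ⟨_, hi1, hi2, hyx, hy⟩ := h.xq hx hw hB
  have mxy := Pre.memB h.ri hy
  have mxc := Pre.memB h.ri hc
  set y := S.w i' with hy'
  have TX : ∀ z, S.T x z → z = c ∨ (S.Swap i' x ∧ z = y) ∨ (ac ∧ z = t) := by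
    intro z hT
    by_cases h1 : S.Swap i' x ∧ z = y
    · exact Or.inr (Or.inl h1)
    by_cases h2 : ac ∧ z = t
    · exact Or.inr (Or.inr h2)
    obtain ⟨a, b⟩ := h.ab hx hw hB hT h1 h2
    rcases b c hc with d | d
    · have := hall z hT.1 d
      rw [a] at this; cases this
    · exact Or.inl d.symm
  have ZX : ∀ z, S.Z i z → S.T x z ∨ z = x := fun z hz => Z_tail h.ri.1 hi1 hw hz
  obtain ⟨z0, hz0⟩ : ∃ z, S.T x z := by
    obtain ⟨z, a, b⟩ := factA h.ri (z := x) ⟨hx, Or.inr hB⟩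
    exact ⟨z, (ZX z b).resolve_right a⟩
  have Tt : ac → ∀ z, S.T t z → S.T x z ∨ z = x := by
    intro a z hT
    have := h.acS a (h.acx a)
    rw [hw] at this
    rcases (h.acd a).2.1 z hT x this with d | d
    · exact Or.inl (T_of_M hT.1 d)
    · exact Or.inr d.symm
  have three : S.Swap i' x → ac → (∀ z, S.T x z → z = y ∨ z = t) → False := by
    intro sw a hT
    have ht := (h.acd a).1
    have mtx : S.M t x := hw ▸ Pre.memB h.ri (h.acx a)
    have mty : S.M t y := Pre.memB h.ri (h.acy a)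
    have hxt : x ≠ t := fun e => S.irr t (e ▸ mtx)
    have hyt : y ≠ t := fun e => S.irr t (e ▸ mty)
    have hq : ∀ z, S.T x z ∨ z = x → z ∈ ({x, y, t} : Finset α) := by
      rintro z (d | d)
      · rcases hT z d with e | e <;> simp [e]
      · simp [d]
    obtain ⟨A, b, h1, h2, h3⟩ := GU (S := S) {x, y, t} {x, y, t} 0 ![]
      (by rw [Finset.card_eq_three.mpr ⟨x, y, t, hyx.symm, hxt, hyt, rfl⟩]; omega) (by omega)
      (by
        intro e he z hz
        simp only [Finset.mem_insert, Finset.mem_singleton] at he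
        rcases he with rfl | rfl | rfl
        · exact hq z (Or.inl hz)
        · exact hq z (h.c hx hw hB sw hz)
        · exact hq z (Tt a z hz)) (fun r => r.elim0)
    have h4 : ∀ g, S.V g → A x * g x + A y * g y + A t * g t = 0 := by
      intro g hg
      have := h3 g hg
      rw [sum_supp h1, Finset.sum_insert (by simp [hyx.symm, hxt]),
        Finset.sum_pair hyt] at this
      simpa [add_assoc] using this
    have a1 := h4 _ (dvV ht.1 x)
    rw [Pre.dv_one mtx, Pre.dv_mortal mty hyx, Pre.dv_self] at a1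
    have a2 := h4 _ (dvV ht.1 y)
    rw [Pre.dv_one mty, Pre.dv_mortal mtx hyx.symm, Pre.dv_self] at a2
    have a1' : A x = 0 := by linarith
    have a2' : A y = 0 := by linarith
    obtain ⟨z, hz⟩ := ht.exT
    have a3 : A t = 0 := zero_of_T hz (fun g hg => by simpa [a1', a2'] using h4 g hg)
    apply h2
    refine ⟨funext fun e => ?_, funext fun r => r.elim0⟩
    by_cases he : e ∈ ({x, y, t} : Finset α)
    · simp only [Finset.mem_insert, Finset.mem_singleton] at he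
      rcases he with rfl | rfl | rfl <;> assumption
    · exact h1 e he
  by_cases sw : S.Swap i' x <;> by_cases a : ac
  · -- swap and active
    have ht := (h.acd a).1
    have bx : x ∈ S.B t i := hw ▸ h.acx a
    have by' : y ∈ S.B t i := h.acy a
    have mtx : S.M t x := Pre.memB h.ri bx
    have mty : S.M t y := Pre.memB h.ri by'
    have hxt : x ≠ t := fun e => S.irr t (e ▸ mtx)
    have hyt : y ≠ t := fun e => S.irr t (e ▸ mty)
    have hct : c ≠ t := fun e => ht.2 ⟨x, hx, e ▸ mxc⟩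
    have hcT : S.T x c := by
      by_contra d
      refine three sw a (fun z hz => ?_)
      rcases TX z hz with e | e | e
      · exact absurd (e ▸ hz) d
      · exact Or.inl e.2
      · exact Or.inr e.2
    have hcy : c ≠ y := by
      intro d
      refine three sw a (fun z hz => ?_)
      rcases TX z hz with e | e | e
      · exact Or.inl (e.trans d)
      · exact Or.inl e.2
      · exact Or.inr e.2
    have mcx : S.M c x := h.a' hx hw hB sw hcT hcy (fun d => hct d.2)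
    obtain ⟨bc, hβ⟩ := h.ab hx hw hB hcT (fun d => hcy d.2) (fun d => hct d.2)
    have mcy : S.M c y := (hβ y hy).resolve_right hcy.symm
    have hq : ∀ z, S.T x z ∨ z = x → z ∈ ({x, y, t, c} : Finset α) := by
      rintro z (d | d)
      · rcases TX z d with e | e | e
        · simp [e]
        · simp [e.2]
        · simp [e.2]
      · simp [d]
    obtain ⟨A, b, h1, h2, h3⟩ := GU (S := S) {x, y, t} {x, y, t, c} 1 ![i] (by omega)
      (by
        rw [Finset.card_eq_three.mpr ⟨x, y, t, hyx.symm, hxt, hyt, rfl⟩]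
        exact Finset.card_le_four)
      (by
        intro e he z hz
        simp only [Finset.mem_insert, Finset.mem_singleton] at he
        rcases he with rfl | rfl | rfl
        · exact hq z (Or.inl hz)
        · exact hq z (h.c hx hw hB sw hz)
        · exact hq z (Tt a z hz))
      (fun r => by
        have : (![i] : Fin 1 → ℤ) r = i := by fin_cases r; rfl
        rw [this]; exact ⟨h.ri, fun z hz => hq z (ZX z hz)⟩)
    have h4 : ∀ g, S.V g → A x * g x + A y * g y + A t * g t + b 0 * S.f g i = 0 := by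
      intro g hg
      have := h3 g hg
      rw [sum_supp h1, Finset.sum_insert (by simp [hyx.symm, hxt]),
        Finset.sum_pair hyt] at this
      simpa [add_assoc] using this
    have a1 := h4 _ (dvV ht.1 x)
    rw [Pre.dv_one mtx, Pre.dv_mortal mty hyx, Pre.dv_self] at a1
    have a2 := h4 _ (dvV ht.1 y)
    rw [Pre.dv_one mty, Pre.dv_mortal mtx hyx.symm, Pre.dv_self] at a2
    have a3 := h4 _ (dvV hx c)
    rw [Pre.dv_self, Pre.dv_mortal mxy hcy.symm] at a3
    have a4 := h4 _ (dvV hcT.1 x)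
    rw [Pre.dv_one mcx, Pre.dv_mortal mcy hyx] at a4
    have n1 := Pre.dv_neg h.ri bx
    have n3 := Pre.dv_neg h.ri hc
    have n3' : S.dv x c t ≤ 0 := Pre.dv_nonpos hct.symm
    have n4 : 0 ≤ S.f (S.dv c x) i := Pre.dv_nonneg_of h.ri (by rw [bc]; simp)
    have n4' : S.dv c x t ≤ 0 := Pre.dv_nonpos hxt.symm
    have hb0 : b 0 = 0 := by
      rcases lt_trichotomy (b 0) 0 with d | d | d
      · exfalso
        have e1 : A x < 0 := by nlinarith
        have e2 : 0 < A t := by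
          by_contra e; nlinarith
        nlinarith
      · exact d
      · exfalso
        have e1 : 0 < A x := by nlinarith
        have e2 : A t < 0 := by
          by_contra e; nlinarith
        nlinarith
    rw [hb0] at a1 a2
    have a1' : A x = 0 := by linarith
    have a2' : A y = 0 := by linarith
    obtain ⟨z, hz⟩ := ht.exT
    have a3 : A t = 0 := zero_of_T hz (fun g hg => by simpa [a1', a2', hb0] using h4 g hg)
    apply h2
    refine ⟨funext fun e => ?_, funext fun r => by fin_cases r; exact hb0⟩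
    by_cases he : e ∈ ({x, y, t} : Finset α)
    · simp only [Finset.mem_insert, Finset.mem_singleton] at he
      rcases he with rfl | rfl | rfl <;> assumption
    · exact h1 e he
  · -- swap, not active
    have hcy : c ≠ y := by
      intro d
      obtain ⟨z1, e1, e2⟩ := F2 hz0
      have : ∀ z, S.T x z → z = y := fun z hz => by
        rcases TX z hz with e | e | e
        · exact e.trans d
        · exact e.2
        · exact absurd e.1 a
      exact e1 ((this _ e2).trans (this _ hz0).symm)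
    have hq : ∀ z, S.T x z ∨ z = x → z ∈ ({x, y, c} : Finset α) := by
      rintro z (d | d)
      · rcases TX z d with e | e | e
        · simp [e]
        · simp [e.2]
        · exact absurd e.1 a
      · simp [d]
    obtain ⟨A, b, h1, h2, h3⟩ := GU (S := S) {x, y} {x, y, c} 1 ![i] (by omega)
      (by rw [Finset.card_pair hyx.symm]; exact Finset.card_le_three)
      (by
        intro e he z hz
        simp only [Finset.mem_insert, Finset.mem_singleton] at he
        rcases he with rfl | rfl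
        · exact hq z (Or.inl hz)
        · exact hq z (h.c hx hw hB sw hz))
      (fun r => by
        have : (![i] : Fin 1 → ℤ) r = i := by fin_cases r; rfl
        rw [this]; exact ⟨h.ri, fun z hz => hq z (ZX z hz)⟩)
    have h4 : ∀ g, S.V g → A x * g x + A y * g y + b 0 * S.f g i = 0 := by
      intro g hg
      have := h3 g hg
      rw [sum_supp h1, Finset.sum_pair hyx.symm] at this
      simpa [add_assoc] using this
    have a3 := h4 _ (dvV hx c)
    rw [Pre.dv_self, Pre.dv_mortal mxy hcy.symm] at a3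
    have n3 := Pre.dv_neg h.ri hc
    have hb0 : b 0 = 0 := by
      have : b 0 * S.f (S.dv x c) i = 0 := by linarith
      exact (mul_eq_zero.mp this).resolve_right n3.ne
    have a2 := h4 _ (dvV hx y)
    rw [Pre.dv_self, Pre.dv_one mxy, hb0] at a2
    have a2' : A y = 0 := by linarith
    have a1 : A x = 0 := zero_of_T hz0 (fun g hg => by simpa [a2', hb0] using h4 g hg)
    apply h2
    refine ⟨funext fun e => ?_, funext fun r => by fin_cases r; exact hb0⟩
    by_cases he : e ∈ ({x, y} : Finset α)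
    · simp only [Finset.mem_insert, Finset.mem_singleton] at he
      rcases he with rfl | rfl <;> assumption
    · exact h1 e he
  · -- skip, active
    have ht := (h.acd a).1
    have bx : x ∈ S.B t i := hw ▸ h.acx a
    have by' : y ∈ S.B t i := h.acy a
    have mtx : S.M t x := Pre.memB h.ri bx
    have hxt : x ≠ t := fun e => S.irr t (e ▸ mtx)
    have hq : ∀ z, S.T x z ∨ z = x → z ∈ ({x, t, c} : Finset α) := by
      rintro z (d | d)
      · rcases TX z d with e | e | e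
        · simp [e]
        · exact absurd e.1 sw
        · simp [e.2]
      · simp [d]
    obtain ⟨A, b, h1, h2, h3⟩ := GU (S := S) {x, t} {x, t, c} 1 ![i] (by omega)
      (by rw [Finset.card_pair hxt]; exact Finset.card_le_three)
      (by
        intro e he z hz
        simp only [Finset.mem_insert, Finset.mem_singleton] at he
        rcases he with rfl | rfl
        · exact hq z (Or.inl hz)
        · exact hq z (Tt a z hz))
      (fun r => by
        have : (![i] : Fin 1 → ℤ) r = i := by fin_cases r; rfl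
        rw [this]; exact ⟨h.ri, fun z hz => hq z (ZX z hz)⟩)
    have h4 : ∀ g, S.V g → A x * g x + A t * g t + b 0 * S.f g i = 0 := by
      intro g hg
      have := h3 g hg
      rw [sum_supp h1, Finset.sum_pair hxt] at this
      simpa [add_assoc] using this
    have a3 := h4 _ (dvV ht.1 y)
    rw [Pre.dv_self, Pre.dv_mortal mtx hyx.symm] at a3
    have n3 := Pre.dv_neg h.ri by'
    have hb0 : b 0 = 0 := by
      have : b 0 * S.f (S.dv t y) i = 0 := by linarith
      exact (mul_eq_zero.mp this).resolve_right n3.ne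
    have a2 := h4 _ (dvV ht.1 x)
    rw [Pre.dv_self, Pre.dv_one mtx, hb0] at a2
    have a2' : A x = 0 := by linarith
    obtain ⟨z, hz⟩ := ht.exT
    have a1 : A t = 0 := zero_of_T hz (fun g hg => by simpa [a2', hb0] using h4 g hg)
    apply h2
    refine ⟨funext fun e => ?_, funext fun r => by fin_cases r; exact hb0⟩
    by_cases he : e ∈ ({x, t} : Finset α)
    · simp only [Finset.mem_insert, Finset.mem_singleton] at he
      rcases he with rfl | rfl <;> assumption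
    · exact h1 e he
  · obtain ⟨z1, e1, e2⟩ := F2 hz0
    have : ∀ z, S.T x z → z = c := fun z hz => by
      rcases TX z hz with e | e | e
      · exact e
      · exact absurd e.1 sw
      · exact absurd e.1 a
    exact e1 ((this _ e2).trans (this _ hz0).symm)

omit [Fintype α] in
theorem Top.not_sole {t c : α} (ht : S.Top t) (h4 : S.F4 t) (hc : S.inS t c)
    (hall : ∀ z ∈ S.X, S.M z c → z = t) : False := by
  have key : ∀ z, S.T t z → z = c := by
    intro z hz
    rcases h4 z hz c hc with d | d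
    · exact absurd (hall z hz.1 d) hz.2.1
    · exact d.symm
  obtain ⟨z, hz⟩ := ht.exT
  obtain ⟨z1, e1, e2⟩ := F2 hz
  exact e1 ((key _ e2).trans (key _ hz).symm)

theorem Fork.LL {i i' : ℤ} {t : α} {ac : Prop} (h : S.Fork i i' t ac) {c : α} (hc : S.Ms c)
    (hall : ∀ z ∈ S.X, S.M z c → c ∈ S.B z i) : False := by
  by_cases hex : ∃ z ∈ S.X, S.M z c ∧ ¬ (ac ∧ z = t)
  · obtain ⟨z, hz, hm, hn⟩ := hex
    have hcz := hall z hz hm
    rcases (h.quiet hz hn (List.ne_nil_of_mem hcz)).2.2.2.2 with e | e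
    · exact h.LLx hz e hcz hall
    · exact h.symm.LLx hz e (h.eqv.memB hz hcz)
        (fun z' a b => h.eqv.memB a (hall z' a b))
  · have key : ∀ z ∈ S.X, S.M z c → ac ∧ z = t := by
      intro z a b; by_contra d; exact hex ⟨z, a, b, d⟩
    obtain ⟨z, hz, hm⟩ := hc
    obtain ⟨a, e⟩ := key z hz hm
    subst e
    exact (h.acd a).1.not_sole (h.acd a).2.1 (h.acS a (hall z hz hm))
      (fun z' b d => (key z' b d).2)

/-- Gaps equivalent to a fork. -/
def LGen (S : Sys α) (l : ℤ) : Prop :=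
  ∃ (i i' : ℤ) (t : α) (ac : Prop), S.Fork i i' t ac ∧ S.Eqv l i

theorem LGen.LL {l : ℤ} (h : S.LGen l) {c : α} (hc : S.Ms c)
    (hall : ∀ z ∈ S.X, S.M z c → c ∈ S.B z l) : False := by
  obtain ⟨i, i', t, ac, hF, e⟩ := h
  exact hF.LL hc (fun z a b => e.memB a (hall z a b))

omit [Fintype α] in
theorem LGen.rng {l : ℤ} (h : S.LGen l) : S.Rng l := by
  obtain ⟨i, i', t, ac, hF, e⟩ := h
  exact e.1

omit [Fintype α] in
theorem LGen.congr {l l' : ℤ} (h : S.LGen l) (e : S.Eqv l l') : S.LGen l' := by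
  obtain ⟨i, i', t, ac, hF, e'⟩ := h
  exact ⟨i, i', t, ac, hF, e.symm.trans e'⟩

omit [Fintype α] in
theorem LGen.F4 {l : ℤ} (h : S.LGen l) {b : α} (hb : S.Top b) (hB : S.B b l ≠ []) : S.F4 b := by
  obtain ⟨i, i', t, ac, hF, e⟩ := h
  have hB' : S.B b i ≠ [] := fun a => hB (e.symm.nilB hb.1 a)
  by_cases hn : ac ∧ b = t
  · obtain ⟨a, rfl⟩ := hn
    exact (hF.acd a).2.1
  obtain ⟨hs, _, _, _, d | d⟩ := hF.quiet hb.1 hn hB'
  · exact (hF.ftop hb.1 d hB' hb).2.2
  · exact (hF.symm.ftop hb.1 d (hs.2 ▸ hB') hb).2.2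

omit [Fintype α] in
theorem LGen_lo : S.LGen S.lo := by
  obtain ⟨t, _⟩ := S.Xne
  refine ⟨S.hi, S.hi, t, False, ⟨Pre.rhi, Pre.rhi, Or.inl rfl, fun _ _ _ => Pre.Same.refl _ _,
    fun _ => Or.inl (Pre.Same.refl _ _), False.elim⟩, Pre.rlo, Pre.rhi, fun h hh => ?_⟩
  rw [Pre.f_lo, Pre.InV.hi hh]

end Sys

end Pool.Agent.Work.MP_c026f4_lc.H12
end

-- merged part: Pool.Agent.Work.MP_c026f4_lc.H12Conf
section
set_option autoImplicit false

namespace Pool.Agent.Work.MP_c026f4_lc.H12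

variable {α : Type} [LinearOrder α]

theorem exists_min_pos (w : ℤ → α) {l r : ℤ} (h : l < r) :
    ∃ k, l ≤ k ∧ k < r ∧ ∀ j, l ≤ j → j < r → w k ≤ w j := by
  obtain ⟨k, hk, hm⟩ := Finset.exists_min_image (Finset.Ico l r) w ⟨l, by simp [h]⟩
  rw [Finset.mem_Ico] at hk
  exact ⟨k, hk.1, hk.2, fun j a b => hm j (Finset.mem_Ico.mpr ⟨a, b⟩)⟩

namespace Sys

def BB (S : Sys α) (b : α) : Prop := S.Top b ∧ S.NU b ∧ ¬ S.F4 b

def Mp (S : Sys α) (c : α) : Prop := S.Ms c ∨ S.BB c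

variable {S S' : Sys α}

theorem att {z : α} {i p j : ℤ} (h1 : S.lo ≤ i) (hip : i ≤ p) (hpj : p < j) (h2 : j ≤ S.hi)
    (hm : S.M z (S.w p)) (hmin : ∀ k, i ≤ k → k < j → S.w p ≤ S.w k) :
    (S.A z (p + 1) = [] ∧ S.w p ∈ S.B z i ∧ ∀ k, i ≤ k → k ≤ p → S.M z (S.w k) ∨ S.w k = z) ∨
      (S.B z p = [] ∧ S.w p ∈ S.A z j ∧ ∀ k, p ≤ k → k < j → S.M z (S.w k) ∨ S.w k = z) :=
  (S.run z).attach (S.canU z) (S.canV z) h1 hip hpj h2 hm
    (fun k a b _ _ => not_lt.mpr (hmin k a b))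

theorem det_seg {z : α} {i j n : ℤ} (h1 : S.lo ≤ i) (h3 : S.lo ≤ j) (hs : S.Same z i j)
    (hn : 0 ≤ n) (h2 : i + n ≤ S.hi) (h4 : j + n ≤ S.hi)
    (hw : ∀ k, 0 ≤ k → k < n → S.w (i + k) = S.w (j + k)) : S.Same z (i + n) (j + n) :=
  (S.run z).det_seg (S.irr z) h1 h3 hs.1 hs.2 n hn h2 h4 hw

theorem sync {e : α} (he : ¬ S.Mp e) {p p' n : ℤ} (h1 : S.lo ≤ p) (h3 : S.lo ≤ p')
    (hp : S.w p = e) (hp' : S.w p' = e) (hn : 0 ≤ n) (h2 : p + 1 + n ≤ S.hi)
    (h4 : p' + 1 + n ≤ S.hi)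
    (hw : ∀ k, 0 ≤ k → k < n → S.w (p + 1 + k) = S.w (p' + 1 + k) ∧ S.Mp (S.w (p + 1 + k))) :
    S.Eqv (p + 1 + n) (p' + 1 + n) ∧
      ((p + 1 + n = S.hi ∨ p' + 1 + n = S.hi ∨ S.w (p + 1 + n) ≠ S.w (p' + 1 + n)) →
        S.LGen (p + 1 + n)) := by
  have hms : ¬ S.Ms e := fun a => he (Or.inl a)
  have r1 : S.Rng (p + 1 + n) := ⟨by omega, h2⟩
  have r2 : S.Rng (p' + 1 + n) := ⟨by omega, h4⟩
  have hsame : ∀ z ∈ S.X, z ≠ e → S.Same z (p + 1 + n) (p' + 1 + n) := fun z hz hne =>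
    det_seg (by omega) (by omega)
      (tails hms h1 (by omega) h3 (by omega) hp hp' hz hne).2 hn h2 h4 (fun k a b => (hw k a b).1)
  have eq := F1 r1 r2 e hsame
  refine ⟨eq, fun hd => ?_⟩
  by_cases hall : ∀ z ∈ S.X, S.Same z (p + 1 + n) (p' + 1 + n)
  · obtain ⟨t, ht⟩ := S.Xne
    exact ⟨_, _, t, False, ⟨r1, r2, hd, fun z a _ => hall z a, fun _ => Or.inl (hall t ht),
      False.elim⟩, Eqv.refl r1⟩
  obtain ⟨heX, hns⟩ : e ∈ S.X ∧ ¬ S.Same e (p + 1 + n) (p' + 1 + n) := by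
    by_contra d
    apply hall
    intro z hz
    by_cases c : z = e
    · subst c; by_contra c'; exact d ⟨hz, c'⟩
    · exact hsame z hz c
  by_cases hB : S.B e (p + 1 + n) = []
  · exact ⟨_, _, e, False, ⟨r1, r2, hd, hsame, fun _ => Or.inr ⟨hB, eq.nilB heX hB⟩,
      False.elim⟩, Eqv.refl r1⟩
  have htop : S.Top e := ⟨heX, hms⟩
  have hNU : S.NU e := by
    refine ⟨p, p', h1, by omega, h3, by omega, hp, hp', fun d => hns ?_⟩
    have o1 : S.Same e (p + 1) p := Pre.own h1 (by omega) hp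
    have o2 : S.Same e (p' + 1) p' := Pre.own h3 (by omega) hp'
    exact det_seg (by omega) (by omega) ((o1.trans d).trans o2.symm) hn h2 h4
      (fun k a b => (hw k a b).1)
  have h4' : S.F4 e := by by_contra d; exact he (Or.inr ⟨htop, hNU, d⟩)
  have hM : ∀ k, 0 ≤ k → k < n → S.M e (S.w (p + 1 + k)) := by
    intro k k1 k2
    by_contra d
    have hne : S.w (p + 1 + k) ≠ e := by
      intro c; have := (hw k k1 k2).2; rw [c] at this; exact he this
    obtain ⟨_, _, a1, a2⟩ := Pre.mark (S := S.toPre) (p := p + 1 + k) (by omega) (by omega) rfl d hne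
    obtain ⟨_, _, b1, b2⟩ := Pre.mark (S := S.toPre) (p := p' + 1 + k) (by omega) (by omega)
      (hw k k1 k2).1.symm d hne
    have := det_seg (S := S) (z := e) (i := p + 1 + k + 1) (j := p' + 1 + k + 1)
      (n := n - k - 1) (by omega) (by omega) ⟨by rw [a1, b1], by rw [a2, b2]⟩ (by omega) (by omega) (by omega)
      (fun j j1 j2 => by
        have := (hw (k + 1 + j) (by omega) (by omega)).1
        rw [show p + 1 + k + 1 + j = p + 1 + (k + 1 + j) by ring,
          show p' + 1 + k + 1 + j = p' + 1 + (k + 1 + j) by ring]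
        exact this)
    rw [show p + 1 + k + 1 + (n - k - 1) = p + 1 + n by ring,
      show p' + 1 + k + 1 + (n - k - 1) = p' + 1 + n by ring] at this
    exact hns this
  refine ⟨_, _, e, True, ⟨r1, r2, hd, hsame, fun a => (a trivial).elim, fun _ => ⟨htop, h4',
    ⟨hB, p, h1, by omega, hp, fun k k1 k2 => ?_⟩,
    ⟨fun a => hB (eq.symm.nilB heX a), p', h3, by omega, hp', fun k k1 k2 => ?_⟩⟩⟩, Eqv.refl r1⟩
  · have := hM (k - p - 1) (by omega) (by omega)
    rwa [show p + 1 + (k - p - 1) = k by ring] at this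
  · have := hM (k - p' - 1) (by omega) (by omega)
    rwa [(hw _ (by omega) (by omega)).1, show p' + 1 + (k - p' - 1) = k by ring] at this

theorem mirBB (hm : IsMir S S') {b : α} : S'.BB b ↔ S.BB b := by
  unfold BB; rw [hm.Top, hm.NU, hm.F4]

theorem mirMp (hm : IsMir S S') {b : α} : S'.Mp b ↔ S.Mp b := by
  unfold Mp; rw [hm.Ms, mirBB hm]

theorem syncR (hm : IsMir S S') {e : α} (he : ¬ S.Mp e) {p p' n : ℤ} (h1 : p < S.hi)
    (h3 : p' < S.hi) (hp : S.w p = e) (hp' : S.w p' = e) (hn : 0 ≤ n) (h2 : S.lo ≤ p - n)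
    (h4 : S.lo ≤ p' - n)
    (hw : ∀ k, 0 ≤ k → k < n → S.w (p - k - 1) = S.w (p' - k - 1) ∧ S.Mp (S.w (p - k - 1))) :
    S.Eqv (p - n) (p' - n) ∧
      ((p - n = S.lo ∨ p' - n = S.lo ∨ S.w (p - n - 1) ≠ S.w (p' - n - 1)) →
        S'.LGen (-(p - n))) := by
  have hw1 : ∀ q k, S'.w (-q - 1 + 1 + k) = S.w (q - k - 1) := by
    intro q k; rw [hm.w]; congr 1; ring
  obtain ⟨a, b⟩ := sync (S := S') (e := e) (fun d => he ((mirMp hm).mp d)) (p := -p - 1)
    (p' := -p' - 1) (n := n) (by rw [hm.lo]; omega) (by rw [hm.lo]; omega)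
    (by rw [hm.w', hp]) (by rw [hm.w', hp']) hn (by rw [hm.hi]; omega) (by rw [hm.hi]; omega)
    (fun k k1 k2 => by rw [hw1, hw1, mirMp hm]; exact hw k k1 k2)
  constructor
  · have := hm.symm.eqv a
    rwa [show -(-p - 1 + 1 + n) = p - n by ring, show -(-p' - 1 + 1 + n) = p' - n by ring] at this
  · intro d
    rw [show -(p - n) = -p - 1 + 1 + n by ring]
    apply b
    rw [hw1, hw1, hm.hi]
    rcases d with d | d | d
    · exact Or.inl (by omega)
    · exact Or.inr (Or.inl (by omega))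
    · exact Or.inr (Or.inr d)

theorem conflict0 (hm : IsMir S S') :
    ∃ l r, l < r ∧ S.LGen l ∧ S'.LGen (-r) ∧ ∀ k, l ≤ k → k < r → S.Mp (S.w k) := by
  by_contra hno
  have nc : ∀ l r, l < r → S.LGen l → S'.LGen (-r) → (∀ k, l ≤ k → k < r → S.Mp (S.w k)) →
      False := fun l r a b c d => hno ⟨l, r, a, b, c, d⟩
  let Cut : ℤ → Prop := fun k => S.lo ≤ k ∧ k ≤ S.hi ∧ (S.LGen k ∨ k = S.hi ∨ ¬ S.Mp (S.w k)) ∧
    ∀ k', S.lo ≤ k' → k' < k → (∀ j, k' ≤ j → j < k → S.Mp (S.w j)) → ¬ S.LGen k'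
  let Conn : ℤ → ℤ → Prop := fun i k => ∀ j, ((i ≤ j ∧ j < k) ∨ (k ≤ j ∧ j < i)) → S.Mp (S.w j)
  have hex : ∀ i, ∃ k, S.lo ≤ i → i ≤ S.hi → Cut k ∧ Conn i k := by
    intro i
    by_cases hi : S.lo ≤ i ∧ i ≤ S.hi
    swap
    · exact ⟨0, fun a b => (hi ⟨a, b⟩).elim⟩
    obtain ⟨s, s1, s2, s3, s4⟩ := greatest (P := fun s => s = S.lo ∨ ¬ S.Mp (S.w (s - 1))) hi.1
      (Or.inl rfl)
    have hs : ∀ j, s ≤ j → j < i → S.Mp (S.w j) := by
      intro j a b
      by_contra d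
      exact s4 (j + 1) (by omega) (by omega) (Or.inr (by rwa [add_sub_cancel_right]))
    obtain ⟨k, k1, k2, k3, k4⟩ := least
      (P := fun k => S.LGen k ∨ k = S.hi ∨ ¬ S.Mp (S.w k)) (by omega : s ≤ S.hi)
      (Or.inr (Or.inl rfl))
    refine ⟨k, fun _ _ => ⟨⟨by omega, k2, k3, fun k' a b c d => ?_⟩, fun j hj => ?_⟩⟩
    · by_cases e : s ≤ k'
      · exact k4 k' e b (Or.inl d)
      · rcases s3 with f | f
        · omega
        · exact f (c (s - 1) (by omega) (by omega))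
    · rcases hj with ⟨a, b⟩ | ⟨a, b⟩
      · by_contra d; exact k4 j (by omega) b (Or.inr (Or.inr d))
      · exact hs j (by omega) b
  choose κ hκ using hex
  have uniq : ∀ i k1 k2, Cut k1 → Conn i k1 → Cut k2 → Conn i k2 → ¬ k1 < k2 := by
    intro i k1 k2 a1 a2 b1 b2 hlt
    have hall : ∀ j, k1 ≤ j → j < k2 → S.Mp (S.w j) := by
      intro j c d
      by_cases e : j < i
      · exact a2 j (Or.inr ⟨c, e⟩)
      · exact b2 j (Or.inl ⟨by omega, d⟩)
    rcases a1.2.2.1 with c | c | c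
    · exact b1.2.2.2 k1 a1.1 hlt hall c
    · have := b1.2.1; omega
    · exact c (hall k1 le_rfl hlt)
  have kle : ∀ p, S.lo ≤ p → p < S.hi → ¬ S.Mp (S.w p) → κ p ≤ p ∧ p + 1 ≤ κ (p + 1) := by
    intro p a b c
    constructor
    · by_contra d; exact c ((hκ p a b.le).2 p (Or.inl ⟨le_rfl, by omega⟩))
    · by_contra d; exact c ((hκ (p + 1) (by omega) (by omega)).2 p (Or.inr ⟨by omega, by omega⟩))
  have fwdA : ∀ p p', S.lo ≤ p → p < S.hi → S.lo ≤ p' → p' < S.hi → ¬ S.Mp (S.w p) →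
      S.w p' = S.w p → p' + 1 + (κ (p + 1) - (p + 1)) ≤ S.hi ∧
      (∀ j, 0 ≤ j → j < κ (p + 1) - (p + 1) → S.w (p + 1 + j) = S.w (p' + 1 + j)) ∧
      S.Eqv (κ (p + 1)) (p' + 1 + (κ (p + 1) - (p + 1))) := by
    intro p p' a1 a2 a3 a4 he hw
    obtain ⟨c1, c2⟩ := hκ (p + 1) (by omega) (by omega)
    have k1 := (kle p a1 a2 he).2
    obtain ⟨m, m1, m2, m3, m4⟩ := least (P := fun m => m = κ (p + 1) - (p + 1) ∨
      p' + 1 + m = S.hi ∨ S.w (p + 1 + m) ≠ S.w (p' + 1 + m))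
      (by omega : (0 : ℤ) ≤ κ (p + 1) - (p + 1)) (Or.inl rfl)
    have hle : p' + 1 + m ≤ S.hi := by
      by_contra d
      exact m4 (S.hi - p' - 1) (by omega) (by omega) (Or.inr (Or.inl (by ring)))
    have hag : ∀ j, 0 ≤ j → j < m → S.w (p + 1 + j) = S.w (p' + 1 + j) := by
      intro j j1 j2; by_contra d; exact m4 j j1 j2 (Or.inr (Or.inr d))
    have := c1.2.1
    obtain ⟨s1, s2⟩ := sync he a1 a3 rfl hw m1 (by omega) hle
      (fun j j1 j2 => ⟨hag j j1 j2, c2 _ (Or.inl ⟨by omega, by omega⟩)⟩)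
    have hm' : m = κ (p + 1) - (p + 1) := by
      by_contra d
      exact c1.2.2.2 (p + 1 + m) (by omega) (by omega)
        (fun j j1 j2 => c2 j (Or.inl ⟨by omega, j2⟩)) (s2 (Or.inr (m3.resolve_left d)))
    rw [← hm']
    refine ⟨hle, hag, ?_⟩
    rwa [show p + 1 + m = κ (p + 1) by omega] at s1
  have fwdB : ∀ p p', S.lo ≤ p → p < S.hi → S.lo ≤ p' → p' < S.hi → ¬ S.Mp (S.w p) →
      S.w p' = S.w p → ¬ (κ (p + 1) - (p + 1) < κ (p' + 1) - (p' + 1)) := by
    intro p p' a1 a2 a3 a4 he hw hlt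
    obtain ⟨c1, c2⟩ := hκ (p + 1) (by omega) (by omega)
    obtain ⟨d1, d2⟩ := hκ (p' + 1) (by omega) (by omega)
    have k1 := (kle p a1 a2 he).2
    obtain ⟨_, _, e3⟩ := fwdA p p' a1 a2 a3 a4 he hw
    obtain ⟨f1, f2, _⟩ := fwdA p' p a3 a4 a1 a2 (hw ▸ he) hw.symm
    rcases c1.2.2.1 with g | g | g
    · exact d1.2.2.2 _ (by omega) (by omega)
        (fun j j1 j2 => d2 j (Or.inl ⟨by omega, j2⟩)) (g.congr e3)
    · omega
    · apply g
      have := f2 (κ (p + 1) - (p + 1)) (by omega) hlt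
      rw [show p + 1 + (κ (p + 1) - (p + 1)) = κ (p + 1) by ring] at this
      rw [← this]
      exact d2 _ (Or.inl ⟨by omega, by omega⟩)
  have bwdA : ∀ p p', S.lo ≤ p → p < S.hi → S.lo ≤ p' → p' < S.hi → ¬ S.Mp (S.w p) →
      S.w p' = S.w p → S.lo ≤ p' - (p - κ p) ∧
      (∀ j, 0 ≤ j → j < p - κ p → S.w (p - j - 1) = S.w (p' - j - 1)) ∧
      S.Eqv (κ p) (p' - (p - κ p)) := by
    intro p p' a1 a2 a3 a4 he hw
    obtain ⟨c1, c2⟩ := hκ p (by omega) (by omega)
    have k1 := (kle p a1 a2 he).1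
    obtain ⟨m, m1, m2, m3, m4⟩ := least (P := fun m => m = p - κ p ∨
      p' - m = S.lo ∨ S.w (p - m - 1) ≠ S.w (p' - m - 1))
      (by omega : (0 : ℤ) ≤ p - κ p) (Or.inl rfl)
    have hle : S.lo ≤ p' - m := by
      by_contra d
      exact m4 (p' - S.lo) (by omega) (by omega) (Or.inr (Or.inl (by ring)))
    have hag : ∀ j, 0 ≤ j → j < m → S.w (p - j - 1) = S.w (p' - j - 1) := by
      intro j j1 j2; by_contra d; exact m4 j j1 j2 (Or.inr (Or.inr d))
    have := c1.1
    obtain ⟨s1, s2⟩ := syncR hm he a2 a4 rfl hw m1 (by omega) hle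
      (fun j j1 j2 => ⟨hag j j1 j2, c2 _ (Or.inr ⟨by omega, by omega⟩)⟩)
    have hm' : m = p - κ p := by
      by_contra d
      have hL : S.LGen (κ p) := by
        rcases c1.2.2.1 with g | g | g
        · exact g
        · omega
        · exact absurd (c2 _ (Or.inr ⟨le_rfl, by omega⟩)) g
      exact nc (κ p) (p - m) (by omega) hL (s2 (Or.inr (m3.resolve_left d)))
        (fun j j1 j2 => c2 j (Or.inr ⟨j1, by omega⟩))
    rw [← hm']
    refine ⟨hle, hag, ?_⟩
    rwa [show p - m = κ p by omega] at s1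
  have bwdB : ∀ p p', S.lo ≤ p → p < S.hi → S.lo ≤ p' → p' < S.hi → ¬ S.Mp (S.w p) →
      S.w p' = S.w p → ¬ (p' - κ p' < p - κ p) := by
    intro p p' a1 a2 a3 a4 he hw hlt
    obtain ⟨c1, c2⟩ := hκ p (by omega) (by omega)
    obtain ⟨d1, d2⟩ := hκ p' (by omega) (by omega)
    have k1 := (kle p' a3 a4 (hw ▸ he)).1
    obtain ⟨e1, e2, e3⟩ := bwdA p p' a1 a2 a3 a4 he hw
    have hL : S.LGen (κ p) := by
      rcases c1.2.2.1 with g | g | g
      · exact g
      · omega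
      · exact absurd (c2 _ (Or.inr ⟨le_rfl, by omega⟩)) g
    refine d1.2.2.2 _ e1 (by omega) (fun j j1 j2 => ?_) (hL.congr e3)
    have := e2 (p' - j - 1) (by omega) (by omega)
    rw [show p' - (p' - j - 1) - 1 = j by ring] at this
    rw [← this]
    exact c2 _ (Or.inr ⟨by omega, by omega⟩)
  choose o o1 o2 o3 using S.occ
  have hr : Run S.lo S.hi S.w S.Mp (fun _ => False) (fun e => seg S.w (κ (o e)) (o e))
      (fun e => seg S.w (o e + 1) (κ (o e + 1))) (fun i => seg S.w (κ i) i)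
      (fun i => seg S.w i (κ i)) := by
    refine ⟨seg_nil _ (hκ _ le_rfl S.le).1.1, seg_nil _ ?_, seg_nil _ ?_,
      seg_nil _ (hκ _ S.le le_rfl).1.2.1, fun _ _ _ d => d.elim, fun i a b c => ?_,
      fun i a b c _ => ?_⟩
    · by_contra d
      obtain ⟨c1, c2⟩ := hκ _ le_rfl S.le
      exact c1.2.2.2 S.lo le_rfl (by omega) (fun j j1 j2 => c2 j (Or.inl ⟨j1, j2⟩)) LGen_lo
    · by_contra d
      obtain ⟨c1, c2⟩ := hκ _ S.le le_rfl
      have hL : S.LGen (κ S.hi) := by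
        rcases c1.2.2.1 with g | g | g
        · exact g
        · omega
        · exact absurd (c2 _ (Or.inr ⟨le_rfl, by omega⟩)) g
      exact nc _ S.hi (by omega) hL (by rw [← hm.lo]; exact LGen_lo)
        (fun j j1 j2 => c2 j (Or.inr ⟨j1, j2⟩))
    · obtain ⟨c1, c2⟩ := hκ i a b.le
      obtain ⟨d1, d2⟩ := hκ (i + 1) (by omega) (by omega)
      have c3 : Conn (i + 1) (κ i) := by
        intro j hj
        by_cases e : j = i
        · rw [e]; exact c
        · exact c2 j (by omega)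
      have e : κ (i + 1) = κ i := by
        have u1 := uniq _ _ _ c1 c3 d1 d2
        have u2 := uniq _ _ _ d1 d2 c1 c3
        omega
      simp only [e]
      by_cases f : κ i ≤ i
      · right
        exact ⟨seg_nil _ f, seg_nil _ (by omega), seg_succ _ f⟩
      · left
        exact ⟨seg_nil _ (by omega), seg_nil _ (by omega), seg_cons _ (by omega)⟩
    · obtain ⟨k1, k2⟩ := kle i a b c
      have hw : S.w (o (S.w i)) = S.w i := o3 _
      have a' := o1 (S.w i)
      have b' := o2 (S.w i)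
      set q := o (S.w i) with hq
      refine ⟨?_, seg_nil _ k1, seg_nil _ k2, ?_⟩
      · have u1 := bwdB i q a b a' b' c hw
        have u2 := bwdB q i a' b' a b (hw ▸ c) hw.symm
        obtain ⟨_, e2, _⟩ := bwdA i q a b a' b' c hw
        have := seg_congr (w := S.w) (i := κ i) (j := κ q) (i - κ i).toNat (fun k k3 k4 => by
          have := e2 (i - κ i - k - 1) (by omega) (by omega)
          rwa [show i - (i - κ i - k - 1) - 1 = κ i + k by ring,
            show q - (i - κ i - k - 1) - 1 = κ q + k by omega] at this)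
        rwa [show κ i + ((i - κ i).toNat : ℤ) = i by omega,
          show κ q + ((i - κ i).toNat : ℤ) = q by omega] at this
      · have u1 := fwdB i q a b a' b' c hw
        have u2 := fwdB q i a' b' a b (hw ▸ c) hw.symm
        obtain ⟨_, e2, _⟩ := fwdA i q a b a' b' c hw
        have := seg_congr (w := S.w) (i := i + 1) (j := q + 1) (κ (i + 1) - (i + 1)).toNat
          (fun k k3 k4 => e2 k k3 (by omega))
        rwa [show i + 1 + ((κ (i + 1) - (i + 1)).toNat : ℤ) = κ (i + 1) by omega,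
          show q + 1 + ((κ (i + 1) - (i + 1)).toNat : ℤ) = κ (q + 1) by omega] at this
  obtain ⟨z, hz⟩ := S.Xne
  obtain ⟨m, hm'⟩ := S.ne z
  exact S.prim _ _ _ _ _ hr m (Or.inl ⟨z, hz, hm'⟩)

end Sys

end Pool.Agent.Work.MP_c026f4_lc.H12
end

-- merged part: Pool.Agent.Work.MP_c026f4_lc.H12Excl
section
set_option autoImplicit false

namespace Pool.Agent.Work.MP_c026f4_lc.H12

variable {α : Type} [LinearOrder α] [Fintype α]

namespace Sys

variable {S S' : Sys α}

theorem firstBB {l p : ℤ} {b : α} (hl : S.LGen l) (hlp : l ≤ p) (h2 : p < S.hi) (hp : S.w p = b)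
    (hb : S.BB b) (hall : ∀ k, l ≤ k → k < p → S.Ms (S.w k)) (hB : S.B b p ≠ []) : False := by
  have lo := hl.rng.1
  rcases lt_or_eq_of_le hlp with hlt | e
  swap
  · exact hb.2.2 (hl.F4 hb.1 (e ▸ hB))
  obtain ⟨k, k1, k2, k3⟩ := exists_min_pos S.w hlt
  have hA : S.A b p = [] := Pre.A_nil ⟨by omega, h2.le⟩ hB
  have hnb : ¬ S.M b (S.w k) := by
    intro hm
    rcases att lo k1 k2 h2.le hm k3 with ⟨_, a, _⟩ | ⟨_, a, _⟩
    · exact hb.2.2 (hl.F4 hb.1 (List.ne_nil_of_mem a))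
    · rw [hA] at a; cases a
  refine hl.LL (hall k k1 k2) (fun z hz hm => ?_)
  rcases att lo k1 k2 h2.le hm k3 with ⟨_, a, _⟩ | ⟨_, a, _⟩
  · exact a
  · exfalso
    have hzb : z ≠ b := by rintro rfl; exact hnb hm
    rw [(Pre.mark (S := S.toPre) (by omega) h2 hp (fun d => hb.1.2 ⟨z, hz, d⟩) hzb.symm).1] at a
    exact hnb (N1 hb.1 hb.2.1 hz hzb (by omega) h2 hp hB a)

theorem lastBB (hm : IsMir S S') {r p : ℤ} {b : α} (hr : S'.LGen (-r)) (hlp : p < r)
    (h1 : S.lo ≤ p) (hp : S.w p = b) (hb : S.BB b) (hall : ∀ k, p < k → k < r → S.Ms (S.w k))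
    (hA : S.A b p ≠ []) : False := by
  have hhi : r ≤ S.hi := by have := hr.rng.1; rw [hm.lo] at this; omega
  refine firstBB (S := S') (p := -p - 1) hr (by omega) (by rw [hm.hi]; omega) (by rw [hm.w', hp])
    ((mirBB hm).mpr hb) (fun k k1 k2 => ?_) ?_
  · rw [hm.w, hm.Ms]; exact hall _ (by omega) (by omega)
  · rw [show -p - 1 = -(p + 1) by ring, ne_eq, hm.nilB,
      (Pre.own (S := S.toPre) h1 (by omega) hp).1]
    exact hA

omit [Fintype α] in
theorem N1R (hm : IsMir S S') {b z c : α} (hb : S.Top b) (hN : S.NU b) (hz : z ∈ S.X)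
    (hzb : z ≠ b) {p : ℤ} (h1 : S.lo ≤ p) (h2 : p < S.hi) (hp : S.w p = b) (hA : S.A b p ≠ [])
    (hc : c ∈ S.v z b) : S.M b c := by
  have := N1 (S := S') (b := b) (z := z) (c := c) (hm.Top.mpr hb) (hm.NU.mpr hN)
    (by rw [hm.X]; exact hz) hzb (p := -p - 1) (by rw [hm.lo]; omega) (by rw [hm.hi]; omega)
    (by rw [hm.w', hp]) (by
      rw [show -p - 1 = -(p + 1) by ring, ne_eq, hm.nilB, (Pre.own (S := S.toPre) h1 h2 hp).1]
      exact hA) (by rw [hm.u]; exact List.mem_reverse.mpr hc)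
  rwa [hm.M] at this

omit [Fintype α] in
theorem midBB (hm : IsMir S S') {p q : ℤ} {t b : α} (h1 : S.lo ≤ p) (hpq : p < q) (h2 : q < S.hi)
    (hp : S.w p = t) (hq : S.w q = b) (ht : S.BB t) (hb : S.BB b) (hA : S.A t p ≠ [])
    (hB : S.B b q ≠ []) (hall : ∀ k, p < k → k < q → S.Ms (S.w k)) : False := by
  have rq : S.Rng q := ⟨by omega, h2.le⟩
  have rp : S.Rng p := ⟨h1, by omega⟩
  have htb : t ≠ b := by
    rintro rfl
    have e := tails_eqv ht.1.2 h1 (by omega) (by omega) h2 hp hq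
    exact hA (e.symm.nilA ht.1.1 (Pre.A_nil rq hB))
  have hAq : S.A b q = [] := Pre.A_nil rq hB
  obtain ⟨o1, o2⟩ := Pre.own (S := S.toPre) h1 (by omega) hp
  have hBp : S.B t (p + 1) = [] := by rw [o2]; exact Pre.B_nil rp hA
  have nu : ∀ z ∈ S.X, z ≠ b → ∀ c ∈ S.A z q, S.M b c := by
    intro z hz hzb c hc
    rw [(Pre.mark (S := S.toPre) (by omega) h2 hq (fun d => hb.1.2 ⟨z, hz, d⟩) hzb.symm).1] at hc
    exact N1 hb.1 hb.2.1 hz hzb (by omega) h2 hq hB hc
  have nv : ∀ z ∈ S.X, z ≠ t → ∀ c ∈ S.B z (p + 1), S.M t c := by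
    intro z hz hzb c hc
    rw [(Pre.mark (S := S.toPre) h1 (by omega) hp (fun d => ht.1.2 ⟨z, hz, d⟩) hzb.symm).2.2.2]
      at hc
    exact N1R hm ht.1 ht.2.1 hz hzb h1 (by omega) hp hA hc
  have hσ : ∀ k, p < k → k < q → S.M t (S.w k) ∧ S.M b (S.w k) := by
    intro j j1 j2
    obtain ⟨k, k1, k2, k3⟩ := exists_min_pos S.w (by omega : p + 1 < q)
    have at' : S.M t (S.w k) → S.B t k = [] ∧ S.w k ∈ S.A t q ∧
        ∀ k', k ≤ k' → k' < q → S.M t (S.w k') ∨ S.w k' = t := by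
      intro d
      rcases att (by omega) k1 k2 h2.le d k3 with ⟨_, a, _⟩ | a
      · rw [hBp] at a; cases a
      · exact a
    have ab' : S.M b (S.w k) → S.A b (k + 1) = [] ∧ S.w k ∈ S.B b (p + 1) ∧
        ∀ k', p + 1 ≤ k' → k' ≤ k → S.M b (S.w k') ∨ S.w k' = b := by
      intro d
      rcases att (by omega) k1 k2 h2.le d k3 with a | ⟨_, a, _⟩
      · exact a
      · rw [hAq] at a; cases a
    have both : S.M t (S.w k) ∧ S.M b (S.w k) := by
      have i1 : S.M t (S.w k) → S.M b (S.w k) := fun d => nu t ht.1.1 htb _ (at' d).2.1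
      have i2 : S.M b (S.w k) → S.M t (S.w k) := fun d => nv b hb.1.1 htb.symm _ (ab' d).2.1
      obtain ⟨z, hz, hzm⟩ := hall k (by omega) k2
      rcases att (by omega) k1 k2 h2.le hzm k3 with ⟨_, a, _⟩ | ⟨_, a, _⟩
      · have hzt : z ≠ t := by rintro rfl; rw [hBp] at a; cases a
        exact ⟨nv z hz hzt _ a, i1 (nv z hz hzt _ a)⟩
      · have hzt : z ≠ b := by rintro rfl; rw [hAq] at a; cases a
        exact ⟨i2 (nu z hz hzt _ a), nu z hz hzt _ a⟩
    have hjt : S.w j ≠ t := fun d => ht.1.2 (d ▸ hall j j1 j2)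
    have hjb : S.w j ≠ b := fun d => hb.1.2 (d ▸ hall j j1 j2)
    by_cases hjk : k ≤ j
    · obtain ⟨a1, _, a3⟩ := at' both.1
      have := ((S.run t).fwd (S.irr t) (by omega) k2.le h2.le a1 a3).1
      refine ⟨(a3 j hjk j2).resolve_right hjt, nu t ht.1.1 htb _ ?_⟩
      rw [this]
      exact List.mem_append_right _ (mem_dl.mpr ⟨mem_seg.mpr ⟨j, hjk, j2, rfl⟩, hjt⟩)
    · obtain ⟨a1, _, a3⟩ := ab' both.2
      have := ((S.run b).bwd (S.irr b) (by omega) (by omega : p + 1 ≤ k + 1) (by omega) a1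
        (fun k' c d => a3 k' c (by omega))).1
      refine ⟨nv b hb.1.1 htb.symm _ ?_, (a3 j (by omega) (by omega)).resolve_right hjb⟩
      rw [this]
      exact List.mem_append_left _ (mem_dl.mpr ⟨mem_seg.mpr ⟨j, by omega, by omega, rfl⟩, hjb⟩)
  obtain ⟨p', a1, a2, a3, a4⟩ : ∃ p', S.lo ≤ p' ∧ p' < S.hi ∧ S.w p' = t ∧ ¬ S.Same t p p' := by
    obtain ⟨p1, p2, b1, b2, b3, b4, b5, b6, b7⟩ := ht.2.1
    by_cases d : S.Same t p p1
    · exact ⟨p2, b3, b4, b6, fun e => b7 (d.symm.trans e)⟩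
    · exact ⟨p1, b1, b2, b5, d⟩
  obtain ⟨n, n1, n2, n3, n4⟩ := least (P := fun n => p + 1 + n = q + 1 ∨ p' + 1 + n = S.hi ∨
    S.w (p + 1 + n) ≠ S.w (p' + 1 + n)) (by omega : (0 : ℤ) ≤ q - p) (Or.inl (by ring))
  have hle : p' + 1 + n ≤ S.hi := by
    by_contra d
    exact n4 (S.hi - p' - 1) (by omega) (by omega) (Or.inr (Or.inl (by ring)))
  have hag : ∀ j, 0 ≤ j → j < n → S.w (p + 1 + j) = S.w (p' + 1 + j) := by
    intro j j1 j2; by_contra d; exact n4 j j1 j2 (Or.inr (Or.inr d))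
  have eh := heads_eqv ht.1.2 h1 (by omega) a1 a2 hp a3
  obtain ⟨o3, o4⟩ := Pre.own (S := S.toPre) a1 a2 a3
  have hBp' : S.B t (p' + 1) = [] := eh.nilB ht.1.1 hBp
  by_cases hn : p + 1 + n = q + 1
  · have hq' : S.w (p' + 1 + (n - 1)) = b := by
      rw [← hag (n - 1) (by omega) (by omega), ← hq]; congr 1; omega
    have hmb : ¬ S.M t b := fun d => hb.1.2 ⟨t, ht.1.1, d⟩
    have c1 := ((S.run t).fwd (S.irr t) (by omega) (by omega : p + 1 ≤ q) h2.le hBp
      (fun k k1 k2 => Or.inl (hσ k (by omega) k2).1)).1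
    have c2 := ((S.run t).fwd (S.irr t) (by omega) (by omega : p' + 1 ≤ p' + 1 + (n - 1))
      (by omega) hBp' (fun k k1 k2 => by
        have := hag (k - p' - 1) (by omega) (by omega)
        rw [show p' + 1 + (k - p' - 1) = k by ring] at this
        rw [← this]
        exact Or.inl (hσ _ (by omega) (by omega)).1)).1
    rw [(Pre.mark (S := S.toPre) (by omega) h2 hq hmb htb.symm).1] at c1
    rw [(Pre.mark (S := S.toPre) (by omega) (by omega) hq' hmb htb.symm).1] at c2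
    have c3 := seg_congr (w := S.w) (i := p + 1) (j := p' + 1) (n - 1).toNat
      (fun k k1 k2 => hag k k1 (by omega))
    rw [show p + 1 + ((n - 1).toNat : ℤ) = q by omega,
      show p' + 1 + ((n - 1).toNat : ℤ) = p' + 1 + (n - 1) by omega] at c3
    rw [c1, c3] at c2
    have c4 := List.append_cancel_right c2
    exact a4 ⟨by rw [← o1, ← o3, c4], by rw [← o2, ← o4, hBp, hBp']⟩
  · have r1 : S.Rng (p + 1 + n) := ⟨by omega, by omega⟩
    have r2 : S.Rng (p' + 1 + n) := ⟨by omega, hle⟩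
    have hsame : ∀ z ∈ S.X, z ≠ t → S.Same z (p + 1 + n) (p' + 1 + n) := fun z hz hne =>
      det_seg (by omega) (by omega)
        (tails ht.1.2 h1 (by omega) a1 a2 hp a3 hz hne).2 n1 (by omega) hle hag
    have c1 := ((S.run t).fwd (S.irr t) (by omega) (by omega : p + 1 ≤ p + 1 + n) r1.2 hBp
      (fun k k1 k2 => Or.inl (hσ k (by omega) (by omega)).1)).2
    have hL : S.LGen (p + 1 + n) := ⟨_, _, t, False, ⟨r1, r2, Or.inr (n3.resolve_left hn), hsame,
      fun _ => Or.inr ⟨c1, (F1 r1 r2 t hsame).nilB ht.1.1 c1⟩, False.elim⟩, Eqv.refl r1⟩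
    have c2 := ((S.run b).bwd (S.irr b) r1.1 (by omega : p + 1 + n ≤ q) h2.le hAq
      (fun k k1 k2 => Or.inl (hσ k (by omega) k2).2)).1
    refine hb.2.2 (hL.F4 hb.1 ?_)
    rw [c2]
    intro d
    exact hB (List.append_eq_nil_iff.mp d).2

theorem conflict (hm : IsMir S S') :
    ∃ l r, l < r ∧ S.LGen l ∧ S'.LGen (-r) ∧ ∀ k, l ≤ k → k < r → S.Ms (S.w k) := by
  obtain ⟨l, r, hlr, hl, hr, hall⟩ := conflict0 hm
  refine ⟨l, r, hlr, hl, hr, fun k k1 k2 => ?_⟩
  by_contra hk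
  have hbk : S.BB (S.w k) := (hall k k1 k2).resolve_left hk
  have lo := hl.rng.1
  have hhi : r ≤ S.hi := by have := hr.rng.1; rw [hm.lo] at this; omega
  obtain ⟨p1, a1, a2, a3, a4⟩ := least (P := fun k => S.BB (S.w k)) k1 hbk
  obtain ⟨p2, b1, b2, b3, b4⟩ := greatest (P := fun k => S.BB (S.w k)) (by omega : k ≤ r - 1) hbk
  have c1 : S.B (S.w p1) p1 = [] := by
    by_contra d
    exact firstBB hl a1 (by omega) rfl a3
      (fun j j1 j2 => (hall j j1 (by omega)).resolve_right (a4 j j1 j2)) d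
  have c2 : S.A (S.w p2) p2 = [] := by
    by_contra d
    exact lastBB hm hr (by omega) (by omega) rfl b3
      (fun j j1 j2 => (hall j (by omega) j2).resolve_right (b4 j j1 (by omega))) d
  have c3 : S.B (S.w p2) p2 ≠ [] :=
    ((b3.1.Z (by omega) (by omega) rfl).2).resolve_left (fun d => d c2)
  obtain ⟨q, q1, q2, q3, q4⟩ := least (P := fun k => S.BB (S.w k) ∧ S.B (S.w k) k ≠ [])
    (by omega : p1 ≤ p2) ⟨b3, c3⟩
  have hq : p1 < q := by
    rcases lt_or_eq_of_le q1 with d | d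
    · exact d
    · rw [← d] at q3; exact absurd c1 q3.2
  obtain ⟨p, d1, d2, d3, d4⟩ := greatest (P := fun k => S.BB (S.w k)) (by omega : p1 ≤ q - 1) a3
  have c4 : S.A (S.w p) p ≠ [] :=
    ((d3.1.Z (by omega) (by omega) rfl).2).resolve_right
      (fun d => q4 p d1 (by omega) ⟨d3, d⟩)
  exact midBB hm (by omega) (by omega : p < q) (by omega) rfl rfl d3 q3.1 c4 q3.2
    (fun j j1 j2 => (hall j (by omega) (by omega)).resolve_right (d4 j j1 (by omega)))

end Sys

end Pool.Agent.Work.MP_c026f4_lc.H12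
end

-- merged part: Pool.Agent.Work.MP_c026f4_lc.H12Lev
section
set_option autoImplicit false

namespace Pool.Agent.Work.MP_c026f4_lc.H12

variable {α : Type} [LinearOrder α] [Fintype α]

namespace Sys

/-- Two gaps whose potentials differ by a combination of mortal letters. -/
def Lev (S : Sys α) (i j : ℤ) : Prop :=
  S.Rng i ∧ S.Rng j ∧ ∃ a : α → ℚ, (∀ c, a c ≠ 0 → S.Ms c) ∧
    ∀ h, S.V h → S.f h j - S.f h i = ∑ c, a c * h c

variable {S S' : Sys α}

theorem Lev.symm {i j : ℤ} (h : S.Lev i j) : S.Lev j i := by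
  obtain ⟨a1, a2, a, h1, h2⟩ := h
  refine ⟨a2, a1, fun c => -a c, fun c hc => h1 c (fun d => hc (by simp [d])), fun g hg => ?_⟩
  simp only [neg_mul, Finset.sum_neg_distrib, ← h2 g hg]; ring

theorem Lev.trans {i j k : ℤ} (h : S.Lev i j) (h' : S.Lev j k) : S.Lev i k := by
  obtain ⟨a1, _, a, h1, h2⟩ := h
  obtain ⟨_, a2, b, h3, h4⟩ := h'
  refine ⟨a1, a2, fun c => a c + b c, fun c hc => ?_, fun g hg => ?_⟩
  · by_contra d
    apply hc
    have e1 : a c = 0 := by by_contra e; exact d (h1 c e)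
    have e2 : b c = 0 := by by_contra e; exact d (h3 c e)
    simp [e1, e2]
  · simp only [add_mul, Finset.sum_add_distrib, ← h2 g hg, ← h4 g hg]; ring

theorem Eqv.lev {i j : ℤ} (h : S.Eqv i j) : S.Lev i j :=
  ⟨h.1, h.2.1, fun _ => 0, fun _ d => (d rfl).elim, fun g hg => by simp [h.2.2 g hg]⟩

omit [Fintype α] in
theorem count_ne {i j : ℤ} {c : α} (h : (((seg S.w i j).count c : ℕ) : ℚ) ≠ 0) :
    ∃ k, i ≤ k ∧ k < j ∧ S.w k = c := by
  apply mem_seg.mp
  by_contra d
  exact h (by rw [List.count_eq_zero.mpr d]; simp)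

theorem lev_seg {i j : ℤ} (h1 : S.lo ≤ i) (hij : i ≤ j) (h2 : j ≤ S.hi)
    (h : ∀ k, i ≤ k → k < j → S.Ms (S.w k)) : S.Lev i j := by
  refine ⟨⟨h1, by omega⟩, ⟨by omega, h2⟩, fun c => ((seg S.w i j).count c : ℚ), fun c hc => ?_,
    fun g _ => Pre.f_sub g h1 hij⟩
  obtain ⟨k, k1, k2, k3⟩ := count_ne hc
  exact k3 ▸ h k k1 k2

theorem indicator {K : ℤ} (hK : ¬ S.Lev S.lo K) :
    ∃ e, S.V e ∧ (∀ c, S.Ms c → e c = 0) ∧
      ∀ i, S.Rng i → (S.Lev K i → S.f e i = 1) ∧ (¬ S.Lev K i → S.f e i = 0) := by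
  classical
  choose o o1 o2 o3 using S.occ
  let χ : ℤ → ℚ := fun i => if S.Lev K i then 1 else 0
  have hχ : ∀ i j, S.Lev i j → χ i = χ j := by
    intro i j h
    have : S.Lev K i ↔ S.Lev K j := ⟨fun a => a.trans h, fun a => a.trans h.symm⟩
    simp only [χ, this]
  have hms : ∀ p, S.lo ≤ p → p < S.hi → S.Ms (S.w p) → χ (p + 1) - χ p = 0 := by
    intro p a b c
    rw [hχ p (p + 1) (lev_seg a (by omega) (by omega) (fun k k1 k2 => by
      rw [show k = p by omega]; exact c)), sub_self]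
  have hstep : ∀ p, S.lo ≤ p → p < S.hi →
      χ (p + 1) - χ p = χ (o (S.w p) + 1) - χ (o (S.w p)) := by
    intro p a b
    by_cases c : S.Ms (S.w p)
    · rw [hms p a b c, hms _ (o1 _) (o2 _) (by rw [o3]; exact c)]
    · rw [hχ _ _ (tails_eqv c a b (o1 _) (o2 _) rfl (o3 _)).lev,
        hχ _ _ (heads_eqv c a b (o1 _) (o2 _) rfl (o3 _)).lev]
  have hf : ∀ i, S.lo ≤ i → i ≤ S.hi → S.f (fun c => χ (o c + 1) - χ (o c)) i = χ i := by
    intro i h1
    refine ind_up (P := fun i => i ≤ S.hi → S.f (fun c => χ (o c + 1) - χ (o c)) i = χ i)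
      ?_ ?_ i h1
    · intro _
      rw [Pre.f_lo]
      simp only [χ]
      rw [if_neg (fun d => hK d.symm)]
    · intro k hk ih h2
      rw [Pre.f_succ _ hk, ih (by omega), ← hstep k hk (by omega)]; ring
  refine ⟨fun c => χ (o c + 1) - χ (o c), fun i j hi hj hs => ?_, fun c hc => ?_,
    fun i hi => ⟨fun a => ?_, fun a => ?_⟩⟩
  · rw [hf i hi.1 hi.2, hf j hj.1 hj.2]
    obtain ⟨t, _⟩ := S.Xne
    exact hχ _ _ (F1 hi hj t (fun z hz _ => hs z hz)).lev
  · exact hms _ (o1 _) (o2 _) (by rw [o3]; exact hc)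
  · rw [hf i hi.1 hi.2]; simp [χ, a]
  · rw [hf i hi.1 hi.2]; simp [χ, a]

theorem sum_ind {a e : α → ℚ} (ha : ∀ c, a c ≠ 0 → S.Ms c) (he : ∀ c, S.Ms c → e c = 0) :
    ∑ c, a c * e c = 0 := by
  apply Finset.sum_eq_zero
  intro c _
  by_cases h : a c = 0
  · simp [h]
  · simp [he c (ha c h)]

theorem baseCase (hm : IsMir S S') {l r : ℤ} (hlr : l < r) (hl : S.LGen l) (hr : S'.LGen (-r))
    (hall : ∀ k, l ≤ k → k < r → S.Ms (S.w k)) (hb : S.Lev S.lo l) : False := by
  obtain ⟨_, rl, a, h1, h2⟩ := hb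
  have rr : S.Rng r := by have := hm.symm.rng hr.rng; rwa [neg_neg] at this
  let n : α → ℚ := fun c => ((seg S.w l r).count c : ℚ)
  have n0 : ∀ c, 0 ≤ n c := fun c => Nat.cast_nonneg _
  have hne : (fun c => a c ^ 2 + n c) ≠ 0 := by
    intro d
    have e := congrFun d (S.w l)
    have : 0 < (seg S.w l r).count (S.w l) :=
      List.count_pos_iff.mpr (mem_seg.mpr ⟨l, le_rfl, hlr, rfl⟩)
    have : (0 : ℚ) < n (S.w l) := by simp only [n]; exact_mod_cast this
    simp only [Pi.zero_apply] at e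
    nlinarith [sq_nonneg (a (S.w l))]
  obtain ⟨m, m1, m2⟩ := exists_min hne
  have m3 : ∀ c, c < m → a c = 0 ∧ n c = 0 := by
    intro c hc
    have := m2 c hc
    have e1 := n0 c
    have e2 := sq_nonneg (a c)
    exact ⟨pow_eq_zero_iff (two_ne_zero) |>.mp (by linarith), by linarith⟩
  have hms : S.Ms m := by
    by_cases d : a m = 0
    · obtain ⟨k, k1, k2, k3⟩ := count_ne (S := S) (i := l) (j := r) (c := m)
        (fun e => m1 (by simp only [d, n, e]; simp))
      exact k3 ▸ hall k k1 k2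
    · exact h1 m d
  have vl : ∀ z ∈ S.X, S.M z m → S.f (S.dv z m) l = a m := by
    intro z hz hzm
    have := h2 _ (dvV hz m)
    rwa [Pre.f_lo, sub_zero, Pre.comb_min a (fun c hc => (m3 c hc).1) hzm] at this
  have ha : 0 ≤ a m := by
    by_contra d
    exact hl.LL hms (fun z hz hzm => Pre.memB_of_neg rl (by rw [vl z hz hzm]; linarith))
  have hpos : 0 < a m + n m := by
    have := n0 m
    by_contra d
    apply m1
    have e1 : a m = 0 := by linarith
    have e2 : n m = 0 := by linarith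
    simp [e1, e2]
  refine hr.LL (hm.Ms.mpr hms) (fun z hz hzm => ?_)
  rw [hm.X] at hz
  rw [hm.M] at hzm
  rw [hm.memB]
  apply Pre.memA_of_pos rr
  have := Pre.f_sub (S := S.toPre) (S.dv z m) rl.1 hlr.le
  rw [Pre.comb_min n (fun c hc => (m3 c hc).2) hzm, vl z hz hzm] at this
  linarith

theorem coreA {L R : ℤ} {g : α} {n a : α → ℚ} {b0 b1 : ℚ} (hL : ¬ S.Lev S.lo L) (rL : S.Rng L)
    (rR : S.Rng R) (hn : ∀ c, n c ≠ 0 → S.Ms c) (hg : n g ≠ 0)
    (hp : ∀ h, S.V h → S.f h R - S.f h L = ∑ c, n c * h c) (ha : ∀ c, a c ≠ 0 → S.Ms c)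
    (hag : a g = 0) (hrel : ∀ h, S.V h → ∑ c, a c * h c + b0 * S.f h L + b1 * S.f h R = 0) :
    a = 0 ∧ b0 = 0 ∧ b1 = 0 := by
  obtain ⟨e, e1, e2, e3⟩ := indicator hL
  have h1 := hrel e e1
  rw [sum_ind ha e2, (e3 L rL).1 (Eqv.refl rL).lev, (e3 R rR).1 ⟨rL, rR, n, hn, hp⟩] at h1
  have h2 : (fun c => a c + b1 * n c) = 0 := by
    apply indep (S := S)
    · intro c hc
      by_contra d
      apply hc
      have e1 : a c = 0 := by by_contra e; exact d (ha c e)
      have e2 : n c = 0 := by by_contra e; exact d (hn c e)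
      simp [e1, e2]
    · intro h hh
      have := hrel h hh
      simp only [add_mul, Finset.sum_add_distrib, mul_assoc, ← Finset.mul_sum, ← hp h hh]
      have e : b0 = -b1 := by linarith
      rw [e] at this
      linarith
  have h3 : b1 = 0 := by
    have := congrFun h2 g
    simp only [hag, zero_add, Pi.zero_apply] at this
    exact (mul_eq_zero.mp this).resolve_right hg
  refine ⟨?_, by linarith, h3⟩
  funext c
  have := congrFun h2 c
  simpa [h3] using this

theorem lemmaA {L R : ℤ} {g : α} {n : α → ℚ} (U Q : Finset α) (hL : ¬ S.Lev S.lo L)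
    (rL : S.Rng L) (rR : S.Rng R) (hn : ∀ c, n c ≠ 0 → S.Ms c) (hg : n g ≠ 0)
    (hp : ∀ h, S.V h → S.f h R - S.f h L = ∑ c, n c * h c) (hU : ∀ c ∈ U, S.Ms c) (hgU : g ∉ U)
    (hQ : Q.card ≤ U.card + 2) (hT : ∀ c ∈ U, ∀ z, S.T c z → z ∈ Q)
    (hZL : ∀ z, S.Z L z → z ∈ Q) (hZR : ∀ z, S.Z R z → z ∈ Q) : False := by
  obtain ⟨a, b, h1, h2, h3⟩ := GU (S := S) U Q 2 ![L, R] (by omega) hQ hT (by
    intro r; fin_cases r
    · exact ⟨rL, hZL⟩
    · exact ⟨rR, hZR⟩)
  obtain ⟨c1, c2, c3⟩ := coreA (b0 := b 0) (b1 := b 1) (a := a) hL rL rR hn hg hp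
    (fun c hc => hU c (by by_contra d; exact hc (h1 c d))) (h1 g hgU) (fun h hh => by
      have := h3 h hh
      simpa [Fin.sum_univ_two, add_assoc] using this)
  exact h2 ⟨c1, funext fun r => by fin_cases r <;> assumption⟩

theorem lemmaStar {p R : ℤ} {g t : α} {n : α → ℚ} (U Q : Finset α) (hL : ¬ S.Lev S.lo (p + 1))
    (h1 : S.lo ≤ p) (h2 : p < S.hi) (hw : S.w p = t) (ht : S.Top t) (h4 : S.F4 t)
    (hA : S.A t p = []) (rR : S.Rng R) (hn : ∀ c, n c ≠ 0 → S.Ms c) (hg : n g ≠ 0)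
    (hp : ∀ h, S.V h → S.f h R - S.f h (p + 1) = ∑ c, n c * h c) (hU : ∀ c ∈ U, S.Ms c)
    (hgU : g ∉ U) (hQ : Q.card ≤ U.card + 3) (hT : ∀ c ∈ U, ∀ z, S.T c z → z ∈ Q)
    (hZL : ∀ z, S.T t z ∨ z = t → z ∈ Q) (hZR : ∀ z, S.Z R z → z ∈ Q) :
    ∃ γ, ¬ S.M t γ ∧ (∀ z ∈ S.X, S.M z γ → S.T t z) ∧ (γ ∈ U ∨ (n γ ≠ 0 ∧ γ ≤ g)) := by
  have rL : S.Rng (p + 1) := ⟨by omega, by omega⟩
  have rp : S.Rng p := ⟨h1, h2.le⟩
  obtain ⟨a, b, a1, a2, a3⟩ := GU (S := S) U Q 3 ![p + 1, R, p] (by omega) hQ hT (by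
    intro r; fin_cases r
    · exact ⟨rL, fun z hz => hZL z (Z_head h1 h2 hw hz)⟩
    · exact ⟨rR, hZR⟩
    · exact ⟨rp, fun z hz => hZL z (Z_tail h1 h2 hw hz)⟩)
  have ha : ∀ c, a c ≠ 0 → S.Ms c := fun c hc => hU c (by by_contra d; exact hc (a1 c d))
  have hrel : ∀ h, S.V h →
      ∑ c, a c * h c + b 0 * S.f h (p + 1) + b 1 * S.f h R + b 2 * S.f h p = 0 := by
    intro h hh
    have := a3 h hh
    simpa [Fin.sum_univ_three, add_assoc] using this
  have hb2 : b 2 ≠ 0 := by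
    intro d
    obtain ⟨c1, c2, c3⟩ := coreA (b0 := b 0) (b1 := b 1) (a := a) hL rL rR hn hg hp ha (a1 g hgU)
      (fun h hh => by have := hrel h hh; rwa [d, zero_mul, add_zero] at this)
    exact a2 ⟨c1, funext fun r => by fin_cases r <;> assumption⟩
  obtain ⟨e, e1, e2, e3⟩ := indicator hL
  have i1 := hrel e e1
  rw [sum_ind ha e2, (e3 _ rL).1 (Eqv.refl rL).lev, (e3 R rR).1 ⟨rL, rR, n, hn, hp⟩] at i1
  let q : α → ℚ := fun c => a c + b 1 * n c
  have hq : ∀ h, S.V h → ∑ c, q c * h c =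
      ∑ c, a c * h c + b 1 * (S.f h R - S.f h (p + 1)) := by
    intro h hh
    simp only [q, add_mul, Finset.sum_add_distrib, mul_assoc, ← Finset.mul_sum, ← hp h hh]
  have fin : ∀ γ, q γ ≠ 0 → (∀ c, c < γ → q c = 0) → γ ∈ U ∨ (n γ ≠ 0 ∧ γ ≤ g) := by
    intro γ c1 c2
    by_cases d : γ ∈ U
    · exact Or.inl d
    right
    simp only [q, a1 γ d, zero_add, ne_eq, mul_eq_zero, not_or] at c1
    refine ⟨c1.2, ?_⟩
    by_contra d2
    have := c2 g (not_le.mp d2)
    simp only [q, a1 g hgU, zero_add, mul_eq_zero] at this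
    rcases this with d3 | d3
    · exact c1.1 d3
    · exact hg d3
  by_cases hlev : S.Lev (p + 1) p
  · rw [(e3 p rp).1 hlev] at i1
    have k1 : ∀ h, S.V h → ∑ c, q c * h c = b 2 * h t := by
      intro h hh
      have r1 := hrel h hh
      have r2 := Pre.f_succ (S := S.toPre) h h1
      rw [hw] at r2
      rw [hq h hh]
      have e : b 0 = -b 1 - b 2 := by linarith
      rw [e] at r1
      rw [r2] at r1 ⊢
      linarith
    have hq0 : q ≠ 0 := by
      intro d
      obtain ⟨z, hz⟩ := ht.exT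
      exact hb2 (zero_of_T hz (fun h hh => by rw [← k1 h hh, d]; simp))
    obtain ⟨γ, c1, c2⟩ := exists_min hq0
    have k2 : ∀ z ∈ S.X, S.M z γ → S.T t z := by
      intro z hz hzm
      have := k1 _ (dvV hz γ)
      rw [Pre.comb_min q c2 hzm] at this
      exact T_of_dv hz (m := γ) (fun d => c1 (by rw [this, d, mul_zero]))
    exact ⟨γ, fun d => (k2 t ht.1 d).2.1 rfl, k2, fin γ c1 c2⟩
  · rw [(e3 p rp).2 hlev] at i1
    have k1 : ∀ h, S.V h → ∑ c, q c * h c = -b 2 * S.f h p := by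
      intro h hh
      have r1 := hrel h hh
      rw [hq h hh]
      have e : b 0 = -b 1 := by linarith
      rw [e] at r1
      linarith
    have hq0 : q ≠ 0 := by
      intro d
      obtain ⟨m, hm⟩ := List.exists_mem_of_ne_nil _
        ((ht.Z h1 h2 hw).2.resolve_left (fun d => d hA))
      have := k1 _ (dvV ht.1 m)
      rw [d] at this
      simp only [Pi.zero_apply, zero_mul, Finset.sum_const_zero, neg_mul, zero_eq_neg,
        mul_eq_zero] at this
      rcases this with d3 | d3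
      · exact hb2 d3
      · exact (Pre.dv_neg rp hm).ne d3
    obtain ⟨γ, c1, c2⟩ := exists_min hq0
    have k2 : ∀ z ∈ S.X, S.M z γ → q γ = -b 2 * S.f (S.dv z γ) p := by
      intro z hz hzm
      have := k1 _ (dvV hz γ)
      rwa [Pre.comb_min q c2 hzm] at this
    have k3 : ¬ S.M t γ := by
      intro d
      have r1 := k2 t ht.1 d
      have r2 : S.f (S.dv t γ) p ≤ 0 := Pre.dv_nonpos_of rp (by rw [hA]; simp)
      have r3 : S.f (S.dv t γ) p < 0 :=
        lt_of_le_of_ne r2 (fun d2 => c1 (by rw [r1, d2, mul_zero]))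
      refine ht.not_sole h4 (c := γ) ⟨p, h1, h2, hw, Or.inr (Pre.memB_of_neg rp r3)⟩
        (fun z hz hzm => ?_)
      by_contra d2
      have r4 := k2 z hz hzm
      have r5 : S.f (S.dv z γ) p = S.f (S.dv t γ) p :=
        mul_left_cancel₀ (neg_ne_zero.mpr hb2) (r4.symm.trans r1)
      have r6 := Pre.memB_of_neg (S := S.toPre) (z := z) (m := γ) rp (by rw [r5]; exact r3)
      rw [(Pre.mark (S := S.toPre) h1 h2 hw (fun d => ht.2 ⟨z, hz, d⟩) (Ne.symm d2)).2.1] at r6
      cases r6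
    refine ⟨γ, k3, fun z hz hzm => ?_, fin γ c1 c2⟩
    have r1 := k2 z hz hzm
    have hZ : S.Z p z := by
      refine ⟨hz, ?_⟩
      by_contra d
      rw [not_or, not_not, not_not] at d
      rw [Pre.dv_f z γ rp, d.1, d.2] at r1
      exact c1 (by simpa using r1)
    exact (Z_tail h1 h2 hw hZ).resolve_right (fun d => k3 (d ▸ hzm))

end Sys

end Pool.Agent.Work.MP_c026f4_lc.H12
end

-- merged part: Pool.Agent.Work.MP_c026f4_lc.H12Side
section
set_option autoImplicit false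

namespace Pool.Agent.Work.MP_c026f4_lc.H12

variable {α : Type} [LinearOrder α] [Fintype α]

namespace Sys

/-- The data of a conflict path at a level other than the base level. -/
structure Ctx (S : Sys α) (l r : ℤ) (g : α) : Prop where
  lr : l < r
  rl : S.Rng l
  rr : S.Rng r
  ms : ∀ k, l ≤ k → k < r → S.Ms (S.w k)
  occ : ∃ k, l ≤ k ∧ k < r ∧ S.w k = g
  min : ∀ k, l ≤ k → k < r → g ≤ S.w k
  nb : ¬ S.Lev S.lo l

/-- The local structure at the left end of a conflict path. -/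
structure Side (S : Sys α) (l r : ℤ) (g x y t : α) (ac sw lt : Prop) (i L : ℤ) : Prop where
  eq : S.Eqv l i
  rL : S.Rng L
  lt1 : lt → ac ∧ ¬ sw ∧ g ∈ S.B t l
  s1 : ∀ z ∈ S.X, g ∈ S.B z l → (¬ lt ∧ z = x) ∨ (sw ∧ z = y) ∨ (ac ∧ z = t)
  x1 : ¬ lt → x ∈ S.X ∧ g ∈ S.B x l ∧ y ∈ S.B x l ∧ i < S.hi ∧ S.w i = x ∧
    (g ∉ S.A x r ∨ (ac ∧ S.M t g))
  ab : ¬ lt → ∀ z, S.T x z → ¬ (sw ∧ z = y) → ¬ (ac ∧ z = t) →
    S.B z l = [] ∧ ∀ m ∈ S.B x l, S.M z m ∨ m = z
  a' : ¬ lt → sw → ∀ z, S.T x z → z ≠ y → ¬ (ac ∧ z = t) → S.M z x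
  c : ¬ lt → sw → ∀ z, S.T y z → S.T x z ∨ z = x
  ftop : ¬ lt → S.Top x → ¬ sw ∧ ¬ ac
  acd : ac → S.Top t ∧ S.F4 t ∧ (∀ m ∈ S.B t l, S.inS t m) ∧
    (¬ lt → x ∈ S.B t l ∧ y ∈ S.B t l) ∧ S.lo ≤ L - 1 ∧ L ≤ i ∧ S.w (L - 1) = t ∧
    S.A t (L - 1) = [] ∧ ∀ k, L ≤ k → k < i → S.inS t (S.w k)
  nac : ¬ ac → L = i

variable {S S' : Sys α}

theorem Ctx.mir {l r : ℤ} {g : α} (C : S.Ctx l r g) (hm : IsMir S S') : S'.Ctx (-r) (-l) g where
  lr := by have := C.lr; omega
  rl := hm.rng C.rr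
  rr := hm.rng C.rl
  ms := fun k a b => by rw [hm.w, hm.Ms]; exact C.ms _ (by omega) (by omega)
  occ := by
    obtain ⟨k, a, b, c⟩ := C.occ
    exact ⟨-k - 1, by omega, by omega, by rw [hm.w', c]⟩
  min := fun k a b => by rw [hm.w]; exact C.min _ (by omega) (by omega)
  nb := by
    rintro ⟨_, _, a, h1, h2⟩
    apply C.nb
    have h3 : S.Lev S.lo r := by
      refine ⟨Pre.rlo, C.rr, fun c => -a c, fun c hc => hm.Ms.mp (h1 c (fun d => hc (by simp [d]))),
        fun h hh => ?_⟩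
      have := h2 h (hm.V hh)
      rw [Pre.f_lo, hm.f hh C.rr] at this
      simp only [neg_mul, Finset.sum_neg_distrib, ← this, Pre.f_lo]; ring
    exact h3.trans (lev_seg C.rl.1 C.lr.le C.rr.2 C.ms).symm

theorem Ctx.gMs {l r : ℤ} {g : α} (C : S.Ctx l r g) : S.Ms g := by
  obtain ⟨k, a, b, c⟩ := C.occ
  exact c ▸ C.ms k a b

theorem Ctx.att {l r : ℤ} {g : α} (C : S.Ctx l r g) : ∃ k, l ≤ k ∧ k < r ∧ S.w k = g ∧
    ∀ z, S.M z g →
      (g ∈ S.B z l ∧ ∀ j, l ≤ j → j ≤ k → S.w j ∈ S.B z l ∨ S.w j = z) ∨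
      (g ∈ S.A z r ∧ ∀ j, k ≤ j → j < r → S.w j ∈ S.A z r ∨ S.w j = z) := by
  obtain ⟨k, k1, k2, k3⟩ := C.occ
  refine ⟨k, k1, k2, k3, fun z hz => ?_⟩
  have lo := C.rl.1
  have hi := C.rr.2
  rcases Sys.att lo k1 k2 hi (k3 ▸ hz) (fun j a b => k3 ▸ C.min j a b) with
    ⟨a1, a2, a3⟩ | ⟨a1, a2, a3⟩
  · left
    refine ⟨k3 ▸ a2, fun j j1 j2 => ?_⟩
    by_cases e : S.w j = z
    · exact Or.inr e
    left
    rw [((S.run z).bwd (S.irr z) lo (by omega : l ≤ k + 1) (by omega) a1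
      (fun k' c d => a3 k' c (by omega))).1]
    exact List.mem_append_left _ (mem_dl.mpr ⟨mem_seg.mpr ⟨j, j1, by omega, rfl⟩, e⟩)
  · right
    refine ⟨k3 ▸ a2, fun j j1 j2 => ?_⟩
    by_cases e : S.w j = z
    · exact Or.inr e
    left
    rw [((S.run z).fwd (S.irr z) (by omega) k2.le hi a1 a3).1]
    exact List.mem_append_right _ (mem_dl.mpr ⟨mem_seg.mpr ⟨j, j1, j2, rfl⟩, e⟩)

omit [Fintype α] in
theorem Fork.acL {i i' l : ℤ} {t : α} {ac : Prop} (h : S.Fork i i' t ac) (e : S.Eqv l i) :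
    ∃ L, S.Rng L ∧ (¬ ac → L = i) ∧ (ac → S.Top t ∧ S.F4 t ∧ (∀ m ∈ S.B t l, S.inS t m) ∧
      (S.w i ∈ S.B t l ∧ S.w i' ∈ S.B t l) ∧ S.lo ≤ L - 1 ∧ L ≤ i ∧ S.w (L - 1) = t ∧
      S.A t (L - 1) = [] ∧ ∀ k, L ≤ k → k < i → S.inS t (S.w k)) := by
  by_cases a : ac
  · obtain ⟨p, p1, p2, p3, p4, p5, p6⟩ := (h.acd a).2.2.1.data h.ri
    have := h.ri.2
    have hX := (h.acd a).1.1
    refine ⟨p + 1, ⟨by omega, by omega⟩, fun d => absurd a d, fun _ => ⟨(h.acd a).1,
      (h.acd a).2.1, fun m hm => p5 m (e.memB hX hm),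
      ⟨e.symm.memB hX (h.acx a), e.symm.memB hX (h.acy a)⟩, by omega, by omega, ?_, ?_,
      fun k k1 k2 => p6 k (by omega) k2⟩⟩
    · rw [add_sub_cancel_right, p3]
    · rw [add_sub_cancel_right, p4]
  · exact ⟨i, h.ri, fun _ => rfl, fun d => absurd d a⟩

omit [Fintype α] in
theorem Fork.mkX {i i' l r : ℤ} {t g x : α} {ac : Prop} (h : S.Fork i i' t ac) (e : S.Eqv l i)
    (hx : x ∈ S.X) (hw : S.w i = x) (hg : g ∈ S.B x l) (hr : g ∉ S.A x r ∨ (ac ∧ S.M t g)) :
    ∃ L, S.Side l r g x (S.w i') t ac (S.Swap i' x) False i L := by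
  obtain ⟨L, l1, l2, l3⟩ := h.acL e
  have hB : S.B x i ≠ [] := List.ne_nil_of_mem (e.memB hx hg)
  obtain ⟨_, hi1, _, _, hy⟩ := h.xq hx hw hB
  refine ⟨L, e, l1, False.elim, fun z hz hb => ?_,
    fun _ => ⟨hx, hg, e.symm.memB hx hy, hi1, hw, hr⟩, fun _ z a b c => ?_,
    fun _ a z b c d => h.a' hx hw hB a b c d, fun _ a z b => h.c hx hw hB a b,
    fun _ a => ⟨(h.ftop hx hw hB a).1, (h.ftop hx hw hB a).2.1⟩, fun a => ?_, l2⟩
  · rcases h.zm hx hw hB hz (List.ne_nil_of_mem (e.memB hz hb)) with d | d | d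
    · exact Or.inl ⟨fun a => a, d⟩
    · exact Or.inr (Or.inl d)
    · exact Or.inr (Or.inr d)
  · obtain ⟨d1, d2⟩ := h.ab hx hw hB a b c
    exact ⟨e.symm.nilB a.1 d1, fun m hm => d2 m (e.memB hx hm)⟩
  · obtain ⟨b1, b2, b3, b4, b5⟩ := l3 a
    exact ⟨b1, b2, b3, fun _ => hw ▸ b4, b5⟩

theorem exSide (hm : IsMir S S') {l r : ℤ} {g : α} (C : S.Ctx l r g) (hl : S.LGen l)
    (hr : S'.LGen (-r)) : ∃ (x y t : α) (ac sw lt : Prop) (i L : ℤ),
      S.Side l r g x y t ac sw lt i L := by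
  obtain ⟨z0, hz0, m0, n0⟩ : ∃ z ∈ S.X, S.M z g ∧ g ∉ S.A z r := by
    by_contra d
    refine hr.LL (hm.Ms.mpr C.gMs) (fun z hz hzm => ?_)
    rw [hm.X] at hz
    rw [hm.M] at hzm
    rw [hm.memB]
    by_contra d2
    exact d ⟨z, hz, hzm, d2⟩
  obtain ⟨k, _, _, _, hk⟩ := C.att
  have b0 : g ∈ S.B z0 l := by
    rcases hk z0 m0 with a | a
    · exact a.1
    · exact absurd a.1 n0
  obtain ⟨i, i', t, ac, hF, e⟩ := hl
  have mk : ∀ z ∈ S.X, g ∈ S.B z l → ¬ (ac ∧ z = t) → (g ∉ S.A z r ∨ (ac ∧ S.M t g)) →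
      ∃ (x y t : α) (ac sw lt : Prop) (i L : ℤ), S.Side l r g x y t ac sw lt i L := by
    intro z hz hb hn hr'
    rcases (hF.quiet hz hn (List.ne_nil_of_mem (e.memB hz hb))).2.2.2.2 with d | d
    · obtain ⟨L, hL⟩ := hF.mkX e hz d hb hr'
      exact ⟨_, _, _, _, _, _, _, _, hL⟩
    · obtain ⟨L, hL⟩ := hF.symm.mkX (e.trans hF.eqv) hz d hb hr'
      exact ⟨_, _, _, _, _, _, _, _, hL⟩
  by_cases h1 : ac ∧ z0 = t
  swap
  · exact mk z0 hz0 b0 h1 (Or.inl n0)
  obtain ⟨a, rfl⟩ := h1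
  by_cases h2 : ∃ z ∈ S.X, g ∈ S.B z l ∧ ¬ (ac ∧ z = z0)
  · obtain ⟨z, hz, hb, hn⟩ := h2
    exact mk z hz hb hn (Or.inr ⟨a, m0⟩)
  obtain ⟨L, l1, l2, l3⟩ := hF.acL e
  obtain ⟨b1, b2, b3, _, b5⟩ := l3 a
  refine ⟨z0, z0, z0, ac, False, True, i, L, e, l1, fun _ => ⟨a, fun d => d, b0⟩,
    fun z hz hb => ?_, fun d => (d trivial).elim, fun d => (d trivial).elim,
    fun d => (d trivial).elim, fun d => (d trivial).elim, fun d => (d trivial).elim,
    fun _ => ⟨b1, b2, b3, fun d => (d trivial).elim, b5⟩, l2⟩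
  right; right
  by_contra d
  exact h2 ⟨z, hz, hb, d⟩

/-- The actors of a side. -/
def Act (x y t : α) (ac sw lt : Prop) (z : α) : Prop :=
  (¬ lt ∧ z = x) ∨ (sw ∧ z = y) ∨ (ac ∧ z = t)

namespace Side

variable {l r : ℤ} {g x y t : α} {ac sw lt : Prop} {i L : ℤ}
  (D : S.Side l r g x y t ac sw lt i L)
include D

omit [Fintype α] in
theorem nlt_sw (a : sw) : ¬ lt := fun d => (D.lt1 d).2.1 a

omit [Fintype α] in
theorem nlt_ac (a : ¬ ac) : ¬ lt := fun d => a (D.lt1 d).1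

omit [Fintype α] in
theorem clx {Q : α → Prop} (h1 : ∀ z, Act x y t ac sw lt z → Q z)
    (h2 : ∀ z ∈ S.X, S.M z g → Q z) (h3 : S.T x g → Q g) (n : ¬ lt) :
    ∀ z, S.T x z ∨ z = x → Q z := by
  rintro z (hz | hz)
  · by_cases a : sw ∧ z = y
    · exact h1 z (Or.inr (Or.inl a))
    by_cases b : ac ∧ z = t
    · exact h1 z (Or.inr (Or.inr b))
    rcases (D.ab n z hz a b).2 g (D.x1 n).2.1 with d | d
    · exact h2 z hz.1 d
    · subst d; exact h3 hz
  · exact h1 z (Or.inl ⟨n, hz⟩)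

omit [Fintype α] in
theorem clt {Q : α → Prop} (h1 : ∀ z, Act x y t ac sw lt z → Q z)
    (h2 : ∀ z ∈ S.X, S.M z g → Q z) (h3 : Q g) (a : ac) :
    ∀ z, S.T t z ∨ z = t → Q z := by
  obtain ⟨b1, b2, b3, b4, _⟩ := D.acd a
  rintro z (hz | hz)
  · by_cases n : lt
    · rcases b2 z hz g (b3 g (D.lt1 n).2.2) with d | d
      · exact h2 z hz.1 d
      · exact d ▸ h3
    · apply D.clx h1 h2 (fun _ => h3) n
      rcases b2 z hz x (b3 x (b4 n).1) with d | d
      · exact Or.inl (T_of_M hz.1 d)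
      · exact Or.inr d.symm
  · exact h1 z (Or.inr (Or.inr ⟨a, hz⟩))

omit [Fintype α] in
theorem clos {Q : α → Prop} (h1 : ∀ z, Act x y t ac sw lt z → Q z)
    (h2 : ∀ z ∈ S.X, S.M z g → Q z) (h3 : Q g) :
    (∀ c, Act x y t ac sw lt c → ∀ z, S.T c z → Q z) ∧ ∀ z, S.Z L z → Q z := by
  constructor
  · rintro c (⟨n, rfl⟩ | ⟨a, rfl⟩ | ⟨a, rfl⟩) z hz
    · exact D.clx h1 h2 (fun _ => h3) n z (Or.inl hz)
    · exact D.clx h1 h2 (fun _ => h3) (D.nlt_sw a) z (D.c (D.nlt_sw a) a z hz)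
    · exact D.clt h1 h2 h3 a z (Or.inl hz)
  · intro z hz
    by_cases a : ac
    · obtain ⟨_, _, _, _, b5, b6, b7, _⟩ := D.acd a
      have := D.rL.2
      apply D.clt h1 h2 h3 a z
      apply Z_head b5 (by omega) b7
      rwa [sub_add_cancel]
    · have n := D.nlt_ac a
      obtain ⟨_, _, _, b4, b5, _⟩ := D.x1 n
      rw [D.nac a] at hz
      exact D.clx h1 h2 (fun _ => h3) n z (Z_tail D.eq.2.1.1 b4 b5 hz)

theorem path : ∃ n : α → ℚ, (∀ c, 0 ≤ n c) ∧ (∀ c, n c ≠ 0 → ac ∧ S.inS t c) ∧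
    ∀ h, S.V h → S.f h l - S.f h L = ∑ c, n c * h c := by
  by_cases a : ac
  · obtain ⟨_, _, _, _, b5, b6, _, _, b9⟩ := D.acd a
    refine ⟨fun c => ((seg S.w L i).count c : ℚ), fun c => Nat.cast_nonneg _, fun c hc => ?_,
      fun h hh => ?_⟩
    · obtain ⟨k, k1, k2, k3⟩ := count_ne hc
      exact ⟨a, k3 ▸ b9 k k1 k2⟩
    · rw [D.eq.2.2 h hh]; exact Pre.f_sub h D.rL.1 b6
  · refine ⟨fun _ => 0, fun _ => le_rfl, fun _ d => (d rfl).elim, fun h hh => ?_⟩
    rw [D.nac a, D.eq.2.2 h hh]; simp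

omit [Fintype α] in
theorem top (z : α) (hz : Act x y t ac sw lt z) :
    S.Ms z ∨ (ac ∧ z = t) ∨ (¬ ac ∧ z = x ∧ S.Top x) := by
  rcases hz with ⟨n, rfl⟩ | ⟨a, rfl⟩ | a
  · by_cases d : S.Ms z
    · exact Or.inl d
    · have : S.Top z := ⟨(D.x1 n).1, d⟩
      exact Or.inr (Or.inr ⟨(D.ftop n this).2, rfl, this⟩)
  · obtain ⟨b1, _, b3, _⟩ := D.x1 (D.nlt_sw a)
    exact Or.inl ⟨x, b1, Pre.memB D.eq.1 b3⟩
  · exact Or.inr (Or.inl a)

omit [Fintype α] in
theorem actS (a : ac) (z : α) (hz : Act x y t ac sw lt z) (hm : S.Ms z) : S.inS t z := by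
  obtain ⟨b1, b2, b3, b4, _⟩ := D.acd a
  rcases hz with ⟨n, rfl⟩ | ⟨s, rfl⟩ | ⟨_, rfl⟩
  · exact b3 _ (b4 n).1
  · exact b3 _ (b4 (D.nlt_sw s)).2
  · exact absurd hm b1.2

end Side

end Sys

end Pool.Agent.Work.MP_c026f4_lc.H12
end

-- merged part: Pool.Agent.Work.MP_c026f4_lc.H12Main
section
set_option autoImplicit false
set_option linter.unusedSectionVars false

namespace Pool.Agent.Work.MP_c026f4_lc.H12

variable {α : Type} [LinearOrder α] [Fintype α]

namespace Sys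

/-- Both ends of a conflict path. -/
structure Two (S S' : Sys α) (l r : ℤ) (g x y t : α) (ac sw lt : Prop) (i L : ℤ)
    (x' y' t' : α) (ac' sw' lt' : Prop) (i' L' : ℤ) : Prop where
  hm : IsMir S S'
  C : S.Ctx l r g
  D : S.Side l r g x y t ac sw lt i L
  E : S'.Side (-r) (-l) g x' y' t' ac' sw' lt' i' L'

namespace Two

variable {S S' : Sys α} {l r : ℤ} {g x y t x' y' t' : α} {ac sw lt ac' sw' lt' : Prop}
  {i L i' L' : ℤ} (H : Two S S' l r g x y t ac sw lt i L x' y' t' ac' sw' lt' i' L')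
include H

theorem mir : Two S' S (-r) (-l) g x' y' t' ac' sw' lt' i' L' x y t ac sw lt i L :=
  ⟨H.hm.symm, H.C.mir H.hm, H.E, by rw [neg_neg, neg_neg]; exact H.D⟩

theorem ex1 (n : ¬ lt') : x' ∈ S.X ∧ g ∈ S.A x' r ∧ y' ∈ S.A x' r ∧
    (g ∉ S.B x' l ∨ (ac' ∧ S.M t' g)) := by
  obtain ⟨a, b, c, _, _, d⟩ := H.E.x1 n
  rw [H.hm.X] at a
  rw [H.hm.memB] at b c
  rw [H.hm.memA, H.hm.M] at d
  exact ⟨a, b, c, d⟩

theorem eab (n : ¬ lt') (z : α) (h1 : S.T x' z) (h2 : ¬ (sw' ∧ z = y')) (h3 : ¬ (ac' ∧ z = t')) :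
    S.A z r = [] ∧ ∀ m ∈ S.A x' r, S.M z m ∨ m = z := by
  obtain ⟨a, b⟩ := H.E.ab n z (H.hm.T.mpr h1) h2 h3
  rw [H.hm.nilB] at a
  refine ⟨a, fun m hm => ?_⟩
  have := b m (H.hm.memB.mpr hm)
  rwa [H.hm.M] at this

theorem eacd (a : ac') : S.Top t' ∧ S.F4 t' ∧ (∀ m ∈ S.A t' r, S.inS t' m) ∧
    (¬ lt' → x' ∈ S.A t' r ∧ y' ∈ S.A t' r) := by
  obtain ⟨b1, b2, b3, b4, _⟩ := H.E.acd a
  exact ⟨H.hm.Top.mp b1, H.hm.F4.mp b2, fun m hm => H.hm.inS.mp (b3 m (H.hm.memB.mpr hm)),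
    fun n => ⟨H.hm.memB.mp (b4 n).1, H.hm.memB.mp (b4 n).2⟩⟩

theorem mort (z : α) (hz : z ∈ S.X) (hm : S.M z g) :
    Act x y t ac sw lt z ∨ Act x' y' t' ac' sw' lt' z := by
  obtain ⟨k, _, _, _, hk⟩ := H.C.att
  rcases hk z hm with a | a
  · exact Or.inl (H.D.s1 z hz a.1)
  · exact Or.inr (H.E.s1 z (by rw [H.hm.X]; exact hz) (H.hm.memB.mpr a.1))

theorem pathπ : ∃ n : α → ℚ, (∀ c, 0 ≤ n c) ∧ (∀ c, n c ≠ 0 → g ≤ c ∧ S.Ms c) ∧ 0 < n g ∧
    ∀ h, S.f h r - S.f h l = ∑ c, n c * h c := by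
  refine ⟨fun c => ((seg S.w l r).count c : ℚ), fun c => Nat.cast_nonneg _, fun c hc => ?_, ?_,
    fun h => Pre.f_sub h H.C.rl.1 H.C.lr.le⟩
  · obtain ⟨k, k1, k2, k3⟩ := count_ne hc
    exact k3 ▸ ⟨H.C.min k k1 k2, H.C.ms k k1 k2⟩
  · have : 0 < (seg S.w l r).count g := List.count_pos_iff.mpr (mem_seg.mpr H.C.occ)
    show (0 : ℚ) < ((seg S.w l r).count g : ℕ)
    exact_mod_cast this

theorem path2 : ¬ S.Lev S.lo L ∧ S.Rng (-L') ∧ ∃ n : α → ℚ, (∀ c, n c ≠ 0 → S.Ms c) ∧ n g ≠ 0 ∧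
    (∀ c, n c ≠ 0 → (ac ∧ S.inS t c) ∨ g ≤ c ∨ (ac' ∧ S.inS t' c)) ∧
    ∀ h, S.V h → S.f h (-L') - S.f h L = ∑ c, n c * h c := by
  obtain ⟨n1, a1, a2, a3⟩ := H.D.path
  obtain ⟨n2, b1, b2, b3⟩ := H.E.path
  obtain ⟨n3, c1, c2, c3, c4⟩ := H.pathπ
  have m1 : ∀ c, n1 c ≠ 0 → S.Ms c := fun c hc =>
    ⟨t, (H.D.acd (a2 c hc).1).1.1, (a2 c hc).2.M⟩
  have m2 : ∀ c, n2 c ≠ 0 → S.Ms c := fun c hc =>
    ⟨t', (H.eacd (b2 c hc).1).1.1, (H.hm.inS.mp (b2 c hc).2).M⟩
  have rR := H.hm.symm.rng H.E.rL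
  have split : ∀ c, n1 c + n3 c + n2 c ≠ 0 → n1 c ≠ 0 ∨ n3 c ≠ 0 ∨ n2 c ≠ 0 := by
    intro c hc
    by_contra d
    simp only [not_or, not_not] at d
    exact hc (by rw [d.1, d.2.1, d.2.2]; simp)
  refine ⟨fun d => H.C.nb (d.trans ⟨H.D.rL, H.C.rl, n1, m1, a3⟩), rR,
    fun c => n1 c + n3 c + n2 c, fun c hc => ?_, ?_, fun c hc => ?_, fun h hh => ?_⟩
  · rcases split c hc with d | d | d
    · exact m1 c d
    · exact (c2 c d).2
    · exact m2 c d
  · have := a1 g; have := b1 g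
    show n1 g + n3 g + n2 g ≠ 0
    linarith
  · rcases split c hc with d | d | d
    · exact Or.inl (a2 c d)
    · exact Or.inr (Or.inl (c2 c d).1)
    · exact Or.inr (Or.inr ⟨(b2 c d).1, H.hm.inS.mp (b2 c d).2⟩)
  · have e1 := b3 h (H.hm.V hh)
    have e2 := H.hm.f hh rR
    rw [neg_neg] at e2
    rw [H.hm.f hh H.C.rr, e2] at e1
    simp only [add_mul, Finset.sum_add_distrib, ← a3 h hh, ← c4 h, ← e1]; ring

theorem setup : ∃ U Q : Finset α,
    (∀ c, c ∈ U ↔ (Act x y t ac sw lt c ∨ Act x' y' t' ac' sw' lt' c) ∧ S.Ms c ∧ c ≠ g) ∧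
    (∀ z, z ∈ Q ↔ Act x y t ac sw lt z ∨ Act x' y' t' ac' sw' lt' z ∨ z = g) ∧
    (∀ c ∈ U, ∀ z, S.T c z → z ∈ Q) ∧ (∀ z, S.Z L z → z ∈ Q) ∧ (∀ z, S.Z (-L') z → z ∈ Q) ∧
    (ac → ∀ z, S.T t z ∨ z = t → z ∈ Q) := by
  classical
  let Qp : α → Prop := fun z => Act x y t ac sw lt z ∨ Act x' y' t' ac' sw' lt' z ∨ z = g
  have q2 : ∀ z ∈ S.X, S.M z g → Qp z := fun z a b => by
    rcases H.mort z a b with d | d
    · exact Or.inl d
    · exact Or.inr (Or.inl d)
  obtain ⟨a1, a2⟩ := H.D.clos (Q := Qp) (fun z d => Or.inl d) q2 (Or.inr (Or.inr rfl))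
  obtain ⟨b1, b2⟩ := H.E.clos (Q := Qp) (fun z d => Or.inr (Or.inl d))
    (by rw [H.hm.X, H.hm.M]; exact q2) (Or.inr (Or.inr rfl))
  have hQ : ∀ z, z ∈ Finset.univ.filter Qp ↔ Qp z := fun z => by simp
  refine ⟨Finset.univ.filter (fun c => (Act x y t ac sw lt c ∨ Act x' y' t' ac' sw' lt' c) ∧
    S.Ms c ∧ c ≠ g), Finset.univ.filter Qp, fun c => by simp, hQ, fun c hc z hz => ?_,
    fun z hz => (hQ z).mpr (a2 z hz), fun z hz => (hQ z).mpr (b2 z (H.hm.symm.Z.mp hz)),
    fun a z hz => (hQ z).mpr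
      (H.D.clt (Q := Qp) (fun z d => Or.inl d) q2 (Or.inr (Or.inr rfl)) a z hz)⟩
  rw [hQ]
  rcases (Finset.mem_filter.mp hc).2.1 with d | d
  · exact a1 c d z hz
  · exact b1 c d z (H.hm.T.mpr hz)

theorem caseA (τ : α)
    (h : ∀ z, Act x y t ac sw lt z ∨ Act x' y' t' ac' sw' lt' z → S.Ms z ∨ z = τ) : False := by
  obtain ⟨U, Q, hU, hQ, a1, a2, a3, _⟩ := H.setup
  obtain ⟨b1, b2, n, b3, b4, _, b6⟩ := H.path2
  refine lemmaA U Q b1 H.D.rL b2 b3 b4 b6 (fun c hc => ((hU c).mp hc).2.1)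
    (fun d => ((hU g).mp d).2.2 rfl) ?_ a1 a2 a3
  have : Q ⊆ insert g (insert τ U) := by
    intro z hz
    simp only [Finset.mem_insert]
    by_cases e : z = g
    · exact Or.inl e
    have hz' : Act x y t ac sw lt z ∨ Act x' y' t' ac' sw' lt' z := by
      rcases (hQ z).mp hz with d | d | d
      · exact Or.inl d
      · exact Or.inr d
      · exact absurd d e
    rcases h z hz' with d | d
    · exact Or.inr (Or.inr ((hU z).mpr ⟨hz', d, e⟩))
    · exact Or.inr (Or.inl d)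
  have c1 := Finset.card_le_card this
  have c2 := Finset.card_insert_le g (insert τ U)
  have c3 := Finset.card_insert_le τ U
  omega

theorem onlyx (na : ¬ ac) (hT : S.Top x) (z : α) (hz : Act x y t ac sw lt z) : z = x := by
  rcases hz with d | d | d
  · exact d.2
  · exact absurd d.1 (H.D.ftop (H.D.nlt_ac na) hT).1
  · exact absurd d.1 na

theorem tau (hT : ac ∨ S.Top x) : ∃ τ, ∀ z, Act x y t ac sw lt z → S.Ms z ∨ z = τ := by
  by_cases a : ac
  · refine ⟨t, fun z hz => ?_⟩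
    rcases H.D.top z hz with d | d | d
    · exact Or.inl d
    · exact Or.inr d.2
    · exact absurd a d.1
  · exact ⟨x, fun z hz => Or.inr (H.onlyx a (hT.resolve_left a) z hz)⟩

theorem star (a : ac) (hT' : ac' ∨ S.Top x') :
    ∃ γ, ¬ S.M t γ ∧ (∀ z ∈ S.X, S.M z γ → S.T t z) ∧ (γ = g ∨ (ac' ∧ S.inS t' γ)) := by
  obtain ⟨U, Q, hU, hQ, a1, _, a3, a4⟩ := H.setup
  obtain ⟨b1, b2, n, b3, b4, b5, b6⟩ := H.path2
  obtain ⟨τ, hτ⟩ := H.mir.tau (by rwa [H.hm.Top])
  obtain ⟨c1, c2, _, _, c5, c6, c7, c8, _⟩ := H.D.acd a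
  have rL := H.D.rL.2
  obtain ⟨γ, g1, g2, g3⟩ := lemmaStar (p := L - 1) (R := -L') (g := g) (n := n) U Q
    (by rwa [sub_add_cancel]) c5 (by omega) c7 c1 c2 c8 b2 b3 b4 (by rwa [sub_add_cancel])
    (fun c hc => ((hU c).mp hc).2.1) (fun d => ((hU g).mp d).2.2 rfl) (by
      have : Q ⊆ insert g (insert t (insert τ U)) := by
        intro z hz
        simp only [Finset.mem_insert]
        by_cases e : z = g
        · exact Or.inl e
        rcases (hQ z).mp hz with d | d | d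
        · rcases H.D.top z d with f | f | f
          · exact Or.inr (Or.inr (Or.inr ((hU z).mpr ⟨Or.inl d, f, e⟩)))
          · exact Or.inr (Or.inl f.2)
          · exact absurd a f.1
        · rcases hτ z d with f | f
          · exact Or.inr (Or.inr (Or.inr ((hU z).mpr ⟨Or.inr d, H.hm.Ms.mp f, e⟩)))
          · exact Or.inr (Or.inr (Or.inl f))
        · exact absurd d e
      have c1 := Finset.card_le_card this
      have c2 := Finset.card_insert_le g (insert t (insert τ U))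
      have c3 := Finset.card_insert_le t (insert τ U)
      have c4 := Finset.card_insert_le τ U
      omega) a1 (a4 a) a3
  refine ⟨γ, g1, g2, ?_⟩
  rcases g3 with d | ⟨d1, d2⟩
  · obtain ⟨e1, e2, _⟩ := (hU γ).mp d
    rcases e1 with e | e
    · exact absurd (H.D.actS a γ e e2).M g1
    · by_cases a' : ac'
      · exact Or.inr ⟨a', H.hm.inS.mp (H.E.actS a' γ e (H.hm.Ms.mpr e2))⟩
      · have ht := hT'.resolve_left a'
        rw [H.mir.onlyx a' (H.hm.Top.mpr ht) γ e] at e2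
        exact absurd e2 ht.2
  · rcases b5 γ d1 with e | e | e
    · exact absurd e.2.M g1
    · exact Or.inl (le_antisymm d2 e)
    · exact Or.inr e

theorem lemN (a : ac) (hT' : ac' ∨ S.Top x') : ¬ S.M t g := by
  obtain ⟨γ, g1, g2, g3⟩ := H.star a hT'
  rcases g3 with rfl | ⟨a', g3⟩
  · exact g1
  obtain ⟨b1, b2, _⟩ := H.D.acd a
  obtain ⟨c1, c2, _⟩ := H.eacd a'
  obtain ⟨δ, d1, d2, d3⟩ := H.mir.star a' (Or.inl a)
  rw [H.hm.M] at d1
  have hT := g2 t' c1.1 g3.M
  rcases d3 with rfl | ⟨_, d3⟩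
  · intro hm
    have := H.hm.T.mp (d2 t (by rw [H.hm.X]; exact b1.1) (by rw [H.hm.M]; exact hm))
    rcases c2 t this γ g3 with e | e
    · exact g1 e
    · exact b1.2 ⟨t', c1.1, e ▸ g3.M⟩
  · have d4 := H.hm.inS.mp d3
    rcases b2 t' hT δ d4 with e | e
    · exact absurd e d1
    · exact absurd ⟨t, b1.1, e ▸ d4.M⟩ c1.2

theorem nlt (hT' : ac' ∨ S.Top x') : ¬ lt := fun d =>
  H.lemN (H.D.lt1 d).1 hT' (Pre.memB H.C.rl (H.D.lt1 d).2.2)

section fin

variable (a' : ac') (hT : ac ∨ S.Top x) (hd : ac → t ≠ t')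
include a' hT

theorem lemN' : ¬ S.M t' g := by
  have := H.mir.lemN a' (by rwa [H.hm.Top])
  rwa [H.hm.M] at this

theorem nlt' : ¬ lt' := H.mir.nlt (by rwa [H.hm.Top])

include hd

theorem h1 : ¬ S.T x t' := by
  intro h
  have n := H.nlt (Or.inl a')
  obtain ⟨c1, _⟩ := H.eacd a'
  obtain ⟨b1, b2, b3, _⟩ := H.D.x1 n
  rcases (H.D.ab n t' h (fun d => c1.2 ⟨x, b1, d.2 ▸ Pre.memB H.C.rl b3⟩)
    (fun d => hd d.1 d.2.symm)).2 g b2 with e | e
  · exact H.lemN' a' hT e
  · exact c1.2 (e ▸ H.C.gMs)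

theorem lemO (z : α) (hz : z ∈ S.X) (hm : S.M z g) : S.T t' z := by
  obtain ⟨δ, d1, d2, d3⟩ := H.mir.star a' (by rwa [H.hm.Top])
  rcases d3 with rfl | ⟨a, d3⟩
  · exact H.hm.T.mp (d2 z (by rw [H.hm.X]; exact hz) (by rw [H.hm.M]; exact hm))
  exfalso
  obtain ⟨b1, _⟩ := H.D.acd a
  obtain ⟨c1, c2, c3, c4⟩ := H.eacd a'
  have h2 := H.hm.T.mp (d2 t (by rw [H.hm.X]; exact b1.1) d3.M)
  have h3 := c3 x' (c4 (H.nlt' a' hT)).1
  rcases c2 t h2 x' h3 with e | e
  · exact H.mir.h1 a (Or.inl a') (fun _ => (hd a).symm) (H.hm.T.mpr (T_of_M b1.1 e))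
  · exact b1.2 ⟨t', c1.1, e ▸ h3.M⟩

theorem h2 : S.M x x' ∧ S.M x y' := by
  have n := H.nlt (Or.inl a')
  obtain ⟨c1, c2, c3, c4⟩ := H.eacd a'
  obtain ⟨b1, b2, _⟩ := H.D.x1 n
  have h3 := H.lemO a' hT hd x b1 (Pre.memB H.C.rl b2)
  have key : ∀ m, S.inS t' m → S.M x m := by
    intro m hm
    rcases c2 x h3 m hm with e | e
    · exact e
    · exact absurd (T_of_M c1.1 (e ▸ hm.M)) (H.h1 a' hT hd)
  exact ⟨key _ (c3 _ (c4 (H.nlt' a' hT)).1), key _ (c3 _ (c4 (H.nlt' a' hT)).2)⟩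

theorem h3 : ∀ k, l ≤ k → k < r → S.w k ∈ S.B x l ∨ S.w k = x := by
  have n := H.nlt (Or.inl a')
  have n' := H.nlt' a' hT
  have N' := H.lemN' a' hT
  obtain ⟨b1, b2, _⟩ := H.D.x1 n
  have mxg := Pre.memB H.C.rl b2
  obtain ⟨m1, m2⟩ := H.h2 a' hT hd
  obtain ⟨e1, e2, e3, e4⟩ := H.ex1 n'
  obtain ⟨f1, f2⟩ := H.eab n' x (T_of_M b1 m1) (fun d => S.irr x (by rw [← d.2] at m2; exact m2))
    (fun d => N' (d.2 ▸ mxg))
  obtain ⟨k, k1, k2, k3, hk⟩ := H.C.att
  have hall : ∀ j, l ≤ j → j < r → S.M x (S.w j) ∨ S.w j = x := by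
    intro j j1 j2
    by_cases c : j ≤ k
    · rcases hk x mxg with d | d
      · rcases d.2 j j1 c with e | e
        · exact Or.inl (Pre.memB H.C.rl e)
        · exact Or.inr e
      · rw [f1] at d; cases d.1
    · rcases hk x' (Pre.memA H.C.rr e2) with d | d
      · exact absurd d.1 (e4.resolve_right (fun d => N' d.2))
      · rcases d.2 j (by omega) j2 with e | e
        · exact f2 _ e
        · exact Or.inl (e ▸ m1)
  intro j j1 j2
  by_cases e : S.w j = x
  · exact Or.inr e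
  left
  rw [((S.run x).bwd (S.irr x) H.C.rl.1 H.C.lr.le H.C.rr.2 f1 hall).1]
  exact List.mem_append_left _ (mem_dl.mpr ⟨mem_seg.mpr ⟨j, j1, j2, rfl⟩, e⟩)

theorem h4 : ∃ k, l ≤ k ∧ k < r ∧ S.w k = x' := by
  by_contra hh
  have n := H.nlt (Or.inl a')
  obtain ⟨c1, _, _, c4⟩ := H.eacd a'
  obtain ⟨b1, b2, _, b4, b5, _⟩ := H.D.x1 n
  have hne : t' ≠ x := fun d => H.lemN' a' hT (d ▸ Pre.memB H.C.rl b2)
  obtain ⟨d1, d2, _⟩ := notT H.D.eq.2.1.1 b4 b5 c1.1 hne (H.h1 a' hT hd)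
  have e1 : S.f (S.dv t' x') l = 0 := by
    rw [H.D.eq.2.2 _ (dvV c1.1 x'), Pre.dv_f _ _ H.D.eq.2.1, d1, d2]; simp
  have e2 := Pre.dv_pos H.C.rr (c4 (H.nlt' a' hT)).1
  have e3 := Pre.f_sub (S := S.toPre) (S.dv t' x') H.C.rl.1 H.C.lr.le
  have e4 : ∑ c, ((seg S.w l r).count c : ℚ) * S.dv t' x' c ≤ 0 := by
    apply Finset.sum_nonpos
    intro c _
    by_cases d : c = x'
    · rw [d, List.count_eq_zero.mpr (fun e => hh (mem_seg.mp e))]; simp
    · exact mul_nonpos_of_nonneg_of_nonpos (Nat.cast_nonneg _) (Pre.dv_nonpos d)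
  linarith

omit hT hd a' in
theorem h5 (c : α) (h1 : ∀ k, l ≤ k → k < r → S.M g (S.w k) ∨ S.w k = g)
    (h2 : ∃ k, l ≤ k ∧ k < r ∧ S.w k = c) (h3 : c ≠ g) (h4 : S.B g l = []) (h5 : S.A g r = []) :
    False := by
  have := ((S.run g).fwd (S.irr g) H.C.rl.1 H.C.lr.le H.C.rr.2 h4 h1).1
  have h6 : c ∈ S.A g r := by
    rw [this]; exact List.mem_append_right _ (mem_dl.mpr ⟨mem_seg.mpr h2, h3⟩)
  rw [h5] at h6; cases h6

theorem h3' (a : ac) : ∀ k, l ≤ k → k < r → S.w k ∈ S.A x' r ∨ S.w k = x' := by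
  intro k k1 k2
  have := H.mir.h3 a (Or.inl a') (fun _ => (hd a).symm) (-k - 1) (by omega) (by omega)
  rwa [H.hm.w', H.hm.memB] at this

theorem gy : ¬ (sw ∧ g = y) := by
  rintro ⟨s, e⟩
  have n := H.nlt (Or.inl a')
  have a : ac := by
    rcases hT with d | d
    · exact d
    · exact absurd s (H.D.ftop n d).1
  exact H.lemN a (Or.inl a') (e ▸ Pre.memB H.C.rl ((H.D.acd a).2.2.2.1 n).2)

theorem gT : ¬ S.T x g := by
  intro h
  have n := H.nlt (Or.inl a')
  have n' := H.nlt' a' hT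
  have N' := H.lemN' a' hT
  obtain ⟨c1, _, _, c4⟩ := H.eacd a'
  obtain ⟨e1, e2, _⟩ := H.ex1 n'
  obtain ⟨m1, _⟩ := H.h2 a' hT hd
  obtain ⟨b1, b2⟩ := H.D.ab n g h (H.gy a' hT hd)
    (fun d => (H.D.acd d.1).1.2 (d.2 ▸ H.C.gMs))
  have h3 := H.h3 a' hT hd
  have h4 := H.h4 a' hT hd
  have hne : x' ≠ g := fun d => S.irr g (by have := Pre.memA H.C.rr e2; rwa [d] at this)
  have mgx : S.M g x' := by
    obtain ⟨k, k1, k2, k3⟩ := h4
    rcases h3 k k1 k2 with d | d
    · exact (b2 x' (k3 ▸ d)).resolve_right hne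
    · exact absurd (k3 ▸ d ▸ m1) (S.irr _)
  obtain ⟨f1, f2⟩ := H.eab n' g (T_of_M h.1 mgx)
    (fun d => N' (d.2 ▸ Pre.memA H.C.rr (c4 n').2)) (fun d => c1.2 (d.2 ▸ H.C.gMs))
  refine H.h5 x' (fun k k1 k2 => ?_) h4 hne b1 f1
  rcases hT with a | a
  · rcases H.h3' a' (Or.inl a) hd a k k1 k2 with d | d
    · exact f2 _ d
    · exact Or.inl (d ▸ mgx)
  · rcases h3 k k1 k2 with d | d
    · exact b2 _ d
    · exact absurd (d ▸ H.C.ms k k1 k2) a.2

theorem gT' : ¬ S.T x' g := by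
  intro h
  by_cases a : ac
  · exact H.mir.gT a (Or.inl a') (fun _ => (hd a).symm) (H.hm.T.mpr h)
  have ht := hT.resolve_left a
  have n := H.nlt (Or.inl a')
  have n' := H.nlt' a' hT
  have N' := H.lemN' a' hT
  obtain ⟨c1, _, _, c4⟩ := H.eacd a'
  obtain ⟨e1, e2, _⟩ := H.ex1 n'
  have hgy : g ≠ y' := fun d => N' (d ▸ Pre.memA H.C.rr (c4 n').2)
  have hgt : g ≠ t' := fun d => c1.2 (d ▸ H.C.gMs)
  obtain ⟨f1, f2⟩ := H.eab n' g h (fun d => hgy d.2) (fun d => hgt d.2)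
  obtain ⟨b1, b2, _, b4, b5, _⟩ := H.D.x1 n
  have gT := H.gT a' hT hd
  have hBg : S.B g l = [] := H.D.eq.symm.nilB h.1
    (notT H.D.eq.2.1.1 b4 b5 h.1 (fun d => ht.2 (d ▸ H.C.gMs)) gT).2.1
  have ns := (H.D.ftop n ht).1
  have hTx : ∀ z, S.T x z → z = x' ∨ (sw' ∧ z = y') := by
    intro z hz
    rcases (H.D.ab n z hz (fun d => ns d.1) (fun d => a d.1)).2 g b2 with d | d
    · rcases H.mort z hz.1 d with e | e | e | e
      · exact absurd (H.onlyx a ht z e) hz.2.1
      · exact Or.inl e.2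
      · exact Or.inr e
      · exact absurd (e.2 ▸ d) N'
    · exact absurd (d ▸ hz) gT
  obtain ⟨s', hxx⟩ : sw' ∧ S.T x x' := by
    obtain ⟨z0, hz0⟩ := ht.exT
    obtain ⟨z1, d1, d2⟩ := F2 hz0
    rcases hTx z0 hz0 with e | e <;> rcases hTx z1 d2 with f | f
    · exact absurd (f.trans e.symm) d1
    · exact ⟨f.1, e ▸ hz0⟩
    · exact ⟨e.1, f ▸ d2⟩
    · exact absurd (f.2.trans e.2.symm) d1
  obtain ⟨g1, g2⟩ := H.D.ab n x' hxx (fun d => ns d.1) (fun d => a d.1)
  have mgx : S.M g x' := by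
    have := H.E.a' n' s' g (H.hm.T.mpr h) hgy (fun d => hgt d.2)
    rwa [H.hm.M] at this
  have h3 := H.h3 a' hT hd
  have hfw := ((S.run x').fwd (S.irr x') H.C.rl.1 H.C.lr.le H.C.rr.2 g1 (fun k k1 k2 => by
    rcases h3 k k1 k2 with d | d
    · exact g2 _ d
    · exact absurd (d ▸ H.C.ms k k1 k2) ht.2)).1
  refine H.h5 x' (fun k k1 k2 => ?_) (H.h4 a' hT hd) h.2.1.symm hBg f1
  by_cases e : S.w k = x'
  · exact Or.inl (e ▸ mgx)
  · apply f2
    rw [hfw]
    exact List.mem_append_right _ (mem_dl.mpr ⟨mem_seg.mpr ⟨k, k1, k2, rfl⟩, e⟩)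

omit hT hd a' in
theorem half (n : ¬ lt) (hg : ¬ S.T x g) :
    (∀ c, Act x y t ac sw lt c → S.Ms c → ∀ z, S.T c z →
      (Act x y t ac sw lt z ∨ Act x' y' t' ac' sw' lt' z) ∧ z ≠ g) ∧
    ∀ z, S.Z i z → (Act x y t ac sw lt z ∨ Act x' y' t' ac' sw' lt' z) ∧ z ≠ g := by
  obtain ⟨b1, b2, _, b4, b5, _⟩ := H.D.x1 n
  have key : ∀ z, S.T x z ∨ z = x →
      (Act x y t ac sw lt z ∨ Act x' y' t' ac' sw' lt' z) ∧ z ≠ g := by
    intro z hz
    refine ⟨H.D.clx (Q := fun z => Act x y t ac sw lt z ∨ Act x' y' t' ac' sw' lt' z)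
      (fun _ d => Or.inl d) H.mort (fun d => absurd d hg) n z hz, ?_⟩
    rintro rfl
    rcases hz with d | d
    · exact hg d
    · exact S.irr z (by have := Pre.memB H.C.rl b2; rwa [← d] at this)
  refine ⟨?_, fun z hz => key z (Z_tail H.D.eq.2.1.1 b4 b5 hz)⟩
  rintro c (⟨_, rfl⟩ | ⟨s, rfl⟩ | ⟨a, rfl⟩) hc z hz
  · exact key z (Or.inl hz)
  · exact key z (H.D.c n s z hz)
  · exact absurd hc (H.D.acd a).1.2

theorem final : False := by
  classical
  obtain ⟨a1, a2⟩ := H.half (H.nlt (Or.inl a')) (H.gT a' hT hd)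
  obtain ⟨b1, b2⟩ := H.mir.half (H.nlt' a' hT) (fun d => H.gT' a' hT hd (H.hm.T.mp d))
  obtain ⟨τ, hτ⟩ := H.tau hT
  obtain ⟨τ', hτ'⟩ := H.mir.tau (Or.inl a')
  obtain ⟨n, _, c2, c3, c4⟩ := H.pathπ
  have ej : S.Eqv r (-i') := by have := H.hm.symm.eqv H.E.eq; rwa [neg_neg] at this
  let Qp : α → Prop := fun z => (Act x y t ac sw lt z ∨ Act x' y' t' ac' sw' lt' z) ∧ z ≠ g
  have hQ : ∀ z, z ∈ Finset.univ.filter Qp ↔ Qp z := fun z => by simp
  have hU : ∀ z, z ∈ Finset.univ.filter (fun z => Qp z ∧ S.Ms z) ↔ Qp z ∧ S.Ms z :=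
    fun z => by simp
  refine lemmaA (L := i) (R := -i') (g := g) (n := n)
    (Finset.univ.filter (fun z => Qp z ∧ S.Ms z)) (Finset.univ.filter Qp)
    (fun d => H.C.nb (d.trans H.D.eq.symm.lev)) H.D.eq.2.1 ej.2.1 (fun c hc => (c2 c hc).2) c3.ne'
    (fun h hh => by rw [← ej.2.2 h hh, ← H.D.eq.2.2 h hh, c4])
    (fun c hc => ((hU c).mp hc).2) (fun d => ((hU g).mp d).1.2 rfl) ?_ (fun c hc z hz => ?_)
    (fun z hz => (hQ z).mpr (a2 z hz)) (fun z hz => ?_)
  · have : Finset.univ.filter Qp ⊆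
        insert τ (insert τ' (Finset.univ.filter (fun z => Qp z ∧ S.Ms z))) := by
      intro z hz
      rw [hQ] at hz
      simp only [Finset.mem_insert, hU]
      rcases hz.1 with d | d
      · rcases hτ z d with e | e
        · exact Or.inr (Or.inr ⟨hz, e⟩)
        · exact Or.inl e
      · rcases hτ' z d with e | e
        · exact Or.inr (Or.inr ⟨hz, H.hm.Ms.mp e⟩)
        · exact Or.inr (Or.inl e)
    have c1 := Finset.card_le_card this
    have c2 := Finset.card_insert_le τ (insert τ' (Finset.univ.filter (fun z => Qp z ∧ S.Ms z)))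
    have c3 := Finset.card_insert_le τ' (Finset.univ.filter (fun z => Qp z ∧ S.Ms z))
    omega
  · rw [hQ]
    obtain ⟨d1, d2⟩ := (hU c).mp hc
    rcases d1.1 with d | d
    · exact a1 c d d2 z hz
    · have := b1 c d (H.hm.Ms.mpr d2) z (H.hm.T.mpr hz)
      exact ⟨this.1.symm, this.2⟩
  · have := b2 z (H.hm.symm.Z.mp hz)
    exact (hQ z).mpr ⟨this.1.symm, this.2⟩

end fin

theorem xhalf (na : ¬ ac) (na' : ¬ ac') (ht : S.Top x) (ht' : S.Top x') :
    (∀ z, S.T x z → z = x' ∨ z = g) ∧ S.T x g ∧ S.B g l = [] ∧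
      ∀ m ∈ S.B x l, S.M g m ∨ m = g := by
  have n := H.D.nlt_ac na
  have ns := (H.D.ftop n ht).1
  obtain ⟨_, b2, _⟩ := H.D.x1 n
  have hTx : ∀ z, S.T x z → z = x' ∨ z = g := by
    intro z hz
    rcases (H.D.ab n z hz (fun d => ns d.1) (fun d => na d.1)).2 g b2 with d | d
    · rcases H.mort z hz.1 d with e | e
      · exact absurd (H.onlyx na ht z e) hz.2.1
      · exact Or.inl (H.mir.onlyx na' (H.hm.Top.mpr ht') z e)
    · exact Or.inr d.symm
  have hg : S.T x g := by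
    obtain ⟨z0, hz0⟩ := ht.exT
    obtain ⟨z1, d1, d2⟩ := F2 hz0
    rcases hTx z0 hz0 with e | e <;> rcases hTx z1 d2 with f | f
    · exact absurd (f.trans e.symm) d1
    · exact f ▸ d2
    · exact e ▸ hz0
    · exact absurd (f.trans e.symm) d1
  exact ⟨hTx, hg, H.D.ab n g hg (fun d => ns d.1) (fun d => na d.1)⟩

theorem xx (na : ¬ ac) (na' : ¬ ac') (ht : S.Top x) (ht' : S.Top x') : False := by
  obtain ⟨a1, a2, a3, a4⟩ := H.xhalf na na' ht ht'
  obtain ⟨b1, b2, b3, b4⟩ := H.mir.xhalf na' na (H.hm.Top.mpr ht') (H.hm.Top.mpr ht)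
  rw [H.hm.nilB] at b3
  have n := H.D.nlt_ac na
  have n' := H.E.nlt_ac na'
  obtain ⟨c1, c2, _, c4, c5, c6⟩ := H.D.x1 n
  obtain ⟨e1, e2, _, e4⟩ := H.ex1 n'
  obtain ⟨_, _, _, f4, f5, _⟩ := H.E.x1 n'
  obtain ⟨k, k1, k2, k3, hk⟩ := H.C.att
  have hall : ∀ j, l ≤ j → j < r → S.M g (S.w j) ∨ S.w j = g := by
    intro j j1 j2
    by_cases c : j ≤ k
    · rcases hk x (Pre.memB H.C.rl c2) with d | d
      · rcases d.2 j j1 c with e | e
        · exact a4 _ e
        · exact absurd (e ▸ H.C.ms j j1 j2) ht.2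
      · exact absurd d.1 (c6.resolve_right (fun d => na d.1))
    · rcases hk x' (Pre.memA H.C.rr e2) with d | d
      · exact absurd d.1 (e4.resolve_right (fun d => na' d.1))
      · rcases d.2 j (by omega) j2 with e | e
        · have := b4 _ (H.hm.memB.mpr e)
          rwa [H.hm.M] at this
        · exact absurd (e ▸ H.C.ms j j1 j2) ht'.2
  obtain ⟨g1, g2⟩ := (S.run g).fwd (S.irr g) H.C.rl.1 H.C.lr.le H.C.rr.2 a3 hall
  rw [b3] at g1
  have g3 : S.A g l = [] := (List.append_eq_nil_iff.mp g1.symm).1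
  have ri := H.D.eq.2.1
  have hm : ¬ S.M g x := fun d => ht.2 ⟨g, a2.1, d⟩
  obtain ⟨m1, _, _, m4⟩ := Pre.mark (S := S.toPre) ri.1 c4 c5 hm a2.2.1.symm
  rw [H.D.eq.nilA a2.1 g3] at m1
  obtain ⟨m, hmv⟩ : ∃ m, m ∈ S.B g (i + 1) := by
    rw [m4]
    rcases a2.2.2 with d | d | d
    · exact absurd d hm
    · exact absurd m1.symm d
    · exact List.exists_mem_of_ne_nil _ d
  have ej : S.Eqv r (-i') := by have := H.hm.symm.eqv H.E.eq; rwa [neg_neg] at this
  have ri1 : S.Rng (i + 1) := ⟨by have := ri.1; omega, by omega⟩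
  have hq : ∀ z, S.T x z ∨ z = x → z ∈ ({x, x', g} : Finset α) := by
    rintro z (d | d)
    · rcases a1 z d with e | e <;> simp [e]
    · simp [d]
  obtain ⟨a, b, h1, h2, h3⟩ := GU (S := S) ∅ {x, x', g} 3 ![i, -i', i + 1] (by simp)
    (by simpa using Finset.card_le_three) (by simp) (by
      intro r; fin_cases r
      · exact ⟨ri, fun z hz => hq z (Z_tail ri.1 c4 c5 hz)⟩
      · refine ⟨ej.2.1, fun z hz => ?_⟩
        rcases Z_tail H.E.eq.2.1.1 f4 f5 (H.hm.symm.Z.mp hz) with d | d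
        · rcases b1 z d with e | e <;> simp [e]
        · simp [d]
      · exact ⟨ri1, fun z hz => hq z (Z_head ri.1 c4 c5 hz)⟩)
  have ha : a = 0 := funext fun c => h1 c (by simp)
  have hrel : ∀ h, S.V h → b 0 * S.f h i + b 1 * S.f h (-i') + b 2 * S.f h (i + 1) = 0 := by
    intro h hh
    have := h3 h hh
    simpa [Fin.sum_univ_three, ha] using this
  have hb2 : b 2 = 0 := by
    have := hrel _ (dvV a2.1 m)
    rw [← H.D.eq.2.2 _ (dvV a2.1 m), ← ej.2.2 _ (dvV a2.1 m), Pre.dv_f _ _ H.C.rl,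
      Pre.dv_f _ _ H.C.rr, g3, a3, b3, g2] at this
    simp only [List.count_nil, Nat.cast_zero, sub_self, mul_zero, zero_add, mul_eq_zero] at this
    exact this.resolve_right (Pre.dv_neg ri1 hmv).ne
  obtain ⟨n, _, c2, c3, c4⟩ := H.pathπ
  obtain ⟨_, d2, d3⟩ := coreA (S := S) (L := i) (R := -i') (g := g) (n := n) (a := 0) (b0 := b 0)
    (b1 := b 1) (fun d => H.C.nb (d.trans H.D.eq.symm.lev)) ri ej.2.1 (fun c hc => (c2 c hc).2)
    c3.ne' (fun h hh => by rw [← ej.2.2 h hh, ← H.D.eq.2.2 h hh, c4]) (fun _ d => (d rfl).elim) rfl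
    (fun h hh => by have := hrel h hh; simpa [hb2] using this)
  exact h2 ⟨ha, funext fun r => by fin_cases r <;> assumption⟩

theorem noTop (hT : ¬ (ac ∨ S.Top x)) (z : α) (hz : Act x y t ac sw lt z) : S.Ms z := by
  rcases H.D.top z hz with d | d | d
  · exact d
  · exact absurd (Or.inl d.1) hT
  · exact absurd (Or.inr d.2.2) hT

theorem oneTop (hT : ¬ (ac ∨ S.Top x)) : False := by
  by_cases hT' : ac' ∨ S'.Top x'
  · obtain ⟨τ, hτ⟩ := H.mir.tau hT'
    refine H.caseA τ (fun z hz => ?_)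
    rcases hz with d | d
    · exact Or.inl (H.noTop hT z d)
    · rw [← H.hm.Ms]; exact hτ z d
  · refine H.caseA g (fun z hz => Or.inl ?_)
    rcases hz with d | d
    · exact H.noTop hT z d
    · exact H.hm.Ms.mp (H.mir.noTop hT' z d)

theorem contra : False := by
  by_cases hT : ac ∨ S.Top x
  swap
  · exact H.oneTop hT
  by_cases hT' : ac' ∨ S'.Top x'
  swap
  · exact H.mir.oneTop hT'
  by_cases hd : ac ∧ ac' ∧ t = t'
  · obtain ⟨a, a', e⟩ := hd
    refine H.caseA t (fun z hz => ?_)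
    rcases hz with d | d
    · rcases H.D.top z d with f | f | f
      · exact Or.inl f
      · exact Or.inr f.2
      · exact absurd a f.1
    · rcases H.E.top z d with f | f | f
      · exact Or.inl (H.hm.Ms.mp f)
      · exact Or.inr (f.2.trans e.symm)
      · exact absurd a' f.1
  by_cases a' : ac'
  · exact H.final a' hT (fun a e => hd ⟨a, a', e⟩)
  by_cases a : ac
  · exact H.mir.final a hT' (fun d => absurd d a')
  · exact H.xx a a' (hT.resolve_left a) (H.hm.Top.mp (hT'.resolve_left a'))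

end Two

theorem false (S : Sys α) : False := by
  have hm := S.isMir
  obtain ⟨l, r, hlr, hl, hr, hall⟩ := conflict hm
  by_cases hb : S.Lev S.lo l
  · exact baseCase hm hlr hl hr hall hb
  obtain ⟨k, k1, k2, k3⟩ := exists_min_pos S.w hlr
  have rr : S.Rng r := by have := hm.symm.rng hr.rng; rwa [neg_neg] at this
  have C : S.Ctx l r (S.w k) := ⟨hlr, hl.rng, rr, hall, ⟨k, k1, k2, rfl⟩, k3, hb⟩
  obtain ⟨x, y, t, ac, sw, lt, i, L, D⟩ := exSide hm C hl hr
  obtain ⟨x', y', t', ac', sw', lt', i', L', E⟩ := exSide hm.symm (C.mir hm) hr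
    (by rw [neg_neg]; exact hl)
  exact Two.contra ⟨hm, C, D, E⟩

end Sys

end Pool.Agent.Work.MP_c026f4_lc.H12
end

-- merged part: Pool.Agent.Work.MP_c026f4_lc.H12Dim
section
set_option autoImplicit false

namespace Pool.Agent.Work.MP_c026f4_lc.H12

variable {α : Type} [LinearOrder α] [Fintype α]

namespace Pre

/-- The potential at a gap as a linear form. -/
def fL (S : Pre α) (i : ℤ) : (α → ℚ) →ₗ[ℚ] ℚ where
  toFun := fun h => S.f h i
  map_add' := fun h h' => by
    simp only [f, pot, sum_map_count, Pi.add_apply, mul_add, Finset.sum_add_distrib]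
  map_smul' := fun c h => by
    simp only [f, pot, sum_map_count, Pi.smul_apply, smul_eq_mul, RingHom.id_apply,
      Finset.mul_sum]
    apply Finset.sum_congr rfl
    intro _ _; ring

/-- The space of weights whose potential only depends on the states in `Y`. -/
def VS (S : Pre α) (Y : Finset α) : Submodule ℚ (α → ℚ) where
  carrier := {h | S.InV Y h}
  add_mem' := by
    intro a b ha hb i j hi hj hs
    change S.fL i (a + b) = S.fL j (a + b)
    rw [map_add, map_add]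
    exact congrArg₂ (· + ·) (ha i j hi hj hs) (hb i j hi hj hs)
  zero_mem' := by
    intro i j _ _ _
    change S.fL i 0 = S.fL j 0
    rw [map_zero, map_zero]
  smul_mem' := by
    intro c a ha i j hi hj hs
    change S.fL i (c • a) = S.fL j (c • a)
    rw [map_smul, map_smul]
    exact congrArg (c • ·) (ha i j hi hj hs)

theorem dim (S : Pre α) (Y : Finset α) : Y.card ≤ Module.finrank ℚ (S.VS Y) := by
  induction Y using Finset.strongInduction with
  | H Y ih =>
  by_contra hlt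
  rw [not_le] at hlt
  have hne : Y.Nonempty := Finset.card_pos.mp (by omega)
  refine Sys.false (α := α) ⟨S, Y, hne, ?_⟩
  intro ι _ _ p q Q hQ hr
  classical
  have hker : ∀ h, S.InV (Y \ Q) h → ∀ r, S.f h (p r) - S.f h (q r) = 0 := by
    intro h hh r
    rw [hh _ _ (hr r).1 (hr r).2.1 (fun z hz => (hr r).2.2 z (Finset.mem_sdiff.mp hz).1
      (Finset.mem_sdiff.mp hz).2), sub_self]
  by_cases hY : Y \ Q = Y
  · refine ⟨fun _ => 1, fun d => one_ne_zero (congrFun d (Classical.arbitrary ι)), fun h hh => ?_⟩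
    apply Finset.sum_eq_zero
    intro r _
    rw [hker h (by rwa [hY]) r, mul_zero]
  by_contra hno
  let Φ : (α → ℚ) →ₗ[ℚ] (ι → ℚ) := LinearMap.pi (fun r => S.fL (p r) - S.fL (q r))
  have hΦ : ∀ h r, Φ h r = S.f h (p r) - S.f h (q r) := fun _ _ => rfl
  have hsurj : LinearMap.range (Φ.domRestrict (S.VS Y)) = ⊤ := by
    by_contra d
    obtain ⟨φ, h1, h2⟩ := Submodule.exists_le_ker_of_lt_top _ (lt_top_iff_ne_top.mpr d)
    have hφ : ∀ x : ι → ℚ, φ x = ∑ r, φ (Pi.single r 1) * x r := by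
      intro x
      conv_lhs => rw [← Finset.univ_sum_single x, map_sum]
      apply Finset.sum_congr rfl
      intro r _
      have : (Pi.single r (x r) : ι → ℚ) = x r • (Pi.single r 1 : ι → ℚ) := by
        rw [← Pi.single_smul]; simp
      rw [this, map_smul, smul_eq_mul, mul_comm]
    apply hno
    refine ⟨fun r => φ (Pi.single r 1), fun d => h1 ?_, fun h hh => ?_⟩
    · apply LinearMap.ext
      intro x
      rw [hφ x]
      apply Finset.sum_eq_zero
      intro r _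
      rw [show φ (Pi.single r 1) = 0 from congrFun d r, zero_mul]
    · have : φ (Φ h) = 0 := h2 ⟨⟨h, hh⟩, rfl⟩
      rw [hφ] at this
      exact this
  have e1 := LinearMap.finrank_range_add_finrank_ker (Φ.domRestrict (S.VS Y))
  rw [hsurj, finrank_top, Module.finrank_fintype_fun_eq_card] at e1
  have e2 : S.VS (Y \ Q) ≤ (LinearMap.ker (Φ.domRestrict (S.VS Y))).map (S.VS Y).subtype := by
    intro h hh
    have hh' : h ∈ S.VS Y := fun i j hi hj hs =>
      hh i j hi hj (fun z hz => hs z (Finset.mem_sdiff.mp hz).1)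
    exact ⟨⟨h, hh'⟩, funext fun r => hker h hh r, rfl⟩
  have e3 := Submodule.finrank_mono e2
  rw [Submodule.finrank_map_subtype_eq] at e3
  have e4 := ih (Y \ Q) (Finset.ssubset_iff_subset_ne.mpr ⟨Finset.sdiff_subset, hY⟩)
  have e5 := Finset.le_card_sdiff Q Y
  omega

theorem false [Nonempty α] (S : Pre α) : False := by
  have h1 := S.dim Finset.univ
  have h2 : S.VS Finset.univ ≠ ⊤ := by
    intro d
    have h3 : S.InV Finset.univ (fun _ => 1) := by
      have : (fun _ => 1 : α → ℚ) ∈ S.VS Finset.univ := by rw [d]; trivial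
      exact this
    have h4 := h3.hi
    obtain ⟨i, a, b, _⟩ := S.occ (Classical.arbitrary α)
    simp only [f, pot, List.map_const', List.sum_replicate, length_seg, nsmul_eq_mul, mul_one,
      Nat.cast_eq_zero] at h4
    omega
  have h5 := Submodule.finrank_lt h2
  rw [Module.finrank_fintype_fun_eq_card] at h5
  rw [Finset.card_univ] at h1
  omega

end Pre

end Pool.Agent.Work.MP_c026f4_lc.H12
end

-- merged part: Pool.Agent.Work.MP_c026f4_lc.H12Blk
section
set_option autoImplicit false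

namespace Pool.Agent.Work.MP_c026f4_lc.H12

variable {β : Type}

theorem iter_nil (σ : β → List β) (k : ℕ) : (fun l : List β => l.flatMap σ)^[k] [] = [] := by
  induction k with
  | zero => rfl
  | succ k ih => rw [Function.iterate_succ_apply]; simpa using ih

theorem iter_append (σ : β → List β) (k : ℕ) (l l' : List β) :
    (fun l : List β => l.flatMap σ)^[k] (l ++ l') =
      (fun l : List β => l.flatMap σ)^[k] l ++ (fun l : List β => l.flatMap σ)^[k] l' := by
  induction k generalizing l l' with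
  | zero => rfl
  | succ k ih => simp only [Function.iterate_succ_apply, List.flatMap_append, ih]

theorem iter_flat (σ : β → List β) (k : ℕ) (l : List β) :
    (fun l : List β => l.flatMap σ)^[k] l =
      l.flatMap (fun c => (fun l : List β => l.flatMap σ)^[k] [c]) := by
  induction l with
  | nil => simp [iter_nil]
  | cons a l ih => rw [List.flatMap_cons, ← ih, ← iter_append]; rfl

theorem iter_mono (σ : β → List β) {k : ℕ} {l : List β}
    (h : (fun l : List β => l.flatMap σ)^[k] l = []) (j : ℕ) :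
    (fun l : List β => l.flatMap σ)^[j + k] l = [] := by
  rw [Function.iterate_add_apply, h, iter_nil]

theorem iter_kill (σ : β → List β) (l : List β)
    (h : ∀ d ∈ l, ∃ k, (fun l : List β => l.flatMap σ)^[k] [d] = []) :
    ∃ k, (fun l : List β => l.flatMap σ)^[k] l = [] := by
  induction l with
  | nil => exact ⟨0, rfl⟩
  | cons a l ih =>
    obtain ⟨k1, h1⟩ := h a (by simp)
    obtain ⟨k2, h2⟩ := ih (fun d hd => h d (by simp [hd]))
    refine ⟨k2 + k1, ?_⟩
    rw [show a :: l = [a] ++ l from rfl, iter_append, iter_mono σ h1, add_comm, iter_mono σ h2]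
    rfl

theorem flat_single (g : β → List β) (l : List β) (h1 : ∀ c ∈ l, g c ≠ [])
    (h2 : l.flatMap g = l) : ∀ c ∈ l, g c = [c] := by
  have hlen : ∀ l : List β, (∀ c ∈ l, g c ≠ []) → l.length ≤ (l.flatMap g).length := by
    intro l h
    induction l with
    | nil => simp
    | cons a l ih =>
      have := List.length_pos_iff.mpr (h a (by simp))
      have := ih (fun c hc => h c (by simp [hc]))
      simp only [List.flatMap_cons, List.length_append, List.length_cons]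
      omega
  induction l with
  | nil => simp
  | cons a l ih =>
    have e1 := hlen l (fun c hc => h1 c (by simp [hc]))
    have e2 := congrArg List.length h2
    have e3 := List.length_pos_iff.mpr (h1 a (by simp))
    simp only [List.flatMap_cons, List.length_append, List.length_cons] at e2
    have e4 : (g a).length = 1 := by omega
    rw [List.flatMap_cons, show a :: l = [a] ++ l from rfl] at h2
    obtain ⟨e5, e6⟩ := List.append_inj h2 e4
    intro c hc
    rcases List.mem_cons.mp hc with rfl | hc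
    · exact e5
    · exact ih (fun c hc => h1 c (by simp [hc])) e6 c hc

theorem flat_filter (g : β → List β) (p : β → Bool) (l : List β)
    (h : ∀ c ∈ l, p c = false → g c = []) : l.flatMap g = (l.filter p).flatMap g := by
  induction l with
  | nil => rfl
  | cons a l ih =>
    have ih' := ih (fun c hc => h c (by simp [hc]))
    cases hp : p a
    · simp [hp, h a (by simp) hp, ih']
    · simp [hp, ih']

/-- A word fixed by a nontrivial morphism has a block decomposition. -/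
theorem blocks (W : List β) (σ : β → List β) (h1 : W.flatMap σ = W) (h2 : ∃ x ∈ W, σ x ≠ [x]) :
    ∃ (M : β → Prop) (u v : β → List β) (E : List β),
      W = E.flatMap (fun e => u e ++ e :: v e) ∧ (∀ e ∈ E, ¬ M e ∧ ∀ m ∈ u e ++ v e, M m) ∧
      ∃ m ∈ W, M m := by
  classical
  let M : β → Prop := fun c => ∃ k, (fun l : List β => l.flatMap σ)^[k] [c] = []
  have cl1 : ∀ c, M c → ∀ d ∈ σ c, M d := by
    rintro c ⟨k, hk⟩ d hd
    cases k with
    | zero => cases hk
    | succ k =>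
      rw [Function.iterate_succ_apply, iter_flat] at hk
      exact ⟨k, List.flatMap_eq_nil_iff.mp hk d (by simpa using hd)⟩
  have cl2 : ∀ c, (∀ d ∈ σ c, M d) → M c := by
    intro c h
    obtain ⟨k, hk⟩ := iter_kill σ _ h
    exact ⟨k + 1, by rw [Function.iterate_succ_apply]; simpa using hk⟩
  let p : β → Bool := fun c => decide (¬ M c)
  have hE : ∀ e ∈ W.filter p, (σ e).filter p = [e] := by
    apply flat_single
    · intro c hc hn
      have : ¬ M c := by simpa [p] using (List.mem_filter.mp hc).2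
      apply this
      apply cl2
      intro d hd
      have := List.filter_eq_nil_iff.mp hn d hd
      simpa [p] using this
    · rw [← flat_filter _ p W, ← List.filter_flatMap, h1]
      intro c _ hc
      apply List.filter_eq_nil_iff.mpr
      intro d hd
      have : M c := by simpa [p] using hc
      simpa [p] using cl1 c this d hd
  have hit : ∀ k, ∀ e ∈ W.filter p, ∃ a b, (fun l : List β => l.flatMap σ)^[k] [e] = a ++ e :: b ∧
      ∀ m ∈ a ++ b, M m := by
    intro k e he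
    induction k with
    | zero => exact ⟨[], [], rfl, by simp⟩
    | succ k ih =>
      obtain ⟨a, b, e1, e2⟩ := ih
      obtain ⟨l1, l2, f1, f2, _, f4⟩ := List.filter_eq_cons_iff.mp (hE e he)
      refine ⟨a.flatMap σ ++ l1, l2 ++ b.flatMap σ, ?_, ?_⟩
      · rw [Function.iterate_succ_apply', e1]
        simp [f1]
      · intro m hm
        simp only [List.mem_append, List.mem_flatMap] at hm
        rcases hm with (⟨c, c1, c2⟩ | c) | c | ⟨c, c1, c2⟩
        · exact cl1 c (e2 c (by simp [c1])) m c2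
        · simpa [p] using f2 m c
        · simpa [p] using List.filter_eq_nil_iff.mp f4 m c
        · exact cl1 c (e2 c (by simp [c1])) m c2
  obtain ⟨K, hK⟩ := iter_kill σ (W.filter (fun c => decide (M c)))
    (fun d hd => by simpa using (List.mem_filter.mp hd).2)
  rw [iter_flat] at hK
  have hK' := List.flatMap_eq_nil_iff.mp hK
  choose! u v huv using hit K
  refine ⟨M, u, v, W.filter p, ?_, fun e he => ⟨by simpa [p] using (List.mem_filter.mp he).2,
    (huv e he).2⟩, ?_⟩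
  · have e1 : (fun l : List β => l.flatMap σ)^[K] W = W := Function.iterate_fixed h1 K
    rw [iter_flat, flat_filter _ p W (fun c c1 c2 => hK' c
      (List.mem_filter.mpr ⟨c1, by simpa [p] using c2⟩))] at e1
    exact e1.symm.trans (List.flatMap_congr (fun e he => (huv e he).1))
  · by_contra hh
    obtain ⟨x, x1, x2⟩ := h2
    refine x2 (flat_single σ W (fun c hc hn => hh ⟨c, hc, 1, ?_⟩) h1 x x1)
    simpa using hn

theorem count_flat_ge [DecidableEq β] (g : β → List β) (E : List β) (e m : β) :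
    E.count e * (g e).count m ≤ (E.flatMap g).count m := by
  induction E with
  | nil => simp
  | cons a E ih =>
    rw [List.flatMap_cons, List.count_append, List.count_cons]
    by_cases h : a = e
    · subst h; simp only [beq_self_eq_true, if_true]; nlinarith
    · simp only [beq_iff_eq, h, if_false, add_zero]; omega

theorem count_flat_ge2 [DecidableEq β] (g : β → List β) (E : List β) {e e' : β} (m : β)
    (hne : e ≠ e') :
    E.count e * (g e).count m + E.count e' * (g e').count m ≤ (E.flatMap g).count m := by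
  induction E with
  | nil => simp
  | cons a E ih =>
    rw [List.flatMap_cons, List.count_append, List.count_cons, List.count_cons]
    by_cases h : a = e
    · subst h; simp only [beq_self_eq_true, if_true, beq_iff_eq, hne, if_false]; nlinarith
    · by_cases h' : a = e'
      · subst h'; simp only [beq_self_eq_true, if_true, beq_iff_eq, h, if_false]; nlinarith
      · simp only [beq_iff_eq, h, h', if_false, add_zero]; omega

theorem count_marker [DecidableEq β] {M : β → Prop} {u v : β → List β} (E : List β)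
    (h : ∀ e ∈ E, ∀ m ∈ u e ++ v e, M m) {c : β} (hc : ¬ M c) :
    (E.flatMap (fun e => u e ++ e :: v e)).count c = E.count c := by
  induction E with
  | nil => simp
  | cons a E ih =>
    have h1 : (u a).count c = 0 :=
      List.count_eq_zero.mpr (fun d => hc (h a (by simp) c (by simp [d])))
    have h2 : (v a).count c = 0 :=
      List.count_eq_zero.mpr (fun d => hc (h a (by simp) c (by simp [d])))
    rw [List.flatMap_cons, List.count_append, List.count_append, List.count_cons, List.count_cons,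
      ih (fun e he => h e (by simp [he])), h1, h2]
    omega

/-- The block decomposition can be chosen with the least letter of each block as its marker. -/
theorem blocks_canon [LinearOrder β] (W : List β)
    (hord : ∀ a ∈ W, ∀ b ∈ W, a < b → W.count a ≤ W.count b)
    (σ : β → List β) (h1 : W.flatMap σ = W) (h2 : ∃ x ∈ W, σ x ≠ [x]) :
    ∃ (M : β → Prop) (u v : β → List β) (E : List β),
      W = E.flatMap (fun e => u e ++ e :: v e) ∧ (∀ e ∈ E, ¬ M e) ∧
      (∀ e, ∀ m ∈ u e ++ v e, M m ∧ e < m) ∧ (∀ m, M m → m ∈ W) ∧ ∃ m, M m := by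
  obtain ⟨M, u, v, E, a1, a2, m0, a3, a4⟩ := blocks W σ h1 h2
  let g : β → List β := fun e => u e ++ e :: v e
  have hg : ∀ e, e ∈ g e := fun e => by simp [g]
  have hsub : ∀ e ∈ E, ∀ c ∈ g e, c ∈ W := by
    intro e he c hc; rw [a1]; exact List.mem_flatMap.mpr ⟨e, he, hc⟩
  have hmin : ∀ e, ∃ c ∈ g e, ∀ d ∈ g e, c ≤ d := by
    intro e
    obtain ⟨c, c1, c2⟩ := Finset.exists_min_image (g e).toFinset id ⟨e, by simp [hg]⟩
    exact ⟨c, by simpa using c1, fun d hd => c2 d (by simpa using hd)⟩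
  choose μ μ1 μ2 using hmin
  have hcnt : ∀ e ∈ E, (E.flatMap g).count (μ e) ≤ E.count e := by
    intro e he
    have e1 : W.count e = E.count e := by
      conv_lhs => rw [a1]
      exact count_marker E (fun e he => (a2 e he).2) (a2 e he).1
    rw [← e1, show E.flatMap g = W from a1.symm]
    rcases lt_or_eq_of_le (μ2 e e (hg e)) with d | d
    · exact hord _ (hsub e he _ (μ1 e)) _ (hsub e he _ (hg e)) d
    · rw [d]
  have hone : ∀ e ∈ E, (g e).count (μ e) ≤ 1 := by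
    intro e he
    have e1 := (count_flat_ge g E e (μ e)).trans (hcnt e he)
    have e2 := List.count_pos_iff.mpr he
    by_contra d
    nlinarith
  have hoth : ∀ e ∈ E, ∀ e' ∈ E, μ e ∈ g e' → e = e' := by
    intro e he e' he' hm
    by_contra hne
    have e1 := (count_flat_ge2 g E (μ e) hne).trans (hcnt e he)
    have e2 := List.count_pos_iff.mpr he'
    have e3 := List.count_pos_iff.mpr hm
    have e4 := List.count_pos_iff.mpr (μ1 e)
    nlinarith
  let M1 : β → Prop := fun c => c ∈ W ∧ ¬ ∃ e ∈ E, μ e = c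
  have hsplit : ∀ c, ∃ a b : List β, (∀ e ∈ E, μ e = c → g e = a ++ c :: b) ∧
      ∀ m ∈ a ++ b, M1 m ∧ c < m := by
    intro c
    by_cases hc : ∃ e ∈ E, μ e = c
    swap
    · exact ⟨[], [], fun e he d => (hc ⟨e, he, d⟩).elim, by simp⟩
    obtain ⟨e, he, rfl⟩ := hc
    obtain ⟨a, b, hab⟩ := List.append_of_mem (μ1 e)
    refine ⟨a, b, fun e' he' d => ?_, fun m hm => ?_⟩
    · rw [← hoth e he e' he' (d ▸ μ1 e'), hab]
    · have hmg : m ∈ g e := by
        rw [hab]; simp only [List.mem_append, List.mem_cons] at hm ⊢; tauto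
      have hne : m ≠ μ e := by
        rintro rfl
        have e1 := hone e he
        have e2 := List.count_pos_iff.mpr hm
        rw [hab] at e1
        simp only [List.count_append, List.count_cons_self] at e1 e2
        omega
      refine ⟨⟨hsub e he m hmg, ?_⟩, lt_of_le_of_ne (μ2 e m hmg) hne.symm⟩
      rintro ⟨e', he', rfl⟩
      exact hne (by rw [hoth e' he' e he hmg])
  choose u1 v1 s1 s2 using hsplit
  refine ⟨M1, u1, v1, E.map μ, ?_, ?_, s2, fun m hm => hm.1, ?_⟩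
  · rw [List.flatMap_map]
    exact a1.trans (List.flatMap_congr (fun e he => s1 (μ e) e he rfl))
  · intro c hc d
    exact d.2 (List.mem_map.mp hc)
  · rw [a1] at a3
    obtain ⟨e, he, hm⟩ := List.mem_flatMap.mp a3
    have hne : m0 ≠ e := fun d => (a2 e he).1 (d ▸ a4)
    have e1 := s1 (μ e) e he rfl
    have key : ∀ c ∈ g e, c ≠ μ e → M1 c := by
      intro c hc d
      rw [e1] at hc
      apply (s2 (μ e) c _).1
      simp only [List.mem_append, List.mem_cons] at hc ⊢; tauto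
    by_cases d : m0 = μ e
    · exact ⟨e, key e (hg e) (fun d' => hne (d.trans d'.symm))⟩
    · exact ⟨m0, key m0 hm d⟩

end Pool.Agent.Work.MP_c026f4_lc.H12
end

-- merged part: Pool.Agent.Work.MP_c026f4_lc.H12Red
section
set_option autoImplicit false

namespace Pool.Agent.Work.MP_c026f4_lc.H12

variable {β : Type}

/-- One step of the state machine. -/
def StepRel (M : β → Prop) (z : β) (u v : β → List β) (c : β) (A B A' B' : List β) : Prop :=
  (c = z → A' = A ∧ B' = B) ∧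
  (M c → (A = [] ∧ A' = [] ∧ B = c :: B') ∨ (B = [] ∧ B' = [] ∧ A' = A ++ [c])) ∧
  (¬ M c → ¬ c = z → A = u c ∧ B = [] ∧ A' = [] ∧ B' = v c)

theorem states [DecidableEq β] {M : β → Prop} {z : β} {u v : β → List β} (hz : ¬ M z)
    (huv : ∀ e, ∀ m ∈ u e ++ v e, M m) (d : β) (R : List β) :
    ∀ (A B E : List β), (∀ e ∈ E, ¬ M e) →
      A ++ dl z R = B ++ E.flatMap (fun e => u e ++ e :: v e) → (A = [] ∨ B = []) →
      (∀ m ∈ A, M m) → (∀ m ∈ B, M m) →
      ∃ As Bs : ℕ → List β, As 0 = A ∧ Bs 0 = B ∧ As R.length = [] ∧ Bs R.length = [] ∧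
        ∀ k, k < R.length →
          StepRel M z u v (R.getD k d) (As k) (Bs k) (As (k + 1)) (Bs (k + 1)) := by
  induction R with
  | nil =>
    intro A B E hE h hAB hA hB
    have hE' : E = [] := by
      cases E with
      | nil => rfl
      | cons e E =>
        exfalso
        apply hE e (by simp)
        apply hA
        simp only [dl_nil, List.append_nil] at h
        rw [h]; simp
    subst hE'
    simp only [dl_nil, List.append_nil, List.flatMap_nil] at h
    have h1 : A = [] := by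
      rcases hAB with a | a
      · exact a
      · rw [h, a]
    exact ⟨fun _ => [], fun _ => [], h1.symm, by rw [← h, h1], rfl, rfl, fun k hk => by simp at hk⟩
  | cons c R ih =>
    intro A B E hE h hAB hA hB
    have ext : ∀ A' B' E' : List β, (∀ e ∈ E', ¬ M e) →
        A' ++ dl z R = B' ++ E'.flatMap (fun e => u e ++ e :: v e) → (A' = [] ∨ B' = []) →
        (∀ m ∈ A', M m) → (∀ m ∈ B', M m) → StepRel M z u v c A B A' B' →
        ∃ As Bs : ℕ → List β, As 0 = A ∧ Bs 0 = B ∧ As (c :: R).length = [] ∧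
          Bs (c :: R).length = [] ∧ ∀ k, k < (c :: R).length →
          StepRel M z u v ((c :: R).getD k d) (As k) (Bs k) (As (k + 1)) (Bs (k + 1)) := by
      intro A' B' E' a1 a2 a3 a4 a5 a6
      obtain ⟨As, Bs, b1, b2, b3, b4, b5⟩ := ih A' B' E' a1 a2 a3 a4 a5
      refine ⟨fun k => Nat.casesOn k A As, fun k => Nat.casesOn k B Bs, rfl, rfl, b3, b4,
        fun k hk => ?_⟩
      cases k with
      | zero => simpa [b1, b2] using a6
      | succ k => simpa using b5 k (by simpa using hk)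
    by_cases hc : c = z
    · subst hc
      rw [dl_cons_self] at h
      exact ext A B E hE h hAB hA hB ⟨fun _ => ⟨rfl, rfl⟩, fun a => absurd a hz,
        fun _ a => absurd rfl a⟩
    rw [dl_cons_ne hc] at h
    by_cases hm : M c
    · cases B with
      | nil =>
        refine ext (A ++ [c]) [] E hE (by simpa using h) (Or.inr rfl) ?_ (by simp)
          ⟨fun a => absurd a hc, fun _ => Or.inr ⟨rfl, rfl, rfl⟩, fun a => absurd hm a⟩
        intro m hm'
        rcases List.mem_append.mp hm' with a | a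
        · exact hA m a
        · rw [List.mem_singleton.mp a]; exact hm
      | cons b B =>
        have hA0 : A = [] := hAB.resolve_right (by simp)
        subst hA0
        simp only [List.nil_append, List.cons_append, List.cons.injEq] at h
        refine ext [] B E hE (by simpa using h.2) (Or.inl rfl) (by simp)
          (fun m hm' => hB m (by simp [hm']))
          ⟨fun a => absurd a hc, fun _ => Or.inl ⟨rfl, rfl, by rw [h.1]⟩, fun a => absurd hm a⟩
    · have hB0 : B = [] := by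
        cases B with
        | nil => rfl
        | cons b B =>
          have hA0 : A = [] := hAB.resolve_right (by simp)
          subst hA0
          simp only [List.nil_append, List.cons_append, List.cons.injEq] at h
          exact absurd (h.1 ▸ hB b (by simp)) hm
      subst hB0
      cases E with
      | nil => simp at h
      | cons e E =>
        rw [List.nil_append, List.flatMap_cons, List.append_assoc, List.cons_append] at h
        obtain ⟨e1, e2⟩ := uniq_first (P := M) h hm (hE e (by simp)) hA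
          (fun x hx => huv e x (by simp [hx]))
        subst e1
        rw [e2] at h
        have e3 := (List.cons.inj (List.append_cancel_left h)).2
        exact ext [] (v c) E (fun e he => hE e (by simp [he])) (by simpa using e3) (Or.inl rfl)
          (by simp) (fun m hm' => huv c m (by simp [hm']))
          ⟨fun a => absurd a hc, fun a => absurd a hm, fun _ _ => ⟨e2, rfl, rfl, rfl⟩⟩

theorem seg_full (W : List β) (d : β) : seg (fun i => W.getD i.toNat d) 0 W.length = W := by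
  apply List.ext_getElem
  · simp [seg]
  · intro k h1 h2
    simp [seg, List.getD_eq_getElem?_getD, List.getElem?_eq_getElem h2]

theorem run_fix {lo hi : ℤ} {w : ℤ → β} {M : β → Prop} {u v : β → List β} {A B : ℤ → List β}
    (h : Run lo hi w M (fun _ => False) u v A B) (hle : lo ≤ hi) (σ : β → List β)
    (h1 : ∀ c, M c → σ c = []) (h2 : ∀ c, ¬ M c → σ c = u c ++ c :: v c) :
    (seg w lo hi).flatMap σ = seg w lo hi := by
  have key : ∀ i, lo ≤ i → i ≤ hi → (seg w lo i).flatMap σ ++ A i = seg w lo i ++ B i := by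
    intro i hi'
    refine ind_up (P := fun i => i ≤ hi → (seg w lo i).flatMap σ ++ A i = seg w lo i ++ B i)
      ?_ ?_ i hi'
    · intro _; simp [seg_self, h.loA, h.loB]
    · intro k hk ih h3
      have ih' := ih (by omega)
      rw [seg_succ w hk, List.flatMap_append]
      by_cases hm : M (w k)
      · rcases h.mor k hk (by omega) hm with ⟨a, b, c⟩ | ⟨a, b, c⟩
        · rw [a, c] at ih'
          simp only [List.append_nil] at ih'
          simp [h1 _ hm, b, ih']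
        · rw [a] at ih'
          simp only [List.append_nil] at ih'
          rw [b, c]
          simp only [List.flatMap_cons, List.flatMap_nil, h1 _ hm, List.append_nil]
          rw [← List.append_assoc, ih']
      · obtain ⟨a, b, c, e⟩ := h.mar k hk (by omega) hm (fun a => a)
        rw [a, b] at ih'
        simp only [List.append_nil] at ih'
        rw [c, e]
        simp only [List.flatMap_cons, List.flatMap_nil, h2 _ hm, List.append_nil]
        rw [← List.append_assoc, ih']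
        simp
  have := key hi hle le_rfl
  rwa [h.hiA, h.hiB, List.append_nil, List.append_nil] at this

theorem count_dl [DecidableEq β] {z a : β} (h : a ≠ z) (W : List β) :
    (dl z W).count a = W.count a := by
  simp [dl, List.count_filter, h]

/-- The conjecture over a finite ordered alphabet. -/
theorem main_fin [LinearOrder β] [Fintype β] [Nonempty β] (W : List β) (hall : ∀ c, c ∈ W)
    (hord : ∀ a b, a < b → W.count a ≤ W.count b)
    (hprim : ∀ σ : β → List β, W.flatMap σ = W → ∀ x, σ x = [x])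
    (hheir : ∀ z, ∃ σ : β → List β, (dl z W).flatMap σ = dl z W ∧ ∃ x ∈ dl z W, σ x ≠ [x]) :
    False := by
  classical
  let d : β := Classical.arbitrary β
  have hz : ∀ z, ∃ (M : β → Prop) (u v : β → List β) (A B : ℤ → List β), ¬ M z ∧ (∃ m, M m) ∧
      (∀ e, ∀ m ∈ u e ++ v e, e < m) ∧
      Run 0 W.length (fun i => W.getD i.toNat d) M (fun c => c = z) u v A B := by
    intro z
    obtain ⟨σ, h1, h2⟩ := hheir z
    obtain ⟨M, u, v, E, a1, a2, a3, a4, a5⟩ := blocks_canon (dl z W) (fun a ha b hb hab => by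
      rw [count_dl (mem_dl.mp ha).2, count_dl (mem_dl.mp hb).2]; exact hord a b hab) σ h1 h2
    have hMz : ¬ M z := fun a => (mem_dl.mp (a4 z a)).2 rfl
    obtain ⟨As, Bs, b1, b2, b3, b4, b5⟩ := states hMz (fun e m hm => (a3 e m hm).1) d W [] [] E a2
      (by simpa using a1) (Or.inl rfl) (by simp) (by simp)
    have st : ∀ i : ℤ, 0 ≤ i → i < W.length → StepRel M z u v (W.getD i.toNat d) (As i.toNat)
        (Bs i.toNat) (As (i + 1).toNat) (Bs (i + 1).toNat) := by
      intro i c1 c2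
      rw [show (i + 1).toNat = i.toNat + 1 by omega]
      exact b5 _ (by omega)
    exact ⟨M, u, v, fun i => As i.toNat, fun i => Bs i.toNat, hMz, a5,
      fun e m hm => (a3 e m hm).2, b1, b2, by simpa using b3, by simpa using b4,
      fun i c1 c2 => (st i c1 c2).1, fun i c1 c2 => (st i c1 c2).2.1,
      fun i c1 c2 => (st i c1 c2).2.2⟩
  choose M u v A B c1 c2 c3 c4 using hz
  refine Pre.false (α := β) ⟨0, W.length, fun i => W.getD i.toNat d, M, u, v, A, B, by omega,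
    fun c => ?_, c1, c2, fun z e m hm => c3 z e m (by simp [hm]),
    fun z e m hm => c3 z e m (by simp [hm]), c4, fun M' u' v' A' B' hr m hm => ?_⟩
  · obtain ⟨k, hk, e⟩ := List.getElem_of_mem (hall c)
    refine ⟨k, by omega, by omega, ?_⟩
    simp [List.getD_eq_getElem?_getD, List.getElem?_eq_getElem hk, e]
  · have := run_fix hr (by omega) (fun c => if M' c then [] else u' c ++ c :: v' c)
      (fun c a => by simp [a]) (fun c a => by simp [a])
    rw [seg_full] at this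
    have := hprim _ this m
    simp [hm] at this

theorem map_dl {γ : Type} [DecidableEq β] [DecidableEq γ] (f : β → γ) (hf : Function.Injective f)
    (z : β) (W : List β) : (dl z W).map f = dl (f z) (W.map f) := by
  induction W with
  | nil => rfl
  | cons a W ih =>
    by_cases h : a = z
    · subst h; rw [List.map_cons, dl_cons_self, dl_cons_self, ih]
    · rw [List.map_cons, dl_cons_ne h, dl_cons_ne (fun e => h (hf e)), List.map_cons, ih]

theorem billaud_aux [LinearOrder β] [Fintype β] [Nonempty β] (f : β → ℕ)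
    (hf : Function.Injective f) (W : List β) (hall : ∀ c, c ∈ W) (α : List ℕ) (hmap : W.map f = α)
    (hord : ∀ a b, a < b → α.count (f a) ≤ α.count (f b))
    (hprim : ¬ ∃ σ : ℕ → List ℕ, α.flatMap σ = α ∧ ∃ x ∈ α, σ x ≠ [x])
    (hheir : ∀ i ∈ α, ∃ σ : ℕ → List ℕ, (dl i α).flatMap σ = dl i α ∧
      ∃ x ∈ dl i α, σ x ≠ [x]) : False := by
  have hinj := List.map_injective_iff.mpr hf
  subst hmap
  refine main_fin W hall (fun a b hab => ?_) (fun σ hσ x => ?_) (fun z => ?_)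
  · have := hord a b hab
    rwa [List.count_map_of_injective _ _ hf, List.count_map_of_injective _ _ hf] at this
  · by_contra hx
    apply hprim
    refine ⟨Function.extend f (fun c => (σ c).map f) (fun y => [y]), ?_, f x,
      List.mem_map_of_mem (hall x), ?_⟩
    · have := congrArg (List.map f) hσ
      rw [List.map_flatMap] at this
      refine Eq.trans ?_ this
      rw [List.flatMap_map]
      exact List.flatMap_congr (fun c _ => hf.extend_apply _ _ c)
    · intro d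
      rw [hf.extend_apply] at d
      exact hx (hinj (by simpa using d))
  · obtain ⟨σ, h1, x, h2, h3⟩ := hheir (f z) (List.mem_map_of_mem (hall z))
    rw [← map_dl f hf] at h1 h2
    have hσ : ∀ c ∈ dl z W, ((σ (f c)).map (Function.invFun f)).map f = σ (f c) := by
      intro c hc
      rw [List.map_map]
      conv_rhs => rw [← List.map_id (σ (f c))]
      apply List.map_congr_left
      intro y hy
      have : y ∈ (dl z W).map f := by
        rw [← h1]; exact List.mem_flatMap.mpr ⟨_, List.mem_map_of_mem hc, hy⟩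
      obtain ⟨a, _, e⟩ := List.mem_map.mp this
      exact Function.invFun_eq ⟨a, e⟩
    obtain ⟨c, c1, rfl⟩ := List.mem_map.mp h2
    refine ⟨fun c => (σ (f c)).map (Function.invFun f), hinj ?_, c, c1, fun d => h3 ?_⟩
    · rw [List.map_flatMap]
      refine Eq.trans ?_ h1
      rw [List.flatMap_map]
      exact List.flatMap_congr hσ
    · rw [← hσ c c1]
      exact congrArg (List.map f) d

/-- The conjecture of Billaud. -/
theorem billaud (α : List ℕ) (hne : α ≠ [])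
    (hprim : ¬ ∃ σ : ℕ → List ℕ, α.flatMap σ = α ∧ ∃ x ∈ α, σ x ≠ [x])
    (hheir : ∀ i ∈ α, ∃ σ : ℕ → List ℕ, (dl i α).flatMap σ = dl i α ∧
      ∃ x ∈ dl i α, σ x ≠ [x]) : False := by
  obtain ⟨x0, hx0⟩ := List.exists_mem_of_ne_nil α hne
  let key : {x // x ∈ α} → ℕ ×ₗ ℕ := fun c => toLex (α.count c.1, c.1)
  have hkey : Function.Injective key := by
    intro a b h
    have := congrArg (fun p => (ofLex p).2) h
    exact Subtype.ext this
  have : Finite {x // x ∈ α} := List.finite_toSet α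
  refine @billaud_aux {x // x ∈ α} (LinearOrder.lift' key hkey) (Fintype.ofFinite _) ⟨⟨x0, hx0⟩⟩
    Subtype.val Subtype.val_injective α.attach (fun c => List.mem_attach α c) α
    (List.attach_map_subtype_val α) (fun a b hab => ?_) hprim hheir
  have hab' : key a < key b := hab
  rcases Prod.Lex.toLex_lt_toLex.mp hab' with d | d
  · exact d.le
  · exact d.1.le

end Pool.Agent.Work.MP_c026f4_lc.H12
end
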