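import Pool.Agent.Work.MP_c026f4_lc.Freq

set_option autoImplicit false

namespace Pool.Agent.Work.MP_c026f4_lc.BalancedOld

/-- Billaud's conjecture for words in which every letter occurs at most three times or less than
twice as often as each letter of the word. -/
theorem result :
    ∀ α : List ℕ, 3 ≤ α.toFinset.card →
      (∀ a ∈ α, ∀ b ∈ α, α.count a ≤ 3 ∨ α.count a < 2 * α.count b) →
      (¬ ∃ σ : ℕ → List ℕ, α.flatMap σ = α ∧ ∃ x ∈ α, σ x ≠ [x]) →
      ∃ i ∈ α, ¬ ∃ σ : ℕ → List ℕ,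
        (α.filter (fun y => decide (y ≠ i))).flatMap σ = α.filter (fun y => decide (y ≠ i)) ∧
        ∃ x ∈ α.filter (fun y => decide (y ≠ i)), σ x ≠ [x] :=
  fun α h3 hb hp => Pool.Agent.Work.MP_c026f4_lc.balanced α h3 hb hp

end Pool.Agent.Work.MP_c026f4_lc.BalancedOld
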