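import Pool.Agent.Work.MP_c026f4_lc.Twin
import Mathlib.Data.Finset.Card
import Mathlib.Data.Finset.Dedup

set_option autoImplicit false

namespace Pool.Agent.Work.MP_c026f4_lc

theorem count_flatMap_ge (σ : ℕ → List ℕ) (b a : ℕ) (w : List ℕ) :
    w.count a * (σ a).count b ≤ (w.flatMap σ).count b := by
  induction w with
  | nil => simp
  | cons c l ih =>
    rw [List.flatMap_cons, List.count_append, List.count_cons]
    by_cases h : c = a
    · subst h; simp only [beq_self_eq_true, if_true]; rw [Nat.add_mul]; omega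
    · have : (c == a) = false := by simpa using h
      simp only [this]; simp; omega

theorem count_flatMap_ge2 (σ : ℕ → List ℕ) (b a a' : ℕ) (hne : a ≠ a') (w : List ℕ) :
    w.count a * (σ a).count b + w.count a' * (σ a').count b ≤ (w.flatMap σ).count b := by
  induction w with
  | nil => simp
  | cons c l ih =>
    rw [List.flatMap_cons, List.count_append, List.count_cons, List.count_cons]
    by_cases h : c = a
    · subst h
      have : (c == a') = false := by simpa using hne
      simp only [this, beq_self_eq_true, if_true]; rw [Nat.add_mul]; simp; omega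
    · have h1 : (c == a) = false := by simpa using h
      by_cases h' : c = a'
      · subst h'
        simp only [h1, beq_self_eq_true, if_true]; rw [Nat.add_mul (l.count c)]; simp; omega
      · have h2 : (c == a') = false := by simpa using h'
        simp only [h1, h2]; simp; omega

theorem length_flatMap_le (σ : ℕ → List ℕ) (w : List ℕ) (h : ∀ a ∈ w, (σ a).length ≤ 1) :
    (w.flatMap σ).length ≤ w.length := by
  induction w with
  | nil => simp
  | cons c l ih =>
    rw [List.flatMap_cons, List.length_append, List.length_cons]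
    have := h c List.mem_cons_self
    have := ih fun a ha => h a (List.mem_cons_of_mem _ ha)
    omega

theorem trivial_of_short (σ : ℕ → List ℕ) (w : List ℕ) (h : ∀ a ∈ w, (σ a).length ≤ 1)
    (hf : w.flatMap σ = w) : ∀ a ∈ w, σ a = [a] := by
  induction w with
  | nil => simp
  | cons c l ih =>
    have hl : ∀ a ∈ l, (σ a).length ≤ 1 := fun a ha => h a (List.mem_cons_of_mem _ ha)
    have h1 := h c List.mem_cons_self
    have h2 := length_flatMap_le σ l hl
    rw [List.flatMap_cons] at hf
    have h3 := congrArg List.length hf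
    rw [List.length_append, List.length_cons] at h3
    obtain ⟨d, hd⟩ := List.length_eq_one_iff.1 (show (σ c).length = 1 by omega)
    rw [hd] at hf
    injection hf with e1 e2
    intro a ha
    rcases List.mem_cons.1 ha with rfl | ha
    · rw [hd, e1]
    · exact ih hl e2 a ha

theorem tw_flatMap {p q : ℕ} (σ : ℕ → List ℕ) (w : List ℕ) (h : ∀ a ∈ w, Tw p q (σ a)) :
    Tw p q (w.flatMap σ) := by
  induction w with
  | nil => exact Tw.nil
  | cons c l ih =>
    rw [List.flatMap_cons]
    exact (h c List.mem_cons_self).append (ih fun a ha => h a (List.mem_cons_of_mem _ ha))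

/-- a word with balanced multiplicities that is fixed by a nontrivial morphism has a twin pair -/
theorem twin_of_fixed {w : List ℕ} (hb : ∀ a ∈ w, ∀ b ∈ w, w.count a < 2 * w.count b)
    (σ : ℕ → List ℕ) (hf : w.flatMap σ = w) (hn : ∃ x ∈ w, σ x ≠ [x]) :
    ∃ p q, p ∈ w ∧ q ∈ w ∧ p ≠ q ∧ Tw p q w := by
  have hex : ∃ a ∈ w, 2 ≤ (σ a).length := by
    by_contra hc
    push Not at hc
    obtain ⟨x, hx, hx'⟩ := hn
    exact hx' (trivial_of_short σ w (fun a ha => by have := hc a ha; omega) hf x hx)
  obtain ⟨a, ha, h2⟩ := hex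
  have hsub : ∀ b ∈ σ a, b ∈ w := fun b hb' => hf ▸ List.mem_flatMap.2 ⟨a, ha, hb'⟩
  have hone : ∀ b ∈ σ a, (σ a).count b ≤ 1 := by
    intro b hb'
    have h1 := count_flatMap_ge σ b a w
    rw [hf] at h1
    have h3 := hb b (hsub b hb') a ha
    by_contra hc
    have : w.count a * 2 ≤ w.count a * (σ a).count b := Nat.mul_le_mul_left _ (by omega)
    omega
  have hother : ∀ b ∈ σ a, ∀ a' ∈ w, a' ≠ a → b ∉ σ a' := by
    intro b hb' a' ha' hne hm
    have h1 := count_flatMap_ge2 σ b a a' (Ne.symm hne) w
    rw [hf] at h1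
    have h3 := hb b (hsub b hb') a ha
    have h4 := hb b (hsub b hb') a' ha'
    have c1 : 1 ≤ (σ a).count b := List.count_pos_iff.2 hb'
    have c2 : 1 ≤ (σ a').count b := List.count_pos_iff.2 hm
    have : w.count a * 1 ≤ w.count a * (σ a).count b := Nat.mul_le_mul_left _ c1
    have : w.count a' * 1 ≤ w.count a' * (σ a').count b := Nat.mul_le_mul_left _ c2
    omega
  obtain ⟨p, q, s, hs⟩ : ∃ p q s, σ a = p :: q :: s := by
    match h : σ a, h2 with
    | p :: q :: s, _ => exact ⟨p, q, s, rfl⟩
  have hp : p ∈ σ a := by rw [hs]; simp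
  have hq : q ∈ σ a := by rw [hs]; simp
  have c1 := hone p hp
  have c2 := hone q hq
  rw [hs] at c1 c2
  have hpq : p ≠ q := by
    rintro rfl
    simp at c1
  have hps : p ∉ s := by
    intro h
    have := List.count_pos_iff.2 h
    simp [List.count_cons] at c1; omega
  have hqs : q ∉ s := by
    intro h
    have := List.count_pos_iff.2 h
    simp [List.count_cons] at c2; omega
  refine ⟨p, q, hsub p hp, hsub q hq, hpq, ?_⟩
  rw [← hf]
  refine tw_flatMap σ w fun c hc => ?_
  by_cases e : c = a
  · subst e; rw [hs]; exact Tw.blk s (Tw.of_not_mem hps hqs)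
  · exact Tw.of_not_mem (hother p hp c hc e) (hother q hq c hc e)

theorem flatMap_single {w : List ℕ} (b : ℕ) (u : List ℕ) :
    (u.flatMap fun c => if c = b then w else []) = (List.replicate (u.count b) w).flatten := by
  induction u with
  | nil => simp
  | cons c l ih =>
    rw [List.flatMap_cons, ih, List.count_cons]
    by_cases h : c = b
    · subst h; simp [List.replicate_succ]
    · have : (c == b) = false := by simpa using h
      simp [h, this]

theorem two_le_count {w : List ℕ} (h3 : 3 ≤ w.toFinset.card)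
    (hp : ¬ ∃ σ : ℕ → List ℕ, w.flatMap σ = w ∧ ∃ x ∈ w, σ x ≠ [x]) :
    ∀ b ∈ w, 2 ≤ w.count b := by
  intro b hb
  by_contra hc
  have h1 : w.count b = 1 := by have := List.count_pos_iff.2 hb; omega
  apply hp
  refine ⟨fun c => if c = b then w else [], by rw [flatMap_single, h1]; simp, b, hb, ?_⟩
  simp only [if_true]
  intro e
  rw [e] at h3
  simp at h3

theorem balanced (α : List ℕ) (h3 : 3 ≤ α.toFinset.card)
    (hb : ∀ a ∈ α, ∀ b ∈ α, α.count a ≤ 3 ∨ α.count a < 2 * α.count b)
    (hp : ¬ ∃ σ : ℕ → List ℕ, α.flatMap σ = α ∧ ∃ x ∈ α, σ x ≠ [x]) :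
    ∃ i ∈ α, ¬ ∃ σ : ℕ → List ℕ,
      (α.filter (fun y => decide (y ≠ i))).flatMap σ = α.filter (fun y => decide (y ≠ i)) ∧
      ∃ x ∈ α.filter (fun y => decide (y ≠ i)), σ x ≠ [x] := by
  by_contra hc
  push Not at hc
  have h2 := two_le_count h3 hp
  have hne : α ≠ [] := by rintro rfl; simp at h3
  apply hp
  refine imprim_of_twins hne fun x hx => ?_
  obtain ⟨σ, hf, hn⟩ := hc x hx
  have hcnt : ∀ a ∈ α.filter (fun y => decide (y ≠ x)),
      (α.filter (fun y => decide (y ≠ x))).count a = α.count a := by
    intro a ha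
    exact List.count_filter (List.mem_filter.1 ha).2
  obtain ⟨p, q, hp', hq', hpq, ht⟩ := twin_of_fixed (w := α.filter (fun y => decide (y ≠ x)))
    (by
      intro a ha b hb'
      rw [hcnt a ha, hcnt b hb']
      have := h2 b (List.mem_filter.1 hb').1
      rcases hb a (List.mem_filter.1 ha).1 b (List.mem_filter.1 hb').1 with h | h <;> omega)
    σ hf hn
  exact ⟨p, q, (List.mem_filter.1 hp').1, (List.mem_filter.1 hq').1,
    by simpa using (List.mem_filter.1 hp').2, by simpa using (List.mem_filter.1 hq').2, hpq, ht⟩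

end Pool.Agent.Work.MP_c026f4_lc
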