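import Mathlib.Data.List.Count
import Mathlib.Data.List.Basic
import Mathlib.Algebra.BigOperators.Group.List.Basic
import Mathlib.Order.Nat
import Mathlib.Tactic.Linarith
import Mathlib.Tactic.Push

set_option autoImplicit false

namespace Pool.Agent.Work.MP_c026f4_lc

/-- every `p` is followed by `x^* q` -/
def Fwd (w : List ℕ) (x p q : ℕ) : Prop :=
  ∀ i : ℕ, w[i]? = some p → ∃ j : ℕ, i < j ∧ w[j]? = some q ∧ ∀ k, i < k → k < j → w[k]? = some x

/-- every `q` is preceded by `p x^*` -/
def Bwd (w : List ℕ) (x p q : ℕ) : Prop :=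
  ∀ j : ℕ, w[j]? = some q → ∃ i : ℕ, i < j ∧ w[i]? = some p ∧ ∀ k, i < k → k < j → w[k]? = some x

/-- an occurrence of `p x^+ q` -/
def Inside (w : List ℕ) (x p q : ℕ) : Prop :=
  ∃ i j : ℕ, i + 1 < j ∧ w[i]? = some p ∧ w[j]? = some q ∧ ∀ k, i < k → k < j → w[k]? = some x

theorem Fwd.next {w : List ℕ} {x p q i c : ℕ} (h : Fwd w x p q) (hi : w[i]? = some p)
    (hc : w[i + 1]? = some c) : c = x ∨ c = q := by
  obtain ⟨j, hj, hq, hb⟩ := h i hi
  by_cases e : j = i + 1
  · subst e; rw [hq] at hc; right; exact (Option.some.inj hc).symm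
  · have := hb (i + 1) (by omega) (by omega)
    rw [this] at hc; left; exact (Option.some.inj hc).symm

theorem Bwd.prev {w : List ℕ} {x p q i c : ℕ} (h : Bwd w x p q) (hi : w[i + 1]? = some q)
    (hc : w[i]? = some c) : c = x ∨ c = p := by
  obtain ⟨j, hj, hp, hb⟩ := h (i + 1) hi
  by_cases e : j = i
  · subst e; rw [hp] at hc; right; exact (Option.some.inj hc).symm
  · have := hb i (by omega) (by omega)
    rw [this] at hc; left; exact (Option.some.inj hc).symm

theorem regress {w : List ℕ} {x p q v : ℕ} (hpx : p ≠ x) (hpq : p ≠ q) (hxq : x ≠ q)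
    (f1 : Fwd w x p q) (b2 : Bwd w p x q) (f3 : Fwd w q p v) (b3 : Bwd w q p v)
    (h1 : ∃ i, w[i]? = some p ∧ w[i + 1]? = some x)
    (h2 : ∃ i, w[i]? = some x ∧ w[i + 1]? = some p) : False := by
  obtain ⟨i, hi, hi'⟩ := h1
  have hv : x = v := by
    rcases f3.next hi hi' with h | h
    · exact absurd h hxq
    · exact h
  subst hv
  obtain ⟨m, hm⟩ := h2
  induction m using Nat.strong_induction_on with
  | _ m ih =>
    obtain ⟨hm1, hm2⟩ := hm
    obtain ⟨a, ha, hap, hb⟩ := b3 m hm1
    by_cases e : a + 1 = m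
    · obtain ⟨j, hj, hq, hb'⟩ := f1 a hap
      by_cases e1 : j = m
      · subst e1; rw [hm1] at hq; exact hxq (Option.some.inj hq)
      · by_cases e2 : j = m + 1
        · subst e2; rw [hm2] at hq; exact hpq (Option.some.inj hq)
        · have := hb' (m + 1) (by omega) (by omega)
          rw [hm2] at this; exact hpx (Option.some.inj this)
    · have hq := hb (a + 1) (by omega) (by omega)
      obtain ⟨c, hc, hcx, hb'⟩ := b2 (a + 1) hq
      by_cases e1 : c = a
      · subst e1; rw [hap] at hcx; exact hpx (Option.some.inj hcx)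
      · by_cases e2 : c + 1 = a
        · exact ih c (by omega) ⟨hcx, by rw [e2]; exact hap⟩
        · exact ih c (by omega) ⟨hcx, hb' (c + 1) (by omega) (by omega)⟩

/-- The combinatorial core: twin pairs with inside occurrences for all letters are impossible. -/
theorem core {w : List ℕ} (hw : w ≠ []) (L R : ℕ → ℕ)
    (H : ∀ x ∈ w, L x ∈ w ∧ R x ∈ w ∧ L x ≠ x ∧ R x ≠ x ∧ L x ≠ R x ∧
      Fwd w x (L x) (R x) ∧ Bwd w x (L x) (R x) ∧ Inside w x (L x) (R x)) : False := by
  have key : ∀ x ∈ w, R (L x) = x := by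
    intro x hx
    obtain ⟨hp, hq, hpx, hqx, hpq, f1, b1, in1⟩ := H x hx
    obtain ⟨-, -, htp, hsp, hts, f2, b2, in2⟩ := H (L x) hp
    obtain ⟨-, -, huq, hvq, huv, f3, b3, in3⟩ := H (R x) hq
    obtain ⟨i, j, hij, hi, hj, hb⟩ := in2
    obtain ⟨j, rfl⟩ : ∃ j', j = j' + 1 := ⟨j - 1, by omega⟩
    have hjp := hb j (by omega) (by omega)
    rcases f1.next hjp hj with h | h
    · exact h
    exfalso
    rw [h] at f2 b2 hj
    obtain ⟨i0, j0, hij0, hi0, hj0, hb0⟩ := in1
    obtain ⟨j0, rfl⟩ : ∃ j', j0 = j' + 1 := ⟨j0 - 1, by omega⟩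
    have hjx := hb0 j0 (by omega) (by omega)
    have ht : x = L (L x) := by
      rcases b2.prev hj0 hjx with h' | h'
      · exact absurd h'.symm hpx
      · exact h'
    rw [← ht] at f2 b2 hi
    have h1 : ∃ i, w[i]? = some (L x) ∧ w[i + 1]? = some x :=
      ⟨i0, hi0, hb0 (i0 + 1) (by omega) (by omega)⟩
    have h2 : ∃ i, w[i]? = some x ∧ w[i + 1]? = some (L x) :=
      ⟨i, hi, hb (i + 1) (by omega) (by omega)⟩
    obtain ⟨a, c, hac, ha, -, hb3⟩ := in3
    have ha1 := hb3 (a + 1) (by omega) (by omega)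
    rcases b1.prev ha1 ha with h' | h'
    · rw [h'] at f3 b3
      exact regress (Ne.symm hpx) (Ne.symm hqx) hpq f2 b1 f3 b3 h2 h1
    · rw [h'] at f3 b3
      exact regress hpx hpq (Ne.symm hqx) f1 b2 f3 b3 h1 h2
  obtain ⟨f, r, rfl⟩ := List.exists_cons_of_ne_nil hw
  have hf : f ∈ f :: r := List.mem_cons_self
  obtain ⟨hp, -⟩ := H f hf
  obtain ⟨-, -, -, -, -, -, b, -⟩ := H _ hp
  rw [key f hf] at b
  obtain ⟨i, hi, -⟩ := b 0 (by simp)
  omega

theorem Fwd.append {a b : List ℕ} {x p q : ℕ} (ha : Fwd a x p q) (hb : Fwd b x p q) :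
    Fwd (a ++ b) x p q := by
  intro i hi
  by_cases h : i < a.length
  · rw [List.getElem?_append_left h] at hi
    obtain ⟨j, hj, hq, hk⟩ := ha i hi
    have hjl : j < a.length := (List.getElem?_eq_some_iff.1 hq).1
    refine ⟨j, hj, by rw [List.getElem?_append_left hjl]; exact hq, fun k h1 h2 => ?_⟩
    rw [List.getElem?_append_left (by omega)]; exact hk k h1 h2
  · rw [List.getElem?_append_right (by omega)] at hi
    obtain ⟨j, hj, hq, hk⟩ := hb _ hi
    refine ⟨j + a.length, by omega, ?_, fun k h1 h2 => ?_⟩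
    · rw [List.getElem?_append_right (by omega)]; simpa using hq
    · rw [List.getElem?_append_right (by omega)]; exact hk _ (by omega) (by omega)

theorem Bwd.append {a b : List ℕ} {x p q : ℕ} (ha : Bwd a x p q) (hb : Bwd b x p q) :
    Bwd (a ++ b) x p q := by
  intro i hi
  by_cases h : i < a.length
  · rw [List.getElem?_append_left h] at hi
    obtain ⟨j, hj, hq, hk⟩ := ha i hi
    refine ⟨j, hj, by rw [List.getElem?_append_left (by omega)]; exact hq, fun k h1 h2 => ?_⟩
    rw [List.getElem?_append_left (by omega)]; exact hk k h1 h2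
  · rw [List.getElem?_append_right (by omega)] at hi
    obtain ⟨j, hj, hq, hk⟩ := hb _ hi
    refine ⟨j + a.length, by omega, ?_, fun k h1 h2 => ?_⟩
    · rw [List.getElem?_append_right (by omega)]; simpa using hq
    · rw [List.getElem?_append_right (by omega)]; exact hk _ (by omega) (by omega)

theorem Inside.append {a b : List ℕ} {x p q : ℕ} (hb : Inside b x p q) :
    Inside (a ++ b) x p q := by
  obtain ⟨i, j, hij, hi, hj, hk⟩ := hb
  refine ⟨i + a.length, j + a.length, by omega, ?_, ?_, fun k h1 h2 => ?_⟩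
  · rw [List.getElem?_append_right (by omega)]; simpa using hi
  · rw [List.getElem?_append_right (by omega)]; simpa using hj
  · rw [List.getElem?_append_right (by omega)]; exact hk _ (by omega) (by omega)

/-- letters of the block `p x^k q` -/
theorem blk_get (x p q k : ℕ) (l : List ℕ) :
    (p :: (List.replicate k x ++ q :: l))[0]? = some p ∧
    (p :: (List.replicate k x ++ q :: l))[k + 1]? = some q ∧
    ∀ i, 0 < i → i < k + 1 → (p :: (List.replicate k x ++ q :: l))[i]? = some x := by
  refine ⟨rfl, ?_, fun i h1 h2 => ?_⟩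
  · rw [List.getElem?_cons_succ, List.getElem?_append_right (by simp)]; simp
  · obtain ⟨i, rfl⟩ : ∃ j, i = j + 1 := ⟨i - 1, by omega⟩
    rw [List.getElem?_cons_succ, List.getElem?_append_left (by simp; omega)]
    rw [List.getElem?_replicate]; simp; omega

/-- every `p` is immediately followed by `q` and every `q` immediately preceded by `p` -/
inductive Tw (p q : ℕ) : List ℕ → Prop
  | nil : Tw p q []
  | single (c : ℕ) (l : List ℕ) : c ≠ p → c ≠ q → Tw p q l → Tw p q (c :: l)
  | blk (l : List ℕ) : Tw p q l → Tw p q (p :: q :: l)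

/-- the same modulo the letter `x` -/
inductive Tw2 (x p q : ℕ) : List ℕ → Prop
  | nil : Tw2 x p q []
  | single (c : ℕ) (l : List ℕ) : c ≠ p → c ≠ q → Tw2 x p q l → Tw2 x p q (c :: l)
  | blk (k : ℕ) (l : List ℕ) : Tw2 x p q l → Tw2 x p q (p :: (List.replicate k x ++ q :: l))

theorem Tw.append {p q : ℕ} {a b : List ℕ} (ha : Tw p q a) (hb : Tw p q b) : Tw p q (a ++ b) := by
  induction ha with
  | nil => exact hb
  | single c l h1 h2 _ ih => exact Tw.single c _ h1 h2 ih
  | blk l _ ih => exact Tw.blk _ ih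

theorem Tw.of_not_mem {p q : ℕ} {a : List ℕ} (hp : p ∉ a) (hq : q ∉ a) : Tw p q a := by
  induction a with
  | nil => exact Tw.nil
  | cons c l ih =>
    simp only [List.mem_cons, not_or] at hp hq
    exact Tw.single c l (Ne.symm hp.1) (Ne.symm hq.1) (ih hp.2 hq.2)

theorem Tw.fixed {p q : ℕ} (hpq : p ≠ q) {a : List ℕ} (h : Tw p q a) :
    a.flatMap (fun c => if c = p then [p, q] else if c = q then [] else [c]) = a := by
  induction h with
  | nil => rfl
  | single c l h1 h2 _ ih => simp [List.flatMap_cons, h1, h2, ih]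
  | blk l _ ih => simp [List.flatMap_cons, Ne.symm hpq, ih]

theorem filter_eq_cons {x q : ℕ} {r l : List ℕ}
    (h : r.filter (fun y => decide (y ≠ x)) = q :: l) :
    ∃ k r', r = List.replicate k x ++ q :: r' ∧ r'.filter (fun y => decide (y ≠ x)) = l := by
  induction r with
  | nil => simp at h
  | cons c r ih =>
    by_cases hc : c = x
    · subst hc
      rw [List.filter_cons_of_neg (by simp)] at h
      obtain ⟨k, r', e, h'⟩ := ih h
      exact ⟨k + 1, r', by rw [e]; rfl, h'⟩
    · rw [List.filter_cons_of_pos (by simpa using hc)] at h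
      injection h with h1 h2
      exact ⟨0, r, by rw [h1]; rfl, h2⟩

theorem Tw2.of_filter {x p q : ℕ} (hp : p ≠ x) (hq : q ≠ x) (n : ℕ) :
    ∀ w : List ℕ, w.length ≤ n → Tw p q (w.filter (fun y => decide (y ≠ x))) → Tw2 x p q w := by
  induction n with
  | zero => intro w hw _; rw [List.length_eq_zero_iff.1 (Nat.le_zero.1 hw)]; exact Tw2.nil
  | succ n ih =>
    intro w hw h
    cases w with
    | nil => exact Tw2.nil
    | cons c r =>
      simp only [List.length_cons] at hw
      by_cases hc : c = x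
      · subst hc
        rw [List.filter_cons_of_neg (by simp)] at h
        exact Tw2.single _ _ (Ne.symm hp) (Ne.symm hq) (ih r (by omega) h)
      · rw [List.filter_cons_of_pos (by simpa using hc)] at h
        generalize hf : r.filter (fun y => decide (y ≠ x)) = f at h
        cases h with
        | single _ _ h1 h2 h3 => exact Tw2.single _ _ h1 h2 (ih r (by omega) (hf ▸ h3))
        | blk l h3 =>
          obtain ⟨k, r', e, h'⟩ := filter_eq_cons hf
          subst e
          refine Tw2.blk k r' (ih r' ?_ (h' ▸ h3))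
          simp at hw; omega

theorem Tw2.fwd_bwd {x p q : ℕ} (hp : p ≠ x) (hq : q ≠ x) (hpq : p ≠ q) {w : List ℕ}
    (h : Tw2 x p q w) : Fwd w x p q ∧ Bwd w x p q := by
  induction h with
  | nil => exact ⟨fun i hi => by simp at hi, fun i hi => by simp at hi⟩
  | single c l h1 h2 _ ih =>
    have e : c :: l = [c] ++ l := rfl
    rw [e]
    refine ⟨Fwd.append (fun i hi => ?_) ih.1, Bwd.append (fun i hi => ?_) ih.2⟩
    · exact absurd (List.mem_singleton.1 (List.mem_of_getElem? hi)).symm h1
    · exact absurd (List.mem_singleton.1 (List.mem_of_getElem? hi)).symm h2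
  | blk k l _ ih =>
    have e : p :: (List.replicate k x ++ q :: l) = (p :: (List.replicate k x ++ [q])) ++ l := by
      simp
    rw [e]
    obtain ⟨g0, g1, g2⟩ := blk_get x p q k []
    have hlen : ∀ i c, (p :: (List.replicate k x ++ [q]))[i]? = some c → i ≤ k + 1 := by
      intro i c hi
      have := (List.getElem?_eq_some_iff.1 hi).1
      simp at this; omega
    refine ⟨Fwd.append (fun i hi => ?_) ih.1, Bwd.append (fun i hi => ?_) ih.2⟩
    · have hl := hlen i p hi
      by_cases e0 : i = 0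
      · subst e0; exact ⟨k + 1, by omega, g1, g2⟩
      · by_cases e1 : i = k + 1
        · subst e1; rw [g1] at hi; exact absurd (Option.some.inj hi).symm hpq
        · rw [g2 i (by omega) (by omega)] at hi; exact absurd (Option.some.inj hi).symm hp
    · have hl := hlen i q hi
      by_cases e1 : i = k + 1
      · subst e1; exact ⟨0, by omega, g0, g2⟩
      · by_cases e0 : i = 0
        · subst e0; rw [g0] at hi; exact absurd (Option.some.inj hi) hpq
        · rw [g2 i (by omega) (by omega)] at hi; exact absurd (Option.some.inj hi).symm hq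

theorem Tw2.tw_or {x p q : ℕ} {w : List ℕ} (h : Tw2 x p q w) : Tw p q w ∨ Inside w x p q := by
  induction h with
  | nil => exact Or.inl Tw.nil
  | single c l h1 h2 _ ih =>
    rcases ih with ih | ih
    · exact Or.inl (Tw.single c l h1 h2 ih)
    · exact Or.inr (Inside.append (a := [c]) ih)
  | blk k l _ ih =>
    cases k with
    | zero =>
      rcases ih with ih | ih
      · exact Or.inl (Tw.blk l ih)
      · exact Or.inr (Inside.append (a := [p, q]) ih)
    | succ k =>
      obtain ⟨g0, g1, g2⟩ := blk_get x p q (k + 1) l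
      exact Or.inr ⟨0, k + 1 + 1, by omega, g0, g1, g2⟩

/-- If every heir has a twin pair, the word is a fixed point of a nontrivial morphism. -/
theorem imprim_of_twins {w : List ℕ} (hw : w ≠ [])
    (H : ∀ x ∈ w, ∃ p q, p ∈ w ∧ q ∈ w ∧ p ≠ x ∧ q ≠ x ∧ p ≠ q ∧
      Tw p q (w.filter (fun y => decide (y ≠ x)))) :
    ∃ σ : ℕ → List ℕ, w.flatMap σ = w ∧ ∃ x ∈ w, σ x ≠ [x] := by
  by_contra hcon
  choose! L R hL hR hLx hRx hLR hT using H
  refine core hw L R fun x hx => ⟨hL x hx, hR x hx, hLx x hx, hRx x hx, hLR x hx, ?_⟩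
  have h2 := Tw2.of_filter (hLx x hx) (hRx x hx) _ w le_rfl (hT x hx)
  obtain ⟨f, b⟩ := h2.fwd_bwd (hLx x hx) (hRx x hx) (hLR x hx)
  refine ⟨f, b, h2.tw_or.resolve_left fun ht => hcon ⟨_, ht.fixed (hLR x hx), L x, hL x hx, ?_⟩⟩
  simp

end Pool.Agent.Work.MP_c026f4_lc
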